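import Pool.Agent.Oad.Ana

/-!
Removable singularities for divergence free fields which are pointwise multiples of finitely many
smooth fields
-/

set_option autoImplicit false

namespace Pool.Agent.Oaf

open MeasureTheory Set Matrix Filter Topology Pool.Agent.Oad
open scoped ContDiff

/-- the cutoff `1 / (1 + (s / N)^2)` -/
noncomputable def ct (N s : ℝ) : ℝ := 1 / (1 + (s / N) ^ 2)

/-- the derivative of `ct N` -/
noncomputable def dct (N s : ℝ) : ℝ := -(2 * s / N ^ 2) / (1 + (s / N) ^ 2) ^ 2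

-- BEGIN ibv
private theorem ibv_zero {q : ℕ} (i : Fin (q + 5)) (f : (E q) → ℝ) (x : (E q))
    (h : f =ᶠ[𝓝 x] fun _ => (0 : ℝ)) : pd i f x = 0 := by
  unfold pd
  rw [h.fderiv_eq]
  simp

/-- The proof of `Oad.ibp_cut` with `T i` in place of `u * V i` (rows gcd, dv0: `prod_contDiff` for `f = T i`, `int_pd_zero`). -/
theorem ibp_cutv {q : ℕ} (U K O : Set (E q)) (hU : IsOpen U) (hK : IsOpen (U \ K)) (hO : IsOpen O)
    (ψ χ w : (E q) → ℝ) (T : Fin (q + 5) → (E q) → ℝ) (hT : ∀ i, ContDiffOn ℝ 1 (T i) (U \ K))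
    (hψ : IsTestF U ψ) (hχ : ContDiff ℝ ∞ χ)
    (hKO : K ∩ tsupport ψ ⊆ O) (hχO : ∀ x ∈ O, χ x = 0)
    (hw : ∀ x ∈ U \ K, ∑ i, pd i (T i) x = w x) :
    ∫ x, (χ x * (∑ i, T i x * pd i ψ x) + ψ x * (∑ i, T i x * pd i χ x) +
      ψ x * χ x * w x) = 0 := by
  have hg : ∀ i, ContDiff ℝ 1 (fun y => ψ y * χ y * T i y) ∧
      HasCompactSupport (fun y => ψ y * χ y * T i y) := fun i =>
    prod_contDiff U K O hK hO (T i) ψ χ (hT i) hψ hχ hKO hχO
  have hI := fun i => int_pd_zero i _ (hg i).1 (hg i).2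
  have key : ∀ x, χ x * (∑ i, T i x * pd i ψ x) + ψ x * (∑ i, T i x * pd i χ x) +
      ψ x * χ x * w x = ∑ i, pd i (fun y => ψ y * χ y * T i y) x := by
    intro x
    by_cases hxO : x ∈ O
    · have e1 : χ x = 0 := hχO x hxO
      have hev : χ =ᶠ[𝓝 x] fun _ => (0 : ℝ) := Filter.eventually_of_mem (hO.mem_nhds hxO) hχO
      have e2 : ∀ i, pd i χ x = 0 := fun i => ibv_zero i χ x hev
      have e3 : ∀ i, pd i (fun y => ψ y * χ y * T i y) x = 0 := fun i =>
        ibv_zero i _ x (hev.mono fun y hy => by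
          show ψ y * χ y * T i y = 0
          rw [hy, mul_zero, zero_mul])
      simp only [e1, e2, e3]
      simp
    by_cases hxS : x ∈ tsupport ψ
    · have hx : x ∈ U \ K := ⟨hψ.2.2 hxS, fun h => hxO (hKO ⟨h, hxS⟩)⟩
      have hn : U \ K ∈ 𝓝 x := hK.mem_nhds hx
      have dψ : DifferentiableAt ℝ ψ x := (hψ.1.differentiable (by simp)) x
      have dχ : DifferentiableAt ℝ χ x := (hχ.differentiable (by simp)) x
      have df : ∀ i, DifferentiableAt ℝ (T i) x := fun i =>
        ((hT i).contDiffAt hn).differentiableAt (by simp)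
      have e : ∀ i, pd i (fun y => ψ y * χ y * T i y) x =
          χ x * (T i x * pd i ψ x) + ψ x * (T i x * pd i χ x) +
            ψ x * χ x * pd i (T i) x := by
        intro i
        unfold pd
        rw [fderiv_fun_mul (dψ.fun_mul dχ) (df i), fderiv_fun_mul dψ dχ]
        simp only [_root_.add_apply, _root_.smul_apply, smul_eq_mul,
          smul_add]
        ring
      simp only [e, Finset.sum_add_distrib, ← Finset.mul_sum]
      rw [hw x hx]
    · have hev : ψ =ᶠ[𝓝 x] fun _ => (0 : ℝ) := notMem_tsupport_iff_eventuallyEq.1 hxS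
      have e1 : ψ x = 0 := hev.self_of_nhds
      have e2 : ∀ i, pd i ψ x = 0 := fun i => ibv_zero i ψ x hev
      have e3 : ∀ i, pd i (fun y => ψ y * χ y * T i y) x = 0 := fun i =>
        ibv_zero i _ x (hev.mono fun y hy => by
          show ψ y * χ y * T i y = 0
          rw [hy, zero_mul, zero_mul])
      simp only [e1, e2, e3]
      simp
  simp only [key]
  rw [integral_finsetSum _ fun i _ => (hI i).1]
  exact Finset.sum_eq_zero fun i _ => (hI i).2
-- END ibv

-- BEGIN wbv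
private theorem wbv_pd_zero {q : ℕ} (i : Fin (q + 5)) (ψ : (E q) → ℝ) (x : (E q)) (hx : x ∉ tsupport ψ) :
    pd i ψ x = 0 := by
  have h1 : fderiv ℝ ψ x = 0 := by
    by_contra h
    exact hx (support_fderiv_subset ℝ (Function.mem_support.mpr h))
  unfold pd
  rw [h1]
  rfl

private theorem wbv_pd_cont {q : ℕ} (i : Fin (q + 5)) (ψ : (E q) → ℝ) (hψ : ContDiff ℝ ∞ ψ) :
    Continuous (fun x => pd i ψ x) := by
  have h1 : Continuous (fderiv ℝ ψ) := hψ.continuous_fderiv (by simp)
  exact h1.clm_apply continuous_const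

private theorem wbv_pd_le {q : ℕ} (i : Fin (q + 5)) (χ : (E q) → ℝ) (x : (E q)) :
    |pd i χ x| ≤ ‖fderiv ℝ χ x‖ := by
  have h0 : ‖bv i‖ = 1 := by
    unfold bv
    simp
  have h1 := (fderiv ℝ χ x).le_opNorm (bv i)
  rw [h0, mul_one] at h1
  exact h1

private theorem wbv_loc {q : ℕ} (U K : Set (E q)) (hU : IsOpen U) (hK : IsOpen (U \ K))
    (hv : volume K = 0) (f : (E q) → ℝ) (hf : ContinuousOn f (U \ K))
    (b : (E q) → ℝ) (hb : ContinuousOn b U) (hM : ∀ x ∈ U \ K, |f x| ≤ b x) :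
    LocallyIntegrableOn f U := by
  rw [locallyIntegrableOn_iff hU.isLocallyClosed]
  intro S hSU hS
  obtain ⟨B, hB⟩ := hS.exists_bound_of_continuousOn (hb.mono hSU)
  have hm : AEStronglyMeasurable f (volume.restrict S) :=
    (meas_of_cont U K hK hv f hf).mono_measure (Measure.restrict_mono hSU le_rfl)
  refine IntegrableOn.of_bound hS.measure_lt_top hm B ?_
  have h1 : ∀ᵐ x ∂(volume.restrict S), x ∉ K :=
    ae_restrict_of_ae (compl_mem_ae_iff.2 hv)
  filter_upwards [h1, ae_restrict_mem hS.measurableSet] with x hxK hxS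
  rw [Real.norm_eq_abs]
  exact (hM x ⟨hSU hxS, hxK⟩).trans ((le_abs_self _).trans (hB x hxS))

/-- The proof of `Oad.weak_bounded` with `T i` in place of `u * V i` (row ibv, `exists_cutoff`, `integrable_test`, `vol_zero`, `meas_of_cont`); on the compact set `tsupport ψ` the continuous function `b` has a maximum, which replaces `M * sup |V i|`. Off `U \ K` nothing is known about `T i`, but `K` is null and `ψ`, `pd i ψ` vanish off `tsupport ψ ⊆ U`. -/
theorem weak_boundedv {q : ℕ} (U K : Set (E q)) (hU : IsOpen U) (hK : IsOpen (U \ K))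
    (h0 : μH[(q : ℝ) + 4] K = 0)
    (T : Fin (q + 5) → (E q) → ℝ) (hT : ∀ i, ContDiffOn ℝ 1 (T i) (U \ K))
    (b : (E q) → ℝ) (hb : ContinuousOn b U) (hM : ∀ i, ∀ x ∈ U \ K, |T i x| ≤ b x)
    (w : (E q) → ℝ) (hw : ∀ x ∈ U \ K, ∑ i, pd i (T i) x = w x)
    (hwi : LocallyIntegrableOn w U) (ψ : (E q) → ℝ) (hψ : IsTestF U ψ) :
    ∫ x, ((∑ i, T i x * pd i ψ x) + ψ x * w x) = 0 := by
  obtain ⟨hψ1, hψ2, hψ3⟩ := hψ
  have hTc : IsCompact (tsupport ψ) := hψ2
  have hv : volume K = 0 := vol_zero K h0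
  have hvae : ∀ᵐ x ∂(volume : Measure (E q)), x ∉ K := compl_mem_ae_iff.2 hv
  have hS : IsCompact (K ∩ tsupport ψ) := by
    have e1 : K ∩ tsupport ψ = tsupport ψ \ (U \ K) := by
      ext x
      constructor
      · rintro ⟨h1, h2⟩
        exact ⟨h2, fun h3 => h3.2 h1⟩
      · rintro ⟨h1, h2⟩
        refine ⟨?_, h1⟩
        by_contra h3
        exact h2 ⟨hψ3 h1, h3⟩
    rw [e1]
    exact hTc.diff hK
  have hS0 : μH[(q : ℝ) + 4] (K ∩ tsupport ψ) = 0 := measure_mono_null inter_subset_left h0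
  have hTl : ∀ i, LocallyIntegrableOn (T i) U := fun i =>
    wbv_loc U K hU hK hv (T i) (hT i).continuousOn b hb (hM i)
  have hψc : Continuous ψ := hψ1.continuous
  have hi1 : Integrable (fun x => ∑ i, T i x * pd i ψ x) := by
    refine integrable_finsetSum _ fun i _ => ?_
    exact integrable_test U (T i) (hTl i) (fun x => pd i ψ x) (wbv_pd_cont i ψ hψ1).continuousOn
      (tsupport ψ) hTc hψ3 (fun x hx => wbv_pd_zero i ψ x hx)
  have hi2 : Integrable (fun x => ψ x * w x) := by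
    have h1 := integrable_test U w hwi ψ hψc.continuousOn (tsupport ψ) hTc hψ3
      (fun x hx => image_eq_zero_of_notMem_tsupport hx)
    refine h1.congr (Eventually.of_forall fun x => ?_)
    exact mul_comm _ _
  have hih : Integrable (fun x => (∑ i, T i x * pd i ψ x) + ψ x * w x) := hi1.add hi2
  obtain ⟨B, hB⟩ := hTc.exists_bound_of_continuousOn
    (f := fun x => ψ x * ∑ _i : Fin (q + 5), |b x|)
    (hψc.continuousOn.mul (continuousOn_finsetSum _ fun i _ => (hb.mono hψ3).abs))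
  have hB' : ∀ x ∈ tsupport ψ, |ψ x| * ∑ _i : Fin (q + 5), |b x| ≤ |B| := by
    intro x hx
    have h1 := hB x hx
    rw [Real.norm_eq_abs, abs_mul, abs_of_nonneg (a := ∑ _i : Fin (q + 5), |b x|)
      (Finset.sum_nonneg fun i _ => abs_nonneg _)] at h1
    exact le_trans h1 (le_abs_self _)
  set h : (E q) → ℝ := fun x => (∑ i, T i x * pd i ψ x) + ψ x * w x with hh
  change ∫ x, h x = 0
  have key : ∀ ε : ℝ, 0 < ε → |∫ x, h x| ≤ ε := by
    intro ε hε
    have hfin : ∫⁻ x, ‖h x‖ₑ ≠ ⊤ := hih.2.ne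
    obtain ⟨δ, hδ, hδ2⟩ := exists_pos_setLIntegral_lt_of_measure_lt hfin
      (ε := ENNReal.ofReal (ε / 2)) (by
        have : 0 < ENNReal.ofReal (ε / 2) := ENNReal.ofReal_pos.mpr (by linarith)
        exact this.ne')
    obtain ⟨δ', hδ'0, hδ'⟩ : ∃ δ' : ℝ, 0 < δ' ∧ ENNReal.ofReal δ' < δ := by
      by_cases hd : δ = ⊤
      · refine ⟨1, one_pos, ?_⟩
        rw [hd]
        exact ENNReal.ofReal_lt_top
      · have hdr : 0 < δ.toReal := ENNReal.toReal_pos hδ.ne' hd
        refine ⟨δ.toReal / 2, by linarith, ?_⟩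
        rw [ENNReal.ofReal_lt_iff_lt_toReal (by linarith) hd]
        linarith
    have hD : 0 < ε / (2 * (|B| + 1)) := by
      have : 0 < |B| + 1 := by positivity
      positivity
    obtain ⟨χ, hχ1, hχ2, ⟨O, hO1, hO2, hO3⟩, hχ4, hχ5, hχ6⟩ :=
      exists_cutoff (K ∩ tsupport ψ) hS hS0 (min δ' (ε / (2 * (|B| + 1))))
        (lt_min hδ'0 hD)
    have hib := ibp_cutv U K O hU hK hO1 ψ χ w T hT ⟨hψ1, hψ2, hψ3⟩ hχ1 hO2 hO3 hw
    have hχc : Continuous χ := hχ1.continuous
    have hi3 : Integrable (fun x => h x * χ x) := by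
      refine hih.mul_bdd (c := 1) hχc.aestronglyMeasurable (Eventually.of_forall fun x => ?_)
      rw [Real.norm_eq_abs, abs_of_nonneg (hχ2 x).1]
      exact (hχ2 x).2
    have hi4 : Integrable (fun x => ψ x * (∑ i, T i x * pd i χ x)) := by
      have h1 : Integrable (fun x => ∑ i, T i x * (ψ x * pd i χ x)) := by
        refine integrable_finsetSum _ fun i _ => ?_
        refine integrable_test U (T i) (hTl i) (fun x => ψ x * pd i χ x)
          (hψc.mul (wbv_pd_cont i χ hχ1)).continuousOn (tsupport ψ) hTc hψ3 ?_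
        intro x hx
        show ψ x * pd i χ x = 0
        rw [image_eq_zero_of_notMem_tsupport hx, zero_mul]
      refine h1.congr (Eventually.of_forall fun x => ?_)
      show ∑ i, T i x * (ψ x * pd i χ x) = ψ x * (∑ i, T i x * pd i χ x)
      rw [Finset.mul_sum]
      refine Finset.sum_congr rfl fun i _ => ?_
      ring
    have hi5 : Integrable (fun x => h x * (1 - χ x)) := by
      have h1 := hih.sub hi3
      refine h1.congr (Eventually.of_forall fun x => ?_)
      simp only [Pi.sub_apply]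
      ring
    have e1 : ∫ x, h x = (∫ x, h x * (1 - χ x)) - ∫ x, ψ x * (∑ i, T i x * pd i χ x) := by
      have e2 : (∫ x, h x * χ x) + ∫ x, ψ x * (∑ i, T i x * pd i χ x) = 0 := by
        rw [← integral_add hi3 hi4, ← hib]
        refine integral_congr_ae (Eventually.of_forall fun x => ?_)
        simp only [hh]
        ring
      have e3 : (∫ x, h x * (1 - χ x)) + (∫ x, h x * χ x) = ∫ x, h x := by
        rw [← integral_add hi5 hi3]
        refine integral_congr_ae (Eventually.of_forall fun x => ?_)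
        simp only
        ring
      linarith
    have b1 : |∫ x, h x * (1 - χ x)| ≤ ε / 2 := by
      have hms : MeasurableSet {x | χ x ≠ 1} :=
        (isOpen_ne_fun hχc continuous_const).measurableSet
      have c1 : ‖∫ x, h x * (1 - χ x)‖ₑ ≤ ∫⁻ x, ‖h x * (1 - χ x)‖ₑ :=
        enorm_integral_le_lintegral_enorm _
      have c2 : ∫⁻ x, ‖h x * (1 - χ x)‖ₑ ≤ ∫⁻ x in {x | χ x ≠ 1}, ‖h x‖ₑ := by
        rw [← lintegral_indicator hms]
        refine lintegral_mono fun x => ?_
        by_cases hx : χ x = 1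
        · simp [hx]
        · rw [indicator_of_mem (show x ∈ {x | χ x ≠ 1} from hx)]
          rw [enorm_mul]
          refine mul_le_of_le_one_right' ?_
          rw [Real.enorm_eq_ofReal_abs, abs_of_nonneg (by linarith [(hχ2 x).2])]
          refine le_trans (ENNReal.ofReal_le_ofReal (show 1 - χ x ≤ 1 by linarith [(hχ2 x).1])) ?_
          simp
      have c3 : volume {x | χ x ≠ 1} < δ := by
        refine lt_of_le_of_lt hχ6 (lt_of_le_of_lt ?_ hδ')
        exact ENNReal.ofReal_le_ofReal (min_le_left _ _)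
      have c4 := lt_of_le_of_lt (le_trans c1 c2) (hδ2 _ c3)
      rw [Real.enorm_eq_ofReal_abs] at c4
      exact (ENNReal.ofReal_lt_ofReal_iff (by linarith)).mp c4 |>.le
    have b2 : |∫ x, ψ x * (∑ i, T i x * pd i χ x)| ≤ ε / 2 := by
      have c1 : |∫ x, ψ x * (∑ i, T i x * pd i χ x)| ≤ ∫ x, |B| * ‖fderiv ℝ χ x‖ := by
        rw [← Real.norm_eq_abs]
        refine norm_integral_le_of_norm_le (hχ4.const_mul _) ?_
        filter_upwards [hvae] with x hxK
        by_cases hx : x ∈ tsupport ψ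
        · rw [Real.norm_eq_abs, abs_mul]
          have d1 : |∑ i, T i x * pd i χ x| ≤ (∑ _i : Fin (q + 5), |b x|) * ‖fderiv ℝ χ x‖ := by
            refine le_trans (Finset.abs_sum_le_sum_abs _ _) ?_
            rw [Finset.sum_mul]
            refine Finset.sum_le_sum fun i _ => ?_
            rw [abs_mul]
            exact mul_le_mul ((hM i x ⟨hψ3 hx, hxK⟩).trans (le_abs_self _)) (wbv_pd_le i χ x)
              (abs_nonneg _) (abs_nonneg _)
          calc |ψ x| * |∑ i, T i x * pd i χ x|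
              ≤ |ψ x| * ((∑ _i : Fin (q + 5), |b x|) * ‖fderiv ℝ χ x‖) :=
                mul_le_mul_of_nonneg_left d1 (abs_nonneg _)
            _ = (|ψ x| * ∑ _i : Fin (q + 5), |b x|) * ‖fderiv ℝ χ x‖ := by ring
            _ ≤ |B| * ‖fderiv ℝ χ x‖ :=
                mul_le_mul_of_nonneg_right (hB' x hx) (norm_nonneg _)
        · rw [image_eq_zero_of_notMem_tsupport hx, zero_mul, norm_zero]
          positivity
      rw [integral_const_mul] at c1
      refine le_trans c1 ?_
      have d2 : ∫ x, ‖fderiv ℝ χ x‖ ≤ ε / (2 * (|B| + 1)) := le_trans hχ5 (min_le_right _ _)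
      have d3 : 0 ≤ |B| := by positivity
      calc |B| * ∫ x, ‖fderiv ℝ χ x‖ ≤ |B| * (ε / (2 * (|B| + 1))) :=
            mul_le_mul_of_nonneg_left d2 d3
        _ ≤ (|B| + 1) * (ε / (2 * (|B| + 1))) :=
            mul_le_mul_of_nonneg_right (by linarith) hD.le
        _ = ε / 2 := by
            field_simp
    rw [e1]
    have t1 := abs_sub (∫ x, h x * (1 - χ x)) (∫ x, ψ x * (∑ i, T i x * pd i χ x))
    linarith
  have h5 : |∫ x, h x| ≤ 0 := le_of_forall_pos_le_add fun ε hε => by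
    have := key ε hε
    linarith
  exact abs_eq_zero.mp (le_antisymm h5 (abs_nonneg _))
-- END wbv

-- BEGIN cvi
private theorem cvi_pdU {q : ℕ} (U : Set (E q)) (hU : IsOpen U) (i : Fin (q + 5)) (f : (E q) → ℝ)
    (hf : ContDiffOn ℝ 1 f U) : ContinuousOn (pd i f) U := by
  have h := hf.continuousOn_fderiv_of_isOpen hU le_rfl
  exact h.clm_apply continuousOn_const

private theorem cvi_mul {q : ℕ} (Q V : (E q) → ℝ) (x : E q) (hQ : DifferentiableAt ℝ Q x)
    (hV : DifferentiableAt ℝ V x) (i : Fin (q + 5)) :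
    pd i (fun y => Q y * V y) x = Q x * pd i V x + V x * pd i Q x := by
  have h := (hQ.hasFDerivAt.mul hV.hasFDerivAt).fderiv
  have h' : fderiv ℝ (fun y => Q y * V y) x
      = Q x • fderiv ℝ V x + V x • fderiv ℝ Q x := h
  unfold pd
  rw [h']
  simp [smul_eq_mul]

/-- `F i = closure {x ∈ U \ K | ∀ k, T k x = Q x * W i k x}` and `(U \ K)ᶜ` are closed sets which cover the Baire space `E q`: `dense_iUnion_interior_of_closed` (index `Option ι`). So near every `x ∈ U \ K` there are points `y` in the interior of `F i ∩ (U \ K)` for some `i`, where `T k = Q * W i k` near `y` (closed in `U \ K` by continuity), hence `0 = ∑ k, W i k * pd k Q + Q * ∑ k, pd k (W i k)` and `∑ k, T k * pd k Q = -Q ^ 2 * ∑ k, pd k (W i k)` at `y`. Both sides of the claim are continuous on `U \ K`. -/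
theorem cover_ineq {q : ℕ} {ι : Type} [Fintype ι] (U K : Set (E q)) (hU : IsOpen U)
    (hK : IsOpen (U \ K)) (Q : (E q) → ℝ) (hQ : ContDiffOn ℝ 1 Q (U \ K))
    (T : Fin (q + 5) → (E q) → ℝ) (hT : ∀ k, ContDiffOn ℝ 1 (T k) (U \ K))
    (hdiv : ∀ x ∈ U \ K, ∑ k, pd k (T k) x = 0)
    (W : ι → Fin (q + 5) → (E q) → ℝ) (hW : ∀ i k, ContDiffOn ℝ 1 (W i k) U)
    (hc : ∀ x ∈ U \ K, ∃ i, ∀ k, T k x = Q x * W i k x) :
    ∀ x ∈ U \ K, |∑ k, T k x * pd k Q x| ≤ Q x ^ 2 * ∑ i, |∑ k, pd k (W i k) x| := by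
  have hUK : U \ K ⊆ U := sdiff_subset
  have hc1 : ContinuousOn (fun x => |∑ k, T k x * pd k Q x|) (U \ K) := by
    refine ContinuousOn.abs (continuousOn_finsetSum _ fun k _ => ?_)
    exact (hT k).continuousOn.mul (cvi_pdU (U \ K) hK k Q hQ)
  have hc2 : ContinuousOn (fun x => Q x ^ 2 * ∑ i, |∑ k, pd k (W i k) x|) (U \ K) := by
    refine (hQ.continuousOn.pow 2).mul (continuousOn_finsetSum _ fun i _ => ?_)
    refine ContinuousOn.abs (continuousOn_finsetSum _ fun k _ => ?_)
    exact (cvi_pdU U hU k (W i k) (hW i k)).mono hUK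
  intro x0 hx0
  by_contra hlt
  rw [not_le] at hlt
  obtain ⟨V, hVo, hVU, hxV, hV⟩ : ∃ V : Set (E q), IsOpen V ∧ V ⊆ U \ K ∧ x0 ∈ V ∧
      ∀ x ∈ V, Q x ^ 2 * ∑ i, |∑ k, pd k (W i k) x| < |∑ k, T k x * pd k Q x| := by
    have h1 : ContinuousOn (fun x => |∑ k, T k x * pd k Q x| -
        Q x ^ 2 * ∑ i, |∑ k, pd k (W i k) x|) (U \ K) := hc1.sub hc2
    refine ⟨(U \ K) ∩ (fun x => |∑ k, T k x * pd k Q x| -
        Q x ^ 2 * ∑ i, |∑ k, pd k (W i k) x|) ⁻¹' Ioi 0,
      h1.isOpen_inter_preimage hK isOpen_Ioi, inter_subset_left, ⟨hx0, ?_⟩, ?_⟩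
    · exact sub_pos.mpr hlt
    · intro x hx
      exact sub_pos.mp hx.2
  have hden : Dense (⋃ s : Option ι, interior (match s with
      | none => Vᶜ
      | some i => closure {x | x ∈ V ∧ ∀ k, T k x = Q x * W i k x})) := by
    refine dense_iUnion_interior_of_closed ?_ ?_
    · rintro (_ | i)
      · exact hVo.isClosed_compl
      · exact isClosed_closure
    · rw [eq_univ_iff_forall]
      intro x
      by_cases hx : x ∈ V
      · obtain ⟨i, hi⟩ := hc x (hVU hx)
        exact mem_iUnion.mpr ⟨some i, subset_closure ⟨hx, hi⟩⟩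
      · exact mem_iUnion.mpr ⟨none, hx⟩
  obtain ⟨y, hyV, hy⟩ := hden.inter_open_nonempty V hVo ⟨x0, hxV⟩
  obtain ⟨s, hs⟩ := mem_iUnion.mp hy
  rcases s with _ | i
  · exact interior_subset hs hyV
  · have hs' : y ∈ interior (closure {x | x ∈ V ∧ ∀ k, T k x = Q x * W i k x}) := hs
    have hNo : IsOpen (interior (closure {x | x ∈ V ∧ ∀ k, T k x = Q x * W i k x}) ∩ V) :=
      isOpen_interior.inter hVo
    have hN : ∀ z ∈ interior (closure {x | x ∈ V ∧ ∀ k, T k x = Q x * W i k x}) ∩ V,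
        ∀ k, T k z = Q z * W i k z := by
      rintro z ⟨hz1, hz2⟩ k
      by_contra hne
      have hzU : z ∈ U \ K := hVU hz2
      have hcz : ContinuousAt (fun x => T k x - Q x * W i k x) z := by
        have h1 : ContinuousOn (fun x => T k x - Q x * W i k x) (U \ K) :=
          (hT k).continuousOn.sub (hQ.continuousOn.mul ((hW i k).continuousOn.mono hUK))
        exact h1.continuousAt (hK.mem_nhds hzU)
      have hev := hcz.eventually_ne (sub_ne_zero.mpr hne)
      obtain ⟨w, hw1, hw2⟩ := mem_closure_iff_nhds.mp (interior_subset hz1) _ hev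
      exact hw1 (sub_eq_zero.mpr (hw2.2 k))
    have hyU : y ∈ U \ K := hVU hyV
    have hQd : DifferentiableAt ℝ Q y :=
      (hQ.contDiffAt (hK.mem_nhds hyU)).differentiableAt one_ne_zero
    have hWd : ∀ k, DifferentiableAt ℝ (W i k) y := fun k =>
      ((hW i k).contDiffAt (hU.mem_nhds (hUK hyU))).differentiableAt one_ne_zero
    have hpd : ∀ k, pd k (T k) y = Q y * pd k (W i k) y + W i k y * pd k Q y := by
      intro k
      have he : T k =ᶠ[𝓝 y] fun x => Q x * W i k x := by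
        filter_upwards [hNo.mem_nhds ⟨hs', hyV⟩] with z hz
        exact hN z hz k
      have h1 : pd k (T k) y = pd k (fun x => Q x * W i k x) y := by
        unfold pd
        rw [he.fderiv_eq]
      rw [h1]
      exact cvi_mul Q (W i k) y hQd (hWd k) k
    have h0 := hdiv y hyU
    rw [Finset.sum_congr rfl fun k _ => hpd k, Finset.sum_add_distrib, ← Finset.mul_sum] at h0
    have h2 : ∑ k, T k y * pd k Q y = -(Q y ^ 2 * ∑ k, pd k (W i k) y) := by
      have h3 : ∑ k, T k y * pd k Q y = Q y * ∑ k, W i k y * pd k Q y := by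
        rw [Finset.mul_sum]
        refine Finset.sum_congr rfl fun k _ => ?_
        rw [hN y ⟨hs', hyV⟩ k]
        ring
      rw [h3]
      linear_combination Q y * h0
    have h4 := hV y hyV
    rw [h2, abs_neg, abs_mul, abs_of_nonneg (sq_nonneg (Q y))] at h4
    have h5 : |∑ k, pd k (W i k) y| ≤ ∑ j, |∑ k, pd k (W j k) y| :=
      Finset.single_le_sum (f := fun j => |∑ k, pd k (W j k) y|)
        (fun j _ => abs_nonneg _) (Finset.mem_univ i)
    have h6 : Q y ^ 2 * |∑ k, pd k (W i k) y| ≤ Q y ^ 2 * ∑ j, |∑ k, pd k (W j k) y| :=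
      mul_le_mul_of_nonneg_left h5 (sq_nonneg _)
    linarith
-- END cvi

-- BEGIN ctf
/-- With `t = s / N`: `|s| / (1 + t ^ 2) = N |t| / (1 + t ^ 2) ≤ N`, `|dct N s| * s ^ 2 = |s| * (2 t ^ 2 / (1 + t ^ 2) ^ 2) ≤ |s|`; the limits are elementary. -/
theorem ct_facts (s : ℝ) :
    (∀ N : ℝ, 0 < N → 0 < ct N s ∧ ct N s ≤ 1 ∧ |s| * ct N s ≤ N ∧ |dct N s| * s ^ 2 ≤ |s|) ∧
      Tendsto (fun k : ℕ => ct ((k : ℝ) + 1) s) atTop (𝓝 1) ∧
      Tendsto (fun k : ℕ => dct ((k : ℝ) + 1) s) atTop (𝓝 0) := by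
  have hinv : Tendsto (fun k : ℕ => 1 / ((k : ℝ) + 1)) atTop (𝓝 0) :=
    tendsto_one_div_add_atTop_nhds_zero_nat (𝕜 := ℝ)
  have h1 : Tendsto (fun k : ℕ => s / ((k : ℝ) + 1)) atTop (𝓝 0) := by
    have h := hinv.const_mul s
    rw [mul_zero] at h
    refine h.congr fun k => ?_
    rw [mul_one_div]
  have h2 : Tendsto (fun k : ℕ => 1 + (s / ((k : ℝ) + 1)) ^ 2) atTop (𝓝 1) := by
    have h := (h1.pow 2).const_add 1
    simpa using h
  refine ⟨fun N hN => ?_, ?_, ?_⟩
  · have hp : 0 < 1 + (s / N) ^ 2 := by positivity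
    refine ⟨by unfold ct; positivity, ?_, ?_, ?_⟩
    · unfold ct
      rw [div_le_one hp]
      have := sq_nonneg (s / N)
      linarith
    · unfold ct
      rw [mul_one_div, div_le_iff₀ hp]
      have h3 : N * (1 + (s / N) ^ 2) = N + |s| ^ 2 / N := by
        rw [sq_abs]
        field_simp
      rw [h3, ← sub_nonneg]
      have h4 : N + |s| ^ 2 / N - |s| = ((N - |s|) ^ 2 + N * |s|) / N := by
        field_simp
        ring
      rw [h4]
      positivity
    · have h5 : |dct N s| * s ^ 2 = |s| * (2 * (s / N) ^ 2 / (1 + (s / N) ^ 2) ^ 2) := by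
        unfold dct
        rw [abs_div, abs_neg, abs_div, abs_mul, abs_of_pos (by positivity : (0 : ℝ) < N ^ 2),
          abs_of_pos (by positivity : (0 : ℝ) < (1 + (s / N) ^ 2) ^ 2), abs_of_pos (by norm_num : (0 : ℝ) < 2)]
        field_simp
      rw [h5]
      refine mul_le_of_le_one_right (abs_nonneg s) ?_
      rw [div_le_one (by positivity)]
      nlinarith [sq_nonneg (s / N), sq_nonneg ((s / N) ^ 2)]
  · have h3 := (tendsto_const_nhds (x := (1 : ℝ))).div h2 one_ne_zero
    rw [div_one] at h3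
    exact h3
  · have h3 : Tendsto (fun k : ℕ => -(2 * (s / ((k : ℝ) + 1)) * (1 / ((k : ℝ) + 1))) /
        (1 + (s / ((k : ℝ) + 1)) ^ 2) ^ 2) atTop (𝓝 (-(2 * 0 * 0) / 1 ^ 2)) :=
      (((h1.const_mul 2).mul hinv).neg).div (h2.pow 2) (by norm_num)
    have h4 : (-(2 * 0 * 0) / 1 ^ 2 : ℝ) = 0 := by norm_num
    rw [h4] at h3
    refine h3.congr fun k => ?_
    unfold dct
    congr 2
    have h5 : (k : ℝ) + 1 ≠ 0 := by positivity
    field_simp
-- END ctf

-- BEGIN ctd
/-- `ct N` is smooth with derivative `dct N` (`HasDerivAt`); product and chain rule: `∑ k, (dct N (Q x) * pd k Q x * T k x + ct N (Q x) * pd k (T k) x)`. -/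
theorem ct_div {q : ℕ} (N : ℝ) (hN : 0 < N) (Q : (E q) → ℝ) (T : Fin (q + 5) → (E q) → ℝ) (x : E q)
    (hQ : DifferentiableAt ℝ Q x) (hT : ∀ k, DifferentiableAt ℝ (T k) x)
    (hdiv : ∑ k, pd k (T k) x = 0) :
    ∑ k, pd k (fun y => ct N (Q y) * T k y) x =
      dct N (Q x) * ∑ k, T k x * pd k Q x := by
  have hN0 : N ≠ 0 := hN.ne'
  have hpos : (1 + (Q x / N) ^ 2) ≠ 0 := by positivity
  have ha : HasFDerivAt (fun y => ct N (Q y)) (dct N (Q x) • fderiv ℝ Q x) x := by
    have h2 : HasDerivAt (fun t : ℝ => ct N t) (dct N (Q x)) (Q x) := by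
      have h3 : HasDerivAt (fun t : ℝ => 1 + (t / N) ^ 2) (2 * (Q x / N) * (1 / N)) (Q x) := by
        have h4 := (((hasDerivAt_id (Q x)).div_const N).pow 2).const_add 1
        refine h4.congr_deriv ?_
        simp only [id_eq]
        norm_num
      have h5 := h3.inv hpos
      have h6 : (fun t : ℝ => ct N t) = (fun t : ℝ => 1 + (t / N) ^ 2)⁻¹ := by
        funext t
        unfold ct
        rw [one_div]
        rfl
      rw [h6]
      refine h5.congr_deriv ?_
      unfold dct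
      congr 2
      field_simp
    exact h2.comp_hasFDerivAt x hQ.hasFDerivAt
  have h2 : ∀ k, pd k (fun y => ct N (Q y) * T k y) x =
      ct N (Q x) * pd k (T k) x + T k x * (dct N (Q x) * pd k Q x) := by
    intro k
    have h := (ha.mul (hT k).hasFDerivAt).fderiv
    have h' : fderiv ℝ (fun y => ct N (Q y) * T k y) x
        = ct N (Q x) • fderiv ℝ (T k) x + T k x • (dct N (Q x) • fderiv ℝ Q x) := h
    unfold pd
    rw [h']
    simp [smul_eq_mul]
  rw [Finset.sum_congr rfl fun k _ => h2 k, Finset.sum_add_distrib, ← Finset.mul_sum, hdiv,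
    mul_zero, zero_add, Finset.mul_sum]
  exact Finset.sum_congr rfl fun k _ => by ring
-- END ctd

-- BEGIN rcv
private theorem rcv_li {q : ℕ} (U K : Set (E q)) (hK : IsOpen (U \ K)) (hv : volume K = 0)
    (f u : (E q) → ℝ) (hf : LocallyIntegrableOn f U) (hu : ContinuousOn u (U \ K))
    (h : ∀ x, |u x| ≤ |f x|) : LocallyIntegrableOn u U := by
  intro x hx
  obtain ⟨t, ht, hft⟩ := hf x hx
  refine ⟨t ∩ U, inter_mem ht self_mem_nhdsWithin, ?_⟩
  have hft' : IntegrableOn f (t ∩ U) := hft.mono_set inter_subset_left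
  have hm : AEStronglyMeasurable u (volume.restrict (t ∩ U)) :=
    (meas_of_cont U K hK hv u hu).mono_measure (Measure.restrict_mono_set _ inter_subset_right)
  exact Integrable.mono hft' hm (Eventually.of_forall fun y => h y)

private theorem rcv_pd {q : ℕ} (i : Fin (q + 5)) (ψ : (E q) → ℝ) (hψ : ContDiff ℝ ∞ ψ) : Continuous (pd i ψ) := by
  have h := hψ.continuous_fderiv (by simp)
  exact h.clm_apply continuous_const

private theorem rcv_pdU {q : ℕ} (U : Set (E q)) (hU : IsOpen U) (i : Fin (q + 5)) (f : (E q) → ℝ)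
    (hf : ContDiffOn ℝ 1 f U) : ContinuousOn (pd i f) U := by
  have h := hf.continuousOn_fderiv_of_isOpen hU le_rfl
  exact h.clm_apply continuousOn_const

/-- The proof of `Oad.removable`: for `N = j + 1` row wbv for `T^N k = ct N Q * T k`, `b = N * ∑ i, ∑ k, |W i k|`, `w = dct N Q * ∑ k, T k * pd k Q` on `U \ K` (`0` elsewhere), `|w| ≤ |Q| * ∑ i, |∑ k, pd k (W i k)|` (rows cvi, ctf), rows ctf, ctd; `w` is continuous on `U \ K`, `Q` times a continuous function is locally integrable on `U`. Dominated convergence `j → ∞`: the integrand tends to `∑ k, T k * pd k ψ` and is bounded by `|Q| * (∑ i, ∑ k, |W i k| * |pd k ψ| + |ψ| * ∑ i, |∑ k, pd k (W i k)|)` off the null set `K`. -/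
theorem removable_cover {q : ℕ} {ι : Type} [Fintype ι] (U K : Set (E q)) (hU : IsOpen U)
    (hK : IsOpen (U \ K)) (h0 : μH[(q : ℝ) + 4] K = 0)
    (Q : (E q) → ℝ) (hQ : ContDiffOn ℝ 1 Q (U \ K)) (hQi : LocallyIntegrableOn Q U)
    (T : Fin (q + 5) → (E q) → ℝ) (hT : ∀ k, ContDiffOn ℝ 1 (T k) (U \ K))
    (hdiv : ∀ x ∈ U \ K, ∑ k, pd k (T k) x = 0)
    (W : ι → Fin (q + 5) → (E q) → ℝ) (hW : ∀ i k, ContDiffOn ℝ 1 (W i k) U)
    (hc : ∀ x ∈ U \ K, ∃ i, ∀ k, T k x = Q x * W i k x)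
    (ψ : (E q) → ℝ) (hψ : IsTestF U ψ) :
    ∫ x, ∑ k, T k x * pd k ψ x = 0 := by
  classical
  have hv := vol_zero K h0
  have hQc : ContinuousOn Q (U \ K) := hQ.continuousOn
  have hS : IsCompact (tsupport ψ) := hψ.2.1
  have hψ0 : ∀ x, x ∉ tsupport ψ → ψ x = 0 := fun x hx => image_eq_zero_of_notMem_tsupport hx
  have hpd0 : ∀ k x, x ∉ tsupport ψ → pd k ψ x = 0 := by
    intro k x hx
    show fderiv ℝ ψ x (bv k) = 0
    rw [fderiv_of_notMem_tsupport (𝕜 := ℝ) hx]
    rfl
  -- the auxiliary functions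
  obtain ⟨D, hD⟩ : ∃ D : (E q) → ℝ, ∀ x, D x = ∑ i, |∑ k, pd k (W i k) x| := ⟨_, fun _ => rfl⟩
  obtain ⟨B, hB⟩ : ∃ B : (E q) → ℝ, ∀ x, B x = ∑ i, ∑ k, |W i k x| := ⟨_, fun _ => rfl⟩
  obtain ⟨A, hA⟩ : ∃ A : (E q) → ℝ, ∀ x, A x = ∑ k, B x * |pd k ψ x| := ⟨_, fun _ => rfl⟩
  obtain ⟨G, hG⟩ : ∃ G : (E q) → ℝ, ∀ x, G x = ∑ k, T k x * pd k Q x := ⟨_, fun _ => rfl⟩
  have hDc : ContinuousOn D U := by
    have h1 : ContinuousOn (fun x => ∑ i, |∑ k, pd k (W i k) x|) U :=
      continuousOn_finsetSum _ fun i _ =>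
        (continuousOn_finsetSum _ fun k _ => rcv_pdU U hU k (W i k) (hW i k)).abs
    exact h1.congr fun x _ => hD x
  have hBc : ContinuousOn B U := by
    have h1 : ContinuousOn (fun x => ∑ i, ∑ k, |W i k x|) U :=
      continuousOn_finsetSum _ fun i _ => continuousOn_finsetSum _ fun k _ => (hW i k).continuousOn.abs
    exact h1.congr fun x _ => hB x
  have hAc : ContinuousOn A U := by
    have h1 : ContinuousOn (fun x => ∑ k, B x * |pd k ψ x|) U :=
      continuousOn_finsetSum _ fun k _ => hBc.mul (rcv_pd k ψ hψ.1).continuousOn.abs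
    exact h1.congr fun x _ => hA x
  have hGc : ContinuousOn G (U \ K) := by
    have h1 : ContinuousOn (fun x => ∑ k, T k x * pd k Q x) (U \ K) :=
      continuousOn_finsetSum _ fun k _ => (hT k).continuousOn.mul (rcv_pdU _ hK k Q hQ)
    exact h1.congr fun x _ => hG x
  have hD0 : ∀ x, 0 ≤ D x := fun x => by
    rw [hD]
    exact Finset.sum_nonneg fun i _ => abs_nonneg _
  have hB0 : ∀ x, 0 ≤ B x := fun x => by
    rw [hB]
    exact Finset.sum_nonneg fun i _ => Finset.sum_nonneg fun k _ => abs_nonneg _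
  have hA0 : ∀ x, x ∉ tsupport ψ → A x = 0 := by
    intro x hx
    rw [hA]
    exact Finset.sum_eq_zero fun k _ => by rw [hpd0 k x hx, abs_zero, mul_zero]
  have hTB : ∀ x ∈ U \ K, ∀ k, |T k x| ≤ |Q x| * B x := by
    intro x hx k
    obtain ⟨i, hi⟩ := hc x hx
    rw [hi k, abs_mul]
    refine mul_le_mul_of_nonneg_left ?_ (abs_nonneg _)
    rw [hB]
    calc |W i k x| ≤ ∑ k, |W i k x| :=
          Finset.single_le_sum (f := fun k => |W i k x|) (fun k _ => abs_nonneg _) (Finset.mem_univ k)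
      _ ≤ ∑ i, ∑ k, |W i k x| :=
          Finset.single_le_sum (f := fun i => ∑ k, |W i k x|)
            (fun i _ => Finset.sum_nonneg fun k _ => abs_nonneg _) (Finset.mem_univ i)
  have hGD : ∀ x ∈ U \ K, |G x| ≤ Q x ^ 2 * D x := by
    intro x hx
    rw [hG, hD]
    exact cover_ineq U K hU hK Q hQ T hT hdiv W hW hc x hx
  -- the cut off fields
  obtain ⟨TN, hTN⟩ : ∃ TN : ℝ → Fin (q + 5) → (E q) → ℝ, TN = fun N k x => ct N (Q x) * T k x := ⟨_, rfl⟩
  obtain ⟨wN, hwN⟩ : ∃ wN : ℝ → (E q) → ℝ, wN = fun N x => if x ∈ U \ K then dct N (Q x) * G x else 0 :=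
    ⟨_, rfl⟩
  have hwin : ∀ N, ∀ x ∈ U \ K, wN N x = dct N (Q x) * G x := fun N x hx => by
    rw [hwN]
    exact if_pos hx
  have hwout : ∀ N, ∀ x, x ∉ U \ K → wN N x = 0 := fun N x hx => by
    rw [hwN]
    exact if_neg hx
  have hTNe : ∀ N k x, TN N k x = ct N (Q x) * T k x := fun N k x => by rw [hTN]
  have hct : ∀ N, ContDiffOn ℝ 1 (fun x => ct N (Q x)) (U \ K) := by
    intro N
    exact contDiffOn_const.div (contDiffOn_const.add ((hQ.div_const N).pow 2)) fun x _ => by positivity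
  have hTNc : ∀ N k, ContDiffOn ℝ 1 (TN N k) (U \ K) := by
    intro N k
    rw [hTN]
    exact (hct N).mul (hT k)
  have hwc : ∀ N, ContinuousOn (wN N) (U \ K) := by
    intro N
    have h1 : ContinuousOn (fun x => dct N (Q x) * G x) (U \ K) := by
      refine ContinuousOn.mul ?_ hGc
      exact (((continuousOn_const.mul hQc).div_const _).neg).div
        ((continuousOn_const.add ((hQc.div_const N).pow 2)).pow 2) fun x _ => by positivity
    exact h1.congr fun x hx => hwin N x hx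
  have hwb : ∀ N : ℝ, 0 < N → ∀ x, |wN N x| ≤ |Q x * D x| := by
    intro N hN x
    by_cases hx : x ∈ U \ K
    · rw [hwin N x hx, abs_mul, abs_mul, abs_of_nonneg (hD0 x)]
      calc |dct N (Q x)| * |G x| ≤ |dct N (Q x)| * (Q x ^ 2 * D x) :=
            mul_le_mul_of_nonneg_left (hGD x hx) (abs_nonneg _)
        _ = (|dct N (Q x)| * Q x ^ 2) * D x := by ring
        _ ≤ |Q x| * D x := mul_le_mul_of_nonneg_right ((ct_facts (Q x)).1 N hN).2.2.2 (hD0 x)
    · rw [hwout N x hx, abs_zero]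
      exact abs_nonneg _
  have hQD : LocallyIntegrableOn (fun x => Q x * D x) U := hQi.mul_continuousOn hDc hU.isLocallyClosed
  have hzero : ∀ N : ℝ, 0 < N → ∫ x, ((∑ k, TN N k x * pd k ψ x) + ψ x * wN N x) = 0 := by
    intro N hN
    refine weak_boundedv U K hU hK h0 (TN N) (hTNc N) (fun x => N * B x) (continuousOn_const.mul hBc)
      ?_ (wN N) ?_ (rcv_li U K hK hv _ _ hQD (hwc N) (hwb N hN)) ψ hψ
    · intro k x hx
      obtain ⟨h1, h2, h3, -⟩ := (ct_facts (Q x)).1 N hN
      rw [hTNe, abs_mul, abs_of_pos h1]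
      calc ct N (Q x) * |T k x| ≤ ct N (Q x) * (|Q x| * B x) :=
            mul_le_mul_of_nonneg_left (hTB x hx k) h1.le
        _ = (|Q x| * ct N (Q x)) * B x := by ring
        _ ≤ N * B x := mul_le_mul_of_nonneg_right h3 (hB0 x)
    · intro x hx
      rw [hwin N x hx, hG, hTN]
      exact ct_div N hN Q T x ((hQ.contDiffAt (hK.mem_nhds hx)).differentiableAt one_ne_zero)
        (fun k => ((hT k).contDiffAt (hK.mem_nhds hx)).differentiableAt one_ne_zero) (hdiv x hx)
  have hNk : ∀ k : ℕ, (0 : ℝ) < (k : ℝ) + 1 := fun k => by positivity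
  have hQA : Integrable (fun x => Q x * A x) :=
    integrable_test U Q hQi A hAc (tsupport ψ) hS hψ.2.2 hA0
  have hQψD : Integrable (fun x => Q x * (ψ x * D x)) :=
    integrable_test U Q hQi (fun x => ψ x * D x) (hψ.1.continuous.continuousOn.mul hDc) (tsupport ψ)
      hS hψ.2.2 fun x hx => by
        show ψ x * D x = 0
        rw [hψ0 x hx, zero_mul]
  have hout : ∀ N x, x ∉ tsupport ψ → (∑ k, TN N k x * pd k ψ x) + ψ x * wN N x = 0 := by
    intro N x hx
    rw [hψ0 x hx, zero_mul, add_zero]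
    exact Finset.sum_eq_zero fun k _ => by rw [hpd0 k x hx, mul_zero]
  have hKae : ∀ᵐ x ∂(volume : Measure (E q)), x ∉ K := measure_eq_zero_iff_ae_notMem.1 hv
  have hFm : ∀ N, AEStronglyMeasurable (fun x => (∑ k, TN N k x * pd k ψ x) + ψ x * wN N x)
      (volume : Measure (E q)) := by
    intro N
    have h1 : ContinuousOn (fun x => (∑ k, TN N k x * pd k ψ x) + ψ x * wN N x) (U \ K) :=
      (continuousOn_finsetSum _ fun k _ =>
        (hTNc N k).continuousOn.mul (rcv_pd k ψ hψ.1).continuousOn).add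
        (hψ.1.continuous.continuousOn.mul (hwc N))
    have h2 : AEStronglyMeasurable ((U \ K).indicator
        fun x => (∑ k, TN N k x * pd k ψ x) + ψ x * wN N x) (volume : Measure (E q)) :=
      (aestronglyMeasurable_indicator_iff hK.measurableSet).2 (h1.aestronglyMeasurable hK.measurableSet)
    refine h2.congr ?_
    filter_upwards [hKae] with x hx
    by_cases hxU : x ∈ U
    · rw [indicator_of_mem (show x ∈ U \ K from ⟨hxU, hx⟩)]
    · rw [indicator_of_notMem (fun h => hxU h.1)]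
      exact (hout N x fun h => hxU (hψ.2.2 h)).symm
  have hlim : Tendsto (fun j : ℕ => ∫ x, ((∑ k, TN ((j : ℝ) + 1) k x * pd k ψ x) +
      ψ x * wN ((j : ℝ) + 1) x)) atTop (𝓝 (∫ x, ∑ k, T k x * pd k ψ x)) := by
    refine tendsto_integral_of_dominated_convergence
      (fun x => |Q x * A x| + |Q x * (ψ x * D x)|) (fun j => hFm _)
      (hQA.abs.add hQψD.abs) ?_ ?_
    · intro j
      filter_upwards [hKae] with x hx
      rw [Real.norm_eq_abs]
      by_cases hxU : x ∈ U
      · have hxK : x ∈ U \ K := ⟨hxU, hx⟩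
        obtain ⟨h1, h2, -, -⟩ := (ct_facts (Q x)).1 _ (hNk j)
        refine (abs_add_le _ _).trans (add_le_add ?_ ?_)
        · calc |∑ k, TN ((j : ℝ) + 1) k x * pd k ψ x|
              ≤ ∑ k, |TN ((j : ℝ) + 1) k x * pd k ψ x| := Finset.abs_sum_le_sum_abs _ _
            _ ≤ ∑ k, |Q x| * (B x * |pd k ψ x|) := by
              refine Finset.sum_le_sum fun k _ => ?_
              rw [hTNe, abs_mul, abs_mul, abs_of_pos h1, ← mul_assoc]
              refine mul_le_mul_of_nonneg_right ?_ (abs_nonneg _)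
              calc ct ((j : ℝ) + 1) (Q x) * |T k x| ≤ 1 * |T k x| :=
                    mul_le_mul_of_nonneg_right h2 (abs_nonneg _)
                _ ≤ |Q x| * B x := by
                  rw [one_mul]
                  exact hTB x hxK k
            _ = |Q x * A x| := by
              rw [← Finset.mul_sum, ← hA, abs_mul]
              congr 1
              refine (abs_of_nonneg ?_).symm
              rw [hA]
              exact Finset.sum_nonneg fun k _ => mul_nonneg (hB0 x) (abs_nonneg _)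
        · calc |ψ x * wN ((j : ℝ) + 1) x| = |ψ x| * |wN ((j : ℝ) + 1) x| := abs_mul _ _
            _ ≤ |ψ x| * |Q x * D x| := mul_le_mul_of_nonneg_left (hwb _ (hNk j) x) (abs_nonneg _)
            _ = |Q x * (ψ x * D x)| := by
              rw [← abs_mul]
              congr 1
              ring
      · rw [hout _ x fun h => hxU (hψ.2.2 h), abs_zero]
        positivity
    · refine Eventually.of_forall fun x => ?_
      have h1 : Tendsto (fun j : ℕ => ct ((j : ℝ) + 1) (Q x)) atTop (𝓝 1) := (ct_facts (Q x)).2.1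
      have h2 : Tendsto (fun j : ℕ => dct ((j : ℝ) + 1) (Q x)) atTop (𝓝 0) := (ct_facts (Q x)).2.2
      have h3 : Tendsto (fun j : ℕ => wN ((j : ℝ) + 1) x) atTop (𝓝 0) := by
        by_cases hx : x ∈ U \ K
        · have h4 := h2.mul_const (G x)
          rw [zero_mul] at h4
          exact h4.congr fun j => (hwin _ x hx).symm
        · exact tendsto_const_nhds.congr fun j => (hwout _ x hx).symm
      have h5 : Tendsto (fun j : ℕ => ∑ k, TN ((j : ℝ) + 1) k x * pd k ψ x) atTop
          (𝓝 (∑ k, T k x * pd k ψ x)) := by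
        refine tendsto_finsetSum _ fun k _ => ?_
        have h6 := (h1.mul_const (T k x)).mul_const (pd k ψ x)
        rw [one_mul] at h6
        exact h6.congr fun j => by rw [hTNe]
      have h7 := h5.add (h3.const_mul (ψ x))
      rwa [mul_zero, add_zero] at h7
  have hconst : Tendsto (fun j : ℕ => ∫ x, ((∑ k, TN ((j : ℝ) + 1) k x * pd k ψ x) +
      ψ x * wN ((j : ℝ) + 1) x)) atTop (𝓝 0) :=
    tendsto_const_nhds.congr fun j => (hzero _ (hNk j)).symm
  exact tendsto_nhds_unique hlim hconst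
-- END rcv

end Pool.Agent.Oaf
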