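import Pool.Agent.Oae.Defs

/-!
At most one calibrated plane, nondegenerate planes, rank one conditions (definitions)
-/

set_option autoImplicit false

namespace Pool.Agent.Oaf

open MeasureTheory Set Matrix Pool.Agent.Oad Pool.Agent.Oae
open scoped ContDiff

/-- Up to orientation at most one plane is calibrated by `Ω` at `x`: if the orthonormal families `c`
and `c'` (coordinates in the frame `e`) have `Ω(c) = 1` and `Ω(c') = 1`, then every `c' r` is in
the span of `c`. -/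
def AtMostOne {q : ℕ} (e : Fin (q + 5) → E q → E q) (Ω : E q → Form q (q + 1)) (x : E q) :
    Prop :=
  ∀ c c' : Fin (q + 1) → Fin (q + 5) → ℝ,
    (∀ r r', ∑ a, c r a * c r' a = if r = r' then 1 else 0) →
    (∀ r r', ∑ a, c' r a * c' r' a = if r = r' then 1 else 0) →
    Ω x (fun r => ∑ a, c r a • e a x) = 1 → Ω x (fun r => ∑ a, c' r a • e a x) = 1 →
    ∀ r, ∃ t : Fin (q + 1) → ℝ, ∀ a, c' r a = ∑ k, t k * c k a

/-- Either no 2-form `X ≠ 0` solves `⋆X + Ω ∧ X = 0` at `x`, or `Ω(N) = 1` for the span `N` of the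
first `q + 1` frame vectors and `Ω` is nondegenerate at `N`. -/
def Nd {q : ℕ} (e : Fin (q + 5) → E q → E q) (Ω : E q → Form q (q + 1)) (x : E q) : Prop :=
  (∀ X, Asym X → Eqn (cmp e Ω x) X → X = 0) ∨ (Calib e Ω x ∧ NondegO (cmp e Ω x))

/-- `X ∧ Y = -⟨X, Y⟩ ⋆Θ` for all solutions `X`, `Y` of `⋆X + O ∧ X = 0`; in the dual form
`c ∧ X ∧ Y = -⟨X, Y⟩ ⟨c, Θ⟩ vol` for all `c` -/
def RankOne {q : ℕ} (O Θ : (Fin (q + 1) → Fin (q + 5)) → ℝ) : Prop :=
  ∀ X Y, Asym X → Asym Y → Eqn O X → Eqn O Y → ∀ c : (Fin (q + 1) → Fin (q + 5)) → ℝ,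
    tri c X Y = -(ip X Y * (1 / (Nat.factorial (q + 1) : ℝ) * ∑ b, c b * Θ b))

/-- there are finitely many smooth forms `Θ i` on `U` such that at every point of `U` one of them
has the property `RankOne` -/
def Covered {q : ℕ} (U : Set (E q)) (e : Fin (q + 5) → E q → E q)
    (Ω : E q → Form q (q + 1)) : Prop :=
  ∃ (r : ℕ) (Θ : Fin r → E q → Form q (q + 1)), (∀ i, ContDiffOn ℝ ∞ (Θ i) U) ∧
    ∀ x ∈ U, ∃ i, RankOne (cmp e Ω x) (cmp e (Θ i) x)

end Pool.Agent.Oaf
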