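import Pool.Agent.Oad.Fin
import Pool.Agent.Oae.Fin
import Pool.Agent.Oaf.Ana
import Pool.Agent.Oaf.Defs

/-!
The rank one condition `X ∧ Y = -⟨X, Y⟩ ⋆Θ` for the solutions of `⋆X + O ∧ X = 0`
-/

set_option autoImplicit false

namespace Pool.Agent.Oaf

open MeasureTheory Set Matrix Filter Topology Pool.Agent.Oad Pool.Agent.Oae
open scoped ContDiff

-- BEGIN rmt
private theorem rmt_wd {q : ℕ} {V : Type} [AddCommGroup V] [Module ℝ V] (L : V →ₗ[ℝ] ℝ)
    (O : (Fin (q + 1) → Fin (q + 5)) → ℝ) (X : Fin (q + 5) → Fin (q + 5) → V)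
    (a : Fin (q + 3) → Fin (q + 5)) : L (wd O X a) = wd O (fun i j => L (X i j)) a := by
  unfold wd
  rw [map_smul, map_sum]
  simp only [map_smul]

private theorem rmt_num {f s t r : ℝ} (hf : f ≠ 0)
    (h : 1 / (4 * f) * s = -(1 / 2 * t * (1 / f * r))) : s = -2 * t * r := by
  have h1 : 4 * f * (1 / (4 * f) * s) = s := by
    field_simp
  have h2 : 4 * f * -(1 / 2 * t * (1 / f * r)) = -2 * t * r := by
    field_simp
    ring
  rw [← h1, h, h2]

private theorem rmt_comm {n m : ℕ} (f : Fin n → Fin n → Fin m → Fin m → ℝ) :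
    ∑ i, ∑ j, ∑ l, ∑ k, f i j l k = ∑ l, ∑ k, ∑ i, ∑ j, f i j l k := by
  have h1 : ∀ i, ∑ j, ∑ l, ∑ k, f i j l k = ∑ l, ∑ k, ∑ j, f i j l k := by
    intro i
    rw [Finset.sum_comm]
    exact Finset.sum_congr rfl fun l _ => Finset.sum_comm
  simp only [h1]
  rw [Finset.sum_comm]
  exact Finset.sum_congr rfl fun l _ => Finset.sum_comm

/-- Let `v` be a basis of `V` (`Module.finBasis ℝ V`) and `X^l a b = v.coord l (X a b)`: real solutions (apply `v.coord l` to `h`, as in `mtr_wd` of `Oae.Lin`). `B (X a b) (X c d) = ∑ l, ∑ m, X^l a b * X^m c d * B (v l) (v m)`, so the left side is `∑ l, ∑ m, B (v l) (v m) * (4 * (q + 1)! * tri c X^l X^m)`; use `hR` and `ip X^l X^m = (1 / 2) ∑ i, ∑ j, X^l i j * X^m i j`. -/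
theorem rank_mat {q : ℕ} {V : Type} [AddCommGroup V] [Module ℝ V] [FiniteDimensional ℝ V]
    (B : V →ₗ[ℝ] V →ₗ[ℝ] ℝ)
    (X : Fin (q + 5) → Fin (q + 5) → V) (hX : ∀ i j, X j i = -X i j)
    (O Θ : (Fin (q + 1) → Fin (q + 5)) → ℝ) (hR : RankOne O Θ)
    (h : ∀ s : Equiv.Perm (Fin (q + 5)), sg s • X (s (tl 2)) (s (tl 3)) +
      wd O X (fun r => s (md r)) = 0)
    (c : (Fin (q + 1) → Fin (q + 5)) → ℝ) :
    ∑ s : Equiv.Perm (Fin (q + 5)), sg s * (c (fun r => s (hd r)) *
      B (X (s (tl 0)) (s (tl 1))) (X (s (tl 2)) (s (tl 3)))) =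
      -2 * (∑ i, ∑ j, B (X i j) (X i j)) * ∑ b, c b * Θ b := by
  classical
  let v := Module.finBasis ℝ V
  let Y : Fin (Module.finrank ℝ V) → Fin (q + 5) → Fin (q + 5) → ℝ := fun l a b => v.coord l (X a b)
  have hA : ∀ l, Asym (Y l) := by
    intro l a b
    show v.coord l (X b a) = -v.coord l (X a b)
    rw [hX a b, map_neg]
  have hE : ∀ l, Eqn O (Y l) := by
    intro l s
    have h1 := congrArg (v.coord l) (h s)
    rw [map_add, map_smul, map_zero, rmt_wd] at h1
    exact h1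
  have hB : ∀ a b a' b', B (X a b) (X a' b') =
      ∑ l, ∑ m, B (v l) (v m) * (Y l a b * Y m a' b') := by
    intro a b a' b'
    have h1 : X a b = ∑ l, Y l a b • v l := (v.sum_repr (X a b)).symm
    have h2 : X a' b' = ∑ m, Y m a' b' • v m := (v.sum_repr (X a' b')).symm
    rw [h1, h2, LinearMap.map_sum₂]
    refine Finset.sum_congr rfl fun l _ => ?_
    rw [map_sum]
    refine Finset.sum_congr rfl fun m _ => ?_
    simp only [map_smul, LinearMap.smul_apply, smul_eq_mul]
    ring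
  have key : ∀ l m, ∑ s : Equiv.Perm (Fin (q + 5)), sg s * (c (fun r => s (hd r)) *
      (Y l (s (tl 0)) (s (tl 1)) * Y m (s (tl 2)) (s (tl 3)))) =
      -2 * (∑ i, ∑ j, Y l i j * Y m i j) * ∑ b, c b * Θ b := by
    intro l m
    have h1 := hR (Y l) (Y m) (hA l) (hA m) (hE l) (hE m) c
    unfold tri ip at h1
    have hf : (Nat.factorial (q + 1) : ℝ) ≠ 0 := by positivity
    exact rmt_num hf h1
  have hL : ∑ s : Equiv.Perm (Fin (q + 5)), sg s * (c (fun r => s (hd r)) *
      B (X (s (tl 0)) (s (tl 1))) (X (s (tl 2)) (s (tl 3)))) =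
      ∑ l, ∑ m, B (v l) (v m) * ∑ s : Equiv.Perm (Fin (q + 5)), sg s * (c (fun r => s (hd r)) *
        (Y l (s (tl 0)) (s (tl 1)) * Y m (s (tl 2)) (s (tl 3)))) := by
    have h1 : ∀ s : Equiv.Perm (Fin (q + 5)), sg s * (c (fun r => s (hd r)) *
        B (X (s (tl 0)) (s (tl 1))) (X (s (tl 2)) (s (tl 3)))) =
        ∑ l, ∑ m, B (v l) (v m) * (sg s * (c (fun r => s (hd r)) *
          (Y l (s (tl 0)) (s (tl 1)) * Y m (s (tl 2)) (s (tl 3))))) := by
      intro s
      rw [hB, Finset.mul_sum, Finset.mul_sum]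
      refine Finset.sum_congr rfl fun l _ => ?_
      rw [Finset.mul_sum, Finset.mul_sum]
      refine Finset.sum_congr rfl fun m _ => ?_
      ring
    simp only [h1]
    rw [Finset.sum_comm]
    refine Finset.sum_congr rfl fun l _ => ?_
    rw [Finset.sum_comm]
    refine Finset.sum_congr rfl fun m _ => ?_
    rw [Finset.mul_sum]
  have hRr : ∑ i, ∑ j, B (X i j) (X i j) =
      ∑ l, ∑ m, B (v l) (v m) * ∑ i, ∑ j, Y l i j * Y m i j := by
    simp only [hB]
    rw [rmt_comm (fun i j l m => B (v l) (v m) * (Y l i j * Y m i j))]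
    refine Finset.sum_congr rfl fun l _ => Finset.sum_congr rfl fun m _ => ?_
    rw [Finset.mul_sum]
    refine Finset.sum_congr rfl fun i _ => ?_
    rw [Finset.mul_sum]
  rw [hL, hRr]
  simp only [key]
  generalize ∑ b, c b * Θ b = r
  rw [Finset.mul_sum, Finset.sum_mul]
  refine Finset.sum_congr rfl fun l _ => ?_
  rw [Finset.mul_sum, Finset.sum_mul]
  refine Finset.sum_congr rfl fun m _ => ?_
  ring
-- END rmt

-- BEGIN cwr
private noncomputable def cwr_B (n : ℕ) : Mat n →ₗ[ℝ] Mat n →ₗ[ℝ] ℝ :=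
  LinearMap.mk₂ ℝ (fun X Y => tr2 X Y)
    (fun X X' Y => by
      unfold tr2
      rw [add_mul, Matrix.trace_add, Complex.add_re])
    (fun r X Y => by
      unfold tr2
      rw [smul_mul_assoc, Matrix.trace_smul, Complex.smul_re])
    (fun X Y Y' => by
      unfold tr2
      rw [mul_add, Matrix.trace_add, Complex.add_re])
    (fun r X Y => by
      unfold tr2
      rw [mul_smul_comm, Matrix.trace_smul, Complex.smul_re])

private theorem cwr_anti {n q : ℕ} (e : Fin (q + 5) → E q → E q)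
    (F : E q → Fin (q + 5) → Fin (q + 5) → Mat n) (x : E q)
    (hs : ∀ i j, F x j i = -F x i j) (a b : Fin (q + 5)) : frF e F x b a = -frF e F x a b := by
  unfold frF
  rw [Finset.sum_comm, ← Finset.sum_neg_distrib]
  refine Finset.sum_congr rfl fun i _ => ?_
  rw [← Finset.sum_neg_distrib]
  refine Finset.sum_congr rfl fun j _ => ?_
  rw [hs i j, smul_neg, mul_comm (e b x j) (e a x i)]

/-- The proof of `Oad.cwt_eq` with `rank_mat` in place of `alg_main`. -/
theorem cwt_rank {n q : ℕ} (U : Set (E q)) (e : Fin (q + 5) → E q → E q) (he : IsFrame U e)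
    (Ω Θ' : E q → Form q (q + 1)) (F : E q → Fin (q + 5) → Fin (q + 5) → Mat n) (x : E q)
    (hx : x ∈ U) (hR : RankOne (cmp e Ω x) (cmp e Θ' x))
    (hs : ∀ i j, F x j i = -F x i j) (h : IsASD e Ω F x)
    (c : (Fin (q + 1) → Fin (q + 5)) → ℝ) :
    cwt F c x = Qf e F x * ∑ a, c a * Od e Θ' a x := by
  have hdet : 0 < dt e x := he.2 x hx
  have h1 := frame_sum e F c x
  have h2 := rank_mat (cwr_B n) (frF e F x) (fun a b => cwr_anti e F x hs a b)
    (cmp e Ω x) (cmp e Θ' x) hR h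
    (fun b => ∑ a : Fin (q + 1) → Fin (q + 5), (∏ r, e (b r) x (a r)) * c a)
  have h3 : ∑ s : Equiv.Perm (Fin (q + 5)), sg s *
      ((∑ a : Fin (q + 1) → Fin (q + 5), (∏ r, e (s (hd r)) x (a r)) * c a) *
      tr2 (frF e F x (s (tl 0)) (s (tl 1))) (frF e F x (s (tl 2)) (s (tl 3)))) =
      -2 * (∑ b, ∑ c, tr2 (frF e F x b c) (frF e F x b c)) *
        ∑ b : Fin (q + 1) → Fin (q + 5),
          (∑ a : Fin (q + 1) → Fin (q + 5), (∏ r, e (b r) x (a r)) * c a) *
            Θ' x (fun r => e (b r) x) := h2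
  have hf : ((Nat.factorial (q + 1) : ℕ) : ℝ) ≠ 0 := by
    exact_mod_cast (Nat.factorial_pos (q + 1)).ne'
  have h4 : ∑ b : Fin (q + 1) → Fin (q + 5),
          (∑ a : Fin (q + 1) → Fin (q + 5), (∏ r, e (b r) x (a r)) * c a) *
            Θ' x (fun r => e (b r) x) =
      (Nat.factorial (q + 1) : ℝ) * ∑ a, c a * Od e Θ' a x := by
    have e1 : ∀ a, (Nat.factorial (q + 1) : ℝ) * (c a * Od e Θ' a x) =
        ∑ b : Fin (q + 1) → Fin (q + 5), ((∏ r, e (b r) x (a r)) * c a) *
            Θ' x (fun r => e (b r) x) := by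
      intro a
      unfold Od
      rw [show (Nat.factorial (q + 1) : ℝ) * (c a * ((1 / (Nat.factorial (q + 1) : ℝ)) *
        ∑ b : Fin (q + 1) → Fin (q + 5), (∏ r, e (b r) x (a r)) * Θ' x (fun r => e (b r) x))) =
        c a * ∑ b : Fin (q + 1) → Fin (q + 5), (∏ r, e (b r) x (a r)) *
          Θ' x (fun r => e (b r) x) by field_simp, Finset.mul_sum]
      exact Finset.sum_congr rfl fun b _ => by ring
    rw [Finset.mul_sum]
    simp only [e1, Finset.sum_mul]
    exact Finset.sum_comm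
  rw [h1, h4] at h3
  have h5 : -2 * (∑ b, ∑ c, tr2 (frF e F x b c) (frF e F x b c)) = 4 * qh e F x := by
    unfold qh
    ring
  rw [h5] at h3
  have h6 : dt e x ≠ 0 := hdet.ne'
  unfold Qf
  rw [div_mul_eq_mul_div, eq_div_iff h6]
  have h7 : (4 * (Nat.factorial (q + 1) : ℝ)) * (cwt F c x * dt e x) =
      (4 * (Nat.factorial (q + 1) : ℝ)) * (qh e F x * ∑ a, c a * Od e Θ' a x) := by
    linarith
  exact mul_left_cancel₀ (mul_ne_zero (by norm_num) hf) h7
-- END cwr

-- BEGIN csm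
/-- Near `x ∈ W` take `N, A` from `hF`: for `y ∈ N`, `cwt F c y = cwt (curv A) c y` (row gin, `Oad.gauge`, first part, `F y i j = gᴴ * curv A y i j * g`), which is smooth (row csm of `Oad.Gau`: `curv_smooth`; finite sums of products of entries) and for `c = dJ J k` has `∑ k, pd k = 0` (`Oad.closed`, `Filter.EventuallyEq.fderiv_eq`), exactly as in `Oad.div_zero`. -/
theorem cwt_props {n q : ℕ} (e : Fin (q + 5) → E q → E q) (W : Set (E q))
    (F : E q → Fin (q + 5) → Fin (q + 5) → Mat n) (hF : IsCurvature W F) :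
    (∀ c : (Fin (q + 1) → Fin (q + 5)) → ℝ, ContDiffOn ℝ 1 (cwt F c) W) ∧
      ∀ (J : Fin q → Fin (q + 5)), ∀ x ∈ W, ∑ k, pd k (cwt F (dJ J k)) x = 0 := by
  have hle : (1 : WithTop ℕ∞) ≤ ∞ := by exact_mod_cast le_top
  refine ⟨fun c x hx => ?_, fun J x hx => ?_⟩
  · obtain ⟨N, A, hN, hxN, -, hA, -, hg⟩ := hF x hx
    have hsm : ∀ i j, Sm N (fun y => curv A y i j) := fun i j => curv_smooth A N hN hA i j
    have h1 : ContDiffOn ℝ 1 (cwt (curv A) c) N := by
      have h0 : cwt (curv A) c = fun y => (1 / (4 * (Nat.factorial (q + 1) : ℝ))) *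
          ∑ s : Equiv.Perm (Fin (q + 5)), sg s * (c (fun r => s (hd r)) *
            (∑ a, ∑ b, curv A y (s (tl 0)) (s (tl 1)) a b *
              curv A y (s (tl 2)) (s (tl 3)) b a).re) := by
        funext y
        simp only [cwt, tr2, Matrix.trace, Matrix.mul_apply, Matrix.diag_apply]
      rw [h0]
      refine contDiffOn_const.mul (ContDiffOn.sum fun s _ =>
        contDiffOn_const.mul (contDiffOn_const.mul ?_))
      exact Complex.reCLM.contDiff.comp_contDiffOn (ContDiffOn.sum fun a _ =>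
        ContDiffOn.sum fun b _ =>
          ((hsm (s (tl 0)) (s (tl 1)) a b).mul (hsm (s (tl 2)) (s (tl 3)) b a)).of_le hle)
    have h2 : ContDiffOn ℝ 1 (cwt F c) N := by
      refine h1.congr fun y hy => ?_
      obtain ⟨g, hg1, hg2⟩ := hg y hy
      exact (gauge e F (curv A) y g hg1 hg2).1 c
    exact ((h2 x hxN).contDiffAt (hN.mem_nhds hxN)).contDiffWithinAt
  · obtain ⟨N, A, hN, hxN, -, hA, -, hg⟩ := hF x hx
    have hcl : ∑ k, pd k (cwt (curv A) (dJ J k)) x = 0 :=
      closed A N hN (fun i a b => hA i a b) x hxN J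
    rw [← hcl]
    refine Finset.sum_congr rfl fun k _ => ?_
    have hev : cwt F (dJ J k) =ᶠ[𝓝 x] cwt (curv A) (dJ J k) := by
      filter_upwards [hN.mem_nhds hxN] with y hy
      obtain ⟨g, hg1, hg2⟩ := hg y hy
      exact (gauge e F (curv A) y g hg1 hg2).1 (dJ J k)
    unfold pd
    rw [hev.fderiv_eq]
-- END csm

-- BEGIN wkr
private theorem wkr_loc {q : ℕ} (U K : Set (E q)) (hU : IsOpen U) (hK : IsOpen (U \ K))
    (hv : volume K = 0) (f u : (E q) → ℝ) (hf : LocallyIntegrableOn f U)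
    (hu : ContinuousOn u (U \ K)) (h : ∀ x ∈ U \ K, |u x| ≤ |f x|) :
    LocallyIntegrableOn u U := by
  intro x hx
  obtain ⟨t, ht, hft⟩ := hf x hx
  refine ⟨t ∩ U, inter_mem ht self_mem_nhdsWithin, ?_⟩
  have hft' : IntegrableOn f (t ∩ U) := hft.mono_set inter_subset_left
  have hm : AEStronglyMeasurable u (volume.restrict (t ∩ U)) :=
    (meas_of_cont U K hK hv u hu).mono_measure (Measure.restrict_mono_set _ inter_subset_right)
  have h1 : ∀ᵐ y ∂(volume.restrict U), ‖u y‖ ≤ ‖f y‖ := by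
    rw [ae_restrict_iff' hU.measurableSet]
    filter_upwards [measure_eq_zero_iff_ae_notMem.1 hv] with y hyK hyU
    exact h y ⟨hyU, hyK⟩
  exact Integrable.mono hft' hm (ae_restrict_of_ae_restrict_of_subset inter_subset_right h1)

/-- The proof of `Oad.weak_closed` (row wkz): `cw F (extDeriv ψ) x = ∑ J, ∑ k, pd k ψ_J x * cwt F (dJ J k) x` (`cw_extDeriv`), and for every `J` the integral of `∑ k, cwt F (dJ J k) x * pd k ψ_J x` is `0` by `removable_cover` with `Q = Qf e F` (`Qf_smooth`), `T k = cwt F (dJ J k)` (row csm), `W i k = Wf e (Θ i) J k` (`Wf_smooth`; `Wf` is `∑ a, dJ J k a * Od e Θ a x`, row cwr). Integrability of the summands: `integrable_test` for `T k = Q * W i k`, or bound `|T k| ≤ |Q| * ∑ i, |W i k|` off `K`. -/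
theorem weak_closed_cover {n q : ℕ} {ι : Type} [Fintype ι] (U K : Set (E q)) (hU : IsOpen U)
    (hK : IsOpen (U \ K)) (h0 : μH[(q : ℝ) + 4] K = 0) (e : Fin (q + 5) → E q → E q)
    (he : IsFrame U e) (Ω : E q → Form q (q + 1)) (Θ : ι → E q → Form q (q + 1))
    (hΘ : ∀ i, ContDiffOn ℝ ∞ (Θ i) U)
    (hR : ∀ x ∈ U, ∃ i, RankOne (cmp e Ω x) (cmp e (Θ i) x))
    (F : E q → Fin (q + 5) → Fin (q + 5) → Mat n)
    (hF : IsCurvature (U \ K) F) (hE : ∀ x ∈ U \ K, IsASD e Ω F x)
    (hi : LocallyIntegrableOn (Qf e F) U) (ψ : E q → Form q q) (hψ : IsTest U ψ) :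
    ∫ x, cw F (extDeriv ψ) x = 0 := by
  have hv := vol_zero K h0
  have ht := test_form U ψ hψ
  have h1 : (1 : WithTop ℕ∞) ≤ ∞ := by exact_mod_cast le_top
  let ψJ : (Fin q → Fin (q + 5)) → E q → ℝ := fun J y => ψ y (fun r => bv (J r))
  have hpd0 : ∀ J k x, x ∉ tsupport ψ → pd k (ψJ J) x = 0 := by
    intro J k x hx
    have h2 : ψJ J =ᶠ[𝓝 x] fun _ => (0 : ℝ) := by
      have h3 : ψ =ᶠ[𝓝 x] 0 := notMem_tsupport_iff_eventuallyEq.1 hx
      filter_upwards [h3] with y hy
      show ψ y (fun r => bv (J r)) = 0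
      rw [hy]
      rfl
    unfold pd
    rw [h2.fderiv_eq]
    simp
  have hpc : ∀ J k, Continuous (fun x => pd k (ψJ J) x) := by
    intro J k
    have h2 := (ht.1 J).1.continuous_fderiv (by simp)
    exact h2.clm_apply continuous_const
  have hTp := cwt_props e (U \ K) F hF
  have hcov : ∀ x ∈ U \ K, ∃ i, ∀ J k, cwt F (dJ J k) x = Qf e F x * Wf e (Θ i) J k x := by
    intro x hx
    obtain ⟨i, hi'⟩ := hR x hx.1
    refine ⟨i, fun J k => ?_⟩
    exact cwt_rank U e he Ω (Θ i) F x hx.1 hi' (curvature_skew (U \ K) F hF x hx)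
      (hE x hx) (dJ J k)
  have hWc : ∀ i J k, ContDiffOn ℝ ∞ (Wf e (Θ i) J k) U := fun i J k =>
    Wf_smooth U e he (Θ i) (hΘ i) J k
  have hTl : ∀ J k, LocallyIntegrableOn (cwt F (dJ J k)) U := by
    intro J k
    have hbc : ContinuousOn (fun x => ∑ i, |Wf e (Θ i) J k x|) U :=
      continuousOn_finsetSum _ fun i _ => (hWc i J k).continuousOn.abs
    refine wkr_loc U K hU hK hv _ _ (hi.mul_continuousOn hbc hU.isLocallyClosed)
      (hTp.1 (dJ J k)).continuousOn fun x hx => ?_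
    obtain ⟨i, hi'⟩ := hcov x hx
    have h2 : |Wf e (Θ i) J k x| ≤ ∑ i, |Wf e (Θ i) J k x| :=
      Finset.single_le_sum (f := fun i => |Wf e (Θ i) J k x|) (fun i _ => abs_nonneg _)
        (Finset.mem_univ i)
    rw [hi' J k, abs_mul, abs_mul]
    exact mul_le_mul_of_nonneg_left (h2.trans (le_abs_self _)) (abs_nonneg _)
  have key : (fun x => cw F (extDeriv ψ) x) =
      fun x => ∑ J : Fin q → Fin (q + 5), ∑ k, cwt F (dJ J k) x * pd k (ψJ J) x := by
    funext x
    have hdiff : DifferentiableAt ℝ ψ x := hψ.1.differentiable (by simp) x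
    rw [cw_extDeriv F ψ x hdiff]
    refine Finset.sum_congr rfl fun J _ => Finset.sum_congr rfl fun k _ => ?_
    rw [mul_comm]
  rw [key, integral_finsetSum]
  · refine Finset.sum_eq_zero fun J _ => ?_
    exact removable_cover U K hU hK h0 (Qf e F)
      ((Qf_smooth U (U \ K) sdiff_subset e he F hF).of_le h1) hi
      (fun k => cwt F (dJ J k)) (fun k => hTp.1 (dJ J k)) (hTp.2 J)
      (fun i k => Wf e (Θ i) J k) (fun i k => (hWc i J k).of_le h1)
      (fun x hx => (hcov x hx).imp fun i hi' k => hi' J k) (ψJ J) (ht.1 J)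
  · intro J _
    refine integrable_finsetSum _ fun k _ => ?_
    exact integrable_test U (cwt F (dJ J k)) (hTl J k) (fun x => pd k (ψJ J) x)
      (hpc J k).continuousOn (tsupport ψ) hψ.2.1 hψ.2.2 (hpd0 J k)
-- END wkr

-- BEGIN mrk
/-- The proof of `Oad.main_thm` with row wkr in place of `weak_closed`. -/
theorem main_rank {n q : ℕ} {ι : Type} [Fintype ι] (U K : Set (E q)) (hU : IsOpen U)
    (hK : IsOpen (U \ K)) (h0 : μH[(q : ℝ) + 4] K = 0) (e : Fin (q + 5) → E q → E q)
    (he : IsFrame U e) (Ω : E q → Form q (q + 1)) (Θ : ι → E q → Form q (q + 1))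
    (hΘ : ∀ i, ContDiffOn ℝ ∞ (Θ i) U)
    (hR : ∀ x ∈ U, ∃ i, RankOne (cmp e Ω x) (cmp e (Θ i) x))
    (F : ℕ → E q → Fin (q + 5) → Fin (q + 5) → Mat n) (hF : ∀ k, IsCurvature U (F k))
    (hFe : ∀ k, ∀ x ∈ U, IsASD e Ω (F k) x)
    (G : E q → Fin (q + 5) → Fin (q + 5) → Mat n) (hG : IsCurvature (U \ K) G)
    (hGe : ∀ x ∈ U \ K, IsASD e Ω G x) (hGi : LocallyIntegrableOn (nsq G) U)
    (C : (E q → Form q (q + 1)) → ℝ)
    (hC : ∀ φ : E q → Form q (q + 1), IsTest U φ →
      Tendsto (fun k => ∫ x, cw (F k) φ x) atTop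
        (𝓝 ((∫ x, cw G φ x) + 8 * Real.pi ^ 2 * C φ)))
    (ψ : E q → Form q q) (hψ : IsTest U ψ) :
    C (extDeriv ψ) = 0 ∧ ∫ x, cw G (extDeriv ψ) x = 0 := by
  have hG0 : ∫ x, cw G (extDeriv ψ) x = 0 :=
    weak_closed_cover U K hU hK h0 e he Ω Θ hΘ hR G hG hGe
      (Qf_locInt U K hU hK h0 e he G hG hGi) ψ hψ
  have hd : U \ (∅ : Set (E q)) = U := sdiff_empty
  have hF0 : ∀ k, ∫ x, cw (F k) (extDeriv ψ) x = 0 := by
    intro k
    refine weak_closed_cover U ∅ hU (by rw [hd]; exact hU) (measure_empty) e he Ω Θ hΘ hR (F k)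
      (by rw [hd]; exact hF k) (fun x hx => hFe k x (by rw [hd] at hx; exact hx)) ?_ ψ hψ
    have hc : ContinuousOn (Qf e (F k)) U :=
      (Qf_smooth U U (subset_refl U) e he (F k) (hF k)).continuousOn
    exact hc.locallyIntegrableOn hU.measurableSet
  have h1 := hC (extDeriv ψ) (test_form U ψ hψ).2.1
  have h2 : (fun k => ∫ x, cw (F k) (extDeriv ψ) x) = fun _ : ℕ => (0 : ℝ) := funext hF0
  rw [h2, hG0, zero_add] at h1
  have h3 : (0 : ℝ) = 8 * Real.pi ^ 2 * C (extDeriv ψ) :=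
    tendsto_nhds_unique tendsto_const_nhds h1
  refine ⟨?_, hG0⟩
  have h4 : (8 * Real.pi ^ 2 : ℝ) ≠ 0 := by positivity
  rcases mul_eq_zero.1 h3.symm with h | h
  · exact absurd h h4
  · exact h
-- END mrk

-- BEGIN rdc
private theorem rdc_diag {q : ℕ} (T : Fin (q + 1) → Fin (q + 5) → ℝ)
    (O : (Fin (q + 1) → Fin (q + 5)) → ℝ)
    (hO : ∀ b, O b = (Matrix.of fun r s => T r (b s)).det)
    (Z : Fin (q + 5) → Fin (q + 5) → ℝ) (hZ : Asym Z) (hE : Eqn O Z)
    (c : (Fin (q + 1) → Fin (q + 5)) → ℝ) :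
    tri c Z Z = -(ip Z Z * (1 / (Nat.factorial (q + 1) : ℝ) * ∑ b, c b * O b)) := by
  have h := alg_main (LinearMap.mul ℝ ℝ) Z hZ T O hO hE c
  simp only [LinearMap.mul_apply'] at h
  unfold tri ip
  rw [h]
  have hf : (Nat.factorial (q + 1) : ℝ) ≠ 0 := by positivity
  field_simp
  ring

/-- `alg_main` with `V = ℝ`, `B` the multiplication, for `X`, `Y` and `X + Y` (which solve the equation), gives `tri c Z Z = -(ip Z Z * ..)`; polarize with `tri_symm_add`. -/
theorem rank_dec {q : ℕ} (T : Fin (q + 1) → Fin (q + 5) → ℝ)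
    (O : (Fin (q + 1) → Fin (q + 5)) → ℝ)
    (hO : ∀ b, O b = (Matrix.of fun r s => T r (b s)).det) : RankOne O O := by
  intro X Y hX hY hEX hEY c
  have hZ : Asym fun a b => X a b + Y a b := by
    intro a b
    show X b a + Y b a = -(X a b + Y a b)
    rw [hX a b, hY a b]
    ring
  have hEZ : Eqn O fun a b => X a b + Y a b := by
    intro s
    have h1 := hEX s
    have h2 := hEY s
    have h3 : wd O (fun a b => X a b + Y a b) (fun r => s (md r)) =
        wd O X (fun r => s (md r)) + wd O Y (fun r => s (md r)) := by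
      unfold wd
      simp only [smul_add, Finset.sum_add_distrib]
    rw [h3]
    show sg s • (X (s (tl 2)) (s (tl 3)) + Y (s (tl 2)) (s (tl 3))) + _ = 0
    rw [smul_add]
    linarith
  have hXX := rdc_diag T O hO X hX hEX c
  have hYY := rdc_diag T O hO Y hY hEY c
  have hZZ := rdc_diag T O hO _ hZ hEZ c
  have t1 : tri c (fun a b => X a b + Y a b) (fun a b => X a b + Y a b) =
      tri c X X + 2 * tri c X Y + tri c Y Y := by
    rw [(tri_symm_add c (fun a b => X a b + Y a b) X Y).2.1, (tri_symm_add c X Y X).2.2,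
      (tri_symm_add c X Y Y).2.2, (tri_symm_add c Y X X).1]
    ring
  have t2 : ip (fun a b => X a b + Y a b) (fun a b => X a b + Y a b) =
      ip X X + 2 * ip X Y + ip Y Y := by
    unfold ip
    have h4 : ∀ a b : Fin (q + 5), (X a b + Y a b) * (X a b + Y a b) =
        X a b * X a b + 2 * (X a b * Y a b) + Y a b * Y a b := fun a b => by ring
    simp only [h4, Finset.sum_add_distrib, ← Finset.mul_sum]
    ring
  rw [t1, t2] at hZZ
  linarith
-- END rdc

-- BEGIN rgd
/-- Solutions are `IsASDForm`s (`good_asd`), so they solve `Eqn vN` (`vN_asd`, `eqn_of_dual`); row rdc for `vN` (`T r a = if a = hd r then 1 else 0`). -/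
theorem rank_good {q : ℕ} (e : Fin (q + 5) → E q → E q) (Ω : E q → Form q (q + 1)) (x : E q)
    (hg : Good e Ω x) : RankOne (cmp e Ω x) vN := by
  have hN : RankOne (q := q) vN vN :=
    rank_dec (fun r a => if a = hd r then (1 : ℝ) else 0) vN fun b => rfl
  intro X Y hX hY hEX hEY c
  exact hN X Y hX hY
    (eqn_of_dual vN X hX fun Z hZ => vN_asd X Z (good_asd e Ω x hg X hX hEX) hZ)
    (eqn_of_dual vN Y hY fun Z hZ => vN_asd Y Z (good_asd e Ω x hg Y hY hEY) hZ) c
-- END rgd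

-- BEGIN exf
private theorem exf_sg {k : ℕ} (σ : Equiv.Perm (Fin k)) : sg σ⁻¹ * sg σ = 1 := by
  unfold sg
  rw [Equiv.Perm.sign_inv, ← Int.cast_mul, ← Units.val_mul, Int.units_mul_self]
  simp

/-- `Θ x = (1 / (q + 1)!) ∑ b, f b x • ∑ a, (∏ r, w (a r) (b r) x) • D a` with `w` from `exists_inv` and `D a` from `exists_delta`; on frame vectors `∑ a, (∏ r, w (a r) (b r) x) • D a (e (b' ·) x) = (Matrix.of fun r s => if b' s = b r then 1 else 0).det` as in the proof of `exists_coframe` (row cof of `Oae.Lin`), and `∑ b, f b x * det (..) = (q + 1)! * f b' x` since `f · x` is alternating (the determinant is `sg σ` if `b = b' ∘ σ`; if `b'` is not injective both sides are `0`). -/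
theorem exists_form {q : ℕ} (U : Set (E q)) (e : Fin (q + 5) → E q → E q) (he : IsFrame U e)
    (f : (Fin (q + 1) → Fin (q + 5)) → E q → ℝ) (hf : ∀ b, ContDiffOn ℝ ∞ (f b) U)
    (ha : ∀ x ∈ U, Alt (fun b => f b x)) : ∃ Θ : E q → Form q (q + 1), ContDiffOn ℝ ∞ Θ U ∧
      ∀ x ∈ U, ∀ b, cmp e Θ x b = f b x := by
  classical
  obtain ⟨w, hw, hw1⟩ := exists_inv U e he
  choose D hD using fun b : Fin (q + 1) → Fin (q + 5) => exists_delta (q := q) b
  have key : ∀ (x : E q) (c : Fin (q + 1) → Fin (q + 5)) (v : Fin (q + 1) → E q),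
      (∑ b : Fin (q + 1) → Fin (q + 5), (∏ r, w (b r) (c r) x) • D b) v =
        (Matrix.of fun r s => ∑ i, w i (c r) x * v s i).det := by
    intro x c v
    have h1 : (Matrix.of fun r s : Fin (q + 1) => ∑ i, w i (c r) x * v s i).det =
        Matrix.detRowAlternating (R := ℝ) (n := Fin (q + 1))
          (fun r => ∑ i, w i (c r) x • (fun s : Fin (q + 1) => v s i)) := by
      refine congrArg Matrix.det ?_
      ext r s
      simp [Finset.sum_apply]
    have h2 := (Matrix.detRowAlternating (R := ℝ) (n := Fin (q + 1))).toMultilinearMap.map_sum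
      (fun (r : Fin (q + 1)) (i : Fin (q + 5)) =>
        w i (c r) x • (fun s : Fin (q + 1) => v s i))
    have h3 : ∀ b : Fin (q + 1) → Fin (q + 5),
        (Matrix.detRowAlternating (R := ℝ) (n := Fin (q + 1))).toMultilinearMap
          (fun r => w (b r) (c r) x • (fun s : Fin (q + 1) => v s (b r))) =
        (∏ r, w (b r) (c r) x) * (Matrix.of fun r s : Fin (q + 1) => v s (b r)).det := by
      intro b
      exact (Matrix.detRowAlternating (R := ℝ) (n := Fin (q + 1))).toMultilinearMap.map_smul_univ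
        (fun r => w (b r) (c r) x) (fun r => fun s : Fin (q + 1) => v s (b r))
    rw [h1]
    refine Eq.trans ?_ h2.symm
    rw [ContinuousAlternatingMap.sum_apply]
    refine Finset.sum_congr rfl fun b _ => ?_
    rw [h3 b, ContinuousAlternatingMap.smul_apply, hD b v, smul_eq_mul]
  have hdet : ∀ x ∈ U, ∀ b b' : Fin (q + 1) → Fin (q + 5),
      (Matrix.of fun r s => ∑ i, w i (b r) x * e (b' s) x i).det =
        ∑ σ : Equiv.Perm (Fin (q + 1)), sg σ * (if b = (fun r => b' (σ⁻¹ r)) then 1 else 0) := by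
    intro x hx b b'
    rw [Matrix.det_apply']
    refine Finset.sum_congr rfl fun σ _ => ?_
    have h1 : ∀ s, (Matrix.of fun r s => ∑ i, w i (b r) x * e (b' s) x i) (σ s) s =
        if b' s = b (σ s) then (1 : ℝ) else 0 := by
      intro s
      rw [Matrix.of_apply, ← hw1 x hx (b' s) (b (σ s))]
      exact Finset.sum_congr rfl fun i _ => mul_comm _ _
    have h2 : (∏ s, (Matrix.of fun r s => ∑ i, w i (b r) x * e (b' s) x i) (σ s) s) =
        if b = (fun r => b' (σ⁻¹ r)) then (1 : ℝ) else 0 := by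
      rw [Finset.prod_congr rfl fun s _ => h1 s]
      by_cases h : b = fun r => b' (σ⁻¹ r)
      · rw [if_pos h]
        refine Finset.prod_eq_one fun s _ => ?_
        rw [if_pos]
        rw [h]
        simp
      · rw [if_neg h]
        have h3 : ∃ r, b r ≠ b' (σ⁻¹ r) := by
          by_contra h4
          push Not at h4
          exact h (funext h4)
        obtain ⟨r, hr⟩ := h3
        refine Finset.prod_eq_zero (Finset.mem_univ (σ⁻¹ r)) ?_
        rw [if_neg]
        intro h5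
        apply hr
        rw [h5]
        simp
    rw [h2]
    rfl
  have hfin : ∀ x ∈ U, ∀ b' : Fin (q + 1) → Fin (q + 5),
      ∑ b, f b x * (Matrix.of fun r s => ∑ i, w i (b r) x * e (b' s) x i).det =
        (Nat.factorial (q + 1) : ℝ) * f b' x := by
    intro x hx b'
    have h0 : ∀ b, f b x * (Matrix.of fun r s => ∑ i, w i (b r) x * e (b' s) x i).det =
        ∑ σ : Equiv.Perm (Fin (q + 1)),
          f b x * (sg σ * (if b = (fun r => b' (σ⁻¹ r)) then 1 else 0)) := by
      intro b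
      rw [hdet x hx b b', Finset.mul_sum]
    rw [Finset.sum_congr rfl fun b _ => h0 b, Finset.sum_comm]
    have h2 : ∀ σ : Equiv.Perm (Fin (q + 1)),
        ∑ b, f b x * (sg σ * (if b = (fun r => b' (σ⁻¹ r)) then 1 else 0)) = f b' x := by
      intro σ
      rw [Finset.sum_eq_single (fun r => b' (σ⁻¹ r))]
      · have h3 : f (fun r => b' (σ⁻¹ r)) x = sg σ⁻¹ * f b' x := ha x hx b' σ⁻¹
        rw [if_pos rfl, mul_one, h3]
        linear_combination f b' x * exf_sg σ
      · intro b _ hb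
        rw [if_neg hb]
        ring
      · intro h
        exact absurd (Finset.mem_univ _) h
    rw [Finset.sum_congr rfl fun σ _ => h2 σ, Finset.sum_const, Finset.card_univ,
      Fintype.card_perm, Fintype.card_fin, nsmul_eq_mul]
  refine ⟨fun x => (1 / (Nat.factorial (q + 1) : ℝ)) • ∑ b : Fin (q + 1) → Fin (q + 5),
    f b x • ∑ a : Fin (q + 1) → Fin (q + 5), (∏ r, w (a r) (b r) x) • D a, ?_, ?_⟩
  · have h8 : ∀ b : Fin (q + 1) → Fin (q + 5), ContDiffOn ℝ ∞
        (fun x => ∑ a : Fin (q + 1) → Fin (q + 5), (∏ r, w (a r) (b r) x) • D a) U := by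
      intro b
      refine ContDiffOn.sum fun a _ => ?_
      have h5 : ContDiffOn ℝ ∞ (fun x => ∏ r, w (a r) (b r) x) U :=
        contDiffOn_prod fun r _ => hw (a r) (b r)
      exact h5.smul contDiffOn_const
    have h9 : ContDiffOn ℝ ∞ (fun x => ∑ b : Fin (q + 1) → Fin (q + 5),
        f b x • ∑ a : Fin (q + 1) → Fin (q + 5), (∏ r, w (a r) (b r) x) • D a) U :=
      ContDiffOn.sum fun b _ => (hf b).smul (h8 b)
    exact h9.const_smul _
  · intro x hx b'
    have h6 : (Nat.factorial (q + 1) : ℝ) ≠ 0 := by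
      exact_mod_cast Nat.factorial_ne_zero _
    unfold Oae.cmp
    rw [ContinuousAlternatingMap.smul_apply, ContinuousAlternatingMap.sum_apply]
    have h7 : ∀ b : Fin (q + 1) → Fin (q + 5),
        (f b x • ∑ a : Fin (q + 1) → Fin (q + 5), (∏ r, w (a r) (b r) x) • D a)
          (fun r => e (b' r) x) =
        f b x * (Matrix.of fun r s => ∑ i, w i (b r) x * e (b' s) x i).det := by
      intro b
      rw [ContinuousAlternatingMap.smul_apply, key x b, smul_eq_mul]
    rw [Finset.sum_congr rfl fun b _ => h7 b, hfin x hx b', smul_eq_mul]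
    field_simp
-- END exf

end Pool.Agent.Oaf
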