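import Pool.Agent.Oae.Six

/-!
Solutions of `⋆X + A ∧ X = 0` in dimension six, when the 2-form `A` has comass less than `1`
-/

set_option autoImplicit false

namespace Pool.Agent.Oaf

open MeasureTheory Set Matrix Pool.Agent.Oad Pool.Agent.Oae

/-- the 2-form `A` in the frame `∑ i, R a i • e_i` -/
noncomputable def rot (R : Matrix (Fin (1 + 5)) (Fin (1 + 5)) ℝ)
    (A : Fin (1 + 5) → Fin (1 + 5) → ℝ) (a b : Fin (1 + 5)) : ℝ :=
  ∑ i, ∑ j, R a i * R b j * A i j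

/-- `A < 1` on the orthonormal pairs of `ℝ^6` -/
def Lt6 (A : Fin (1 + 5) → Fin (1 + 5) → ℝ) : Prop :=
  ∀ c d : Fin (1 + 5) → ℝ, ∑ i, c i ^ 2 = 1 → ∑ i, d i ^ 2 = 1 → ∑ i, c i * d i = 0 →
    ∑ i, ∑ j, c i * d j * A i j < 1

/-- `A` is block diagonal with the blocks `{0, 1}`, `{2, 3}`, `{4, 5}` -/
def Diag (A : Fin (1 + 5) → Fin (1 + 5) → ℝ) : Prop :=
  ∀ a b : Fin (1 + 5), a.1 / 2 ≠ b.1 / 2 → A a b = 0

/-- `⋆X + A ∧ X = 0` -/
def Sol (A X : Fin (1 + 5) → Fin (1 + 5) → ℝ) : Prop :=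
  ∀ Y, Asym Y → ip X Y + T6 A X Y = 0

/-- the coefficient of `X ∧ Y` at `a b c d` -/
def q4 (X Y : Fin (1 + 5) → Fin (1 + 5) → ℝ) (a b c d : Fin (1 + 5)) : ℝ :=
  X a b * Y c d - X a c * Y b d + X a d * Y b c + X b c * Y a d - X b d * Y a c + X c d * Y a b

-- BEGIN rt6
private theorem rt6_cons {n : ℕ} {α : Type} [Fintype α] (f : (Fin (n + 1) → α) → ℝ) :
    ∑ t, f t = ∑ i, ∑ t : Fin n → α, f (Fin.cons i t) := by
  rw [← Fintype.sum_prod_type' (f := fun i t => f (Fin.cons i t))]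
  exact (Fintype.sum_equiv (Fin.consEquiv (fun _ => α)) _ _ (fun _ => rfl)).symm

private theorem rt6_six (f : (Fin 6 → Fin (1 + 5)) → ℝ) :
    ∑ t, f t = ∑ i0, ∑ i1, ∑ i2, ∑ i3, ∑ i4, ∑ i5, f ![i0, i1, i2, i3, i4, i5] := by
  rw [rt6_cons (n := 5)]
  refine Finset.sum_congr rfl fun i0 _ => ?_
  rw [rt6_cons (n := 4)]
  refine Finset.sum_congr rfl fun i1 _ => ?_
  rw [rt6_cons (n := 3)]
  refine Finset.sum_congr rfl fun i2 _ => ?_
  rw [rt6_cons (n := 2)]
  refine Finset.sum_congr rfl fun i3 _ => ?_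
  rw [rt6_cons (n := 1)]
  refine Finset.sum_congr rfl fun i4 _ => ?_
  rw [rt6_cons (n := 0)]
  refine Finset.sum_congr rfl fun i5 _ => ?_
  rw [Fintype.sum_unique]
  congr 1

private theorem rt6_expand (R : Matrix (Fin (1 + 5)) (Fin (1 + 5)) ℝ)
    (A B Z : Fin (1 + 5) → Fin (1 + 5) → ℝ) (s : Fin (1 + 5) → Fin (1 + 5)) :
    ∑ t : Fin (1 + 5) → Fin (1 + 5), (∏ r, R (s r) (t r)) *
      (A (t 0) (t 1) * (B (t 2) (t 3) * Z (t 4) (t 5))) =
    rot R A (s 0) (s 1) * (rot R B (s 2) (s 3) * rot R Z (s 4) (s 5)) := by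
  have h1 := rt6_six fun t => (∏ r : Fin 6, R (s r) (t r)) *
      (A (t 0) (t 1) * (B (t 2) (t 3) * Z (t 4) (t 5)))
  refine Eq.trans h1 ?_
  unfold rot
  rw [Finset.sum_mul]
  refine Finset.sum_congr rfl fun i0 _ => ?_
  rw [Finset.sum_mul]
  refine Finset.sum_congr rfl fun i1 _ => ?_
  rw [Finset.sum_mul, Finset.mul_sum]
  refine Finset.sum_congr rfl fun i2 _ => ?_
  rw [Finset.sum_mul, Finset.mul_sum]
  refine Finset.sum_congr rfl fun i3 _ => ?_
  rw [Finset.mul_sum, Finset.mul_sum]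
  refine Finset.sum_congr rfl fun i4 _ => ?_
  rw [Finset.mul_sum, Finset.mul_sum]
  refine Finset.sum_congr rfl fun i5 _ => ?_
  rw [Fin.prod_univ_six]
  change R (s 0) i0 * R (s 1) i1 * R (s 2) i2 * R (s 3) i3 * R (s 4) i4 * R (s 5) i5 *
    (A i0 i1 * (B i2 i3 * Z i4 i5)) = _
  ring

/-- `sum_frame` (`Oad.Alg`) with `M = R` and `c t = A (t 0) (t 1) * (B (t 2) (t 3) * Z (t 4) (t 5))`; the sum over all `t : Fin 6 → Fin 6` of `(∏ r, R (s r) (t r)) * c t` is the product of the three `rot`s (split a function on `Fin 6` into its six values, for example `Fin.consEquiv` or `Fintype.piFinset`, `Finset.prod_univ_sum`). -/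
theorem T6_rot (R : Matrix (Fin (1 + 5)) (Fin (1 + 5)) ℝ) (h : R.det = 1)
    (A B Z : Fin (1 + 5) → Fin (1 + 5) → ℝ) : T6 (rot R A) (rot R B) (rot R Z) = T6 A B Z := by
  have h1 := sum_frame R fun t => A (t 0) (t 1) * (B (t 2) (t 3) * Z (t 4) (t 5))
  rw [h, one_mul] at h1
  unfold T6
  rw [← h1]
  congr 1
  refine Finset.sum_congr rfl fun s _ => ?_
  rw [rt6_expand R A B Z s]
-- END rt6

-- BEGIN rtp
private theorem rtp_tr (M N : Matrix (Fin (1 + 5)) (Fin (1 + 5)) ℝ) :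
    ∑ a, ∑ b, M a b * N a b = (M * Nᵀ).trace := by
  rfl

private theorem rtp_rot (R : Matrix (Fin (1 + 5)) (Fin (1 + 5)) ℝ)
    (A : Fin (1 + 5) → Fin (1 + 5) → ℝ) : Matrix.of (rot R A) = R * Matrix.of A * Rᵀ := by
  ext a b
  rw [Matrix.mul_apply]
  simp only [Matrix.mul_apply, Matrix.of_apply, Matrix.transpose_apply, rot, Finset.sum_mul]
  rw [Finset.sum_comm]
  exact Finset.sum_congr rfl fun j _ => Finset.sum_congr rfl fun i _ => by ring

/-- `rot R A` is the matrix `R * A * Rᵀ`; `ip A B = (1 / 2) tr (A Bᵀ)`, cyclicity of the trace and `Rᵀ * R = 1`. -/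
theorem ip_rot (R : Matrix (Fin (1 + 5)) (Fin (1 + 5)) ℝ) (h : R * Rᵀ = 1)
    (A B : Fin (1 + 5) → Fin (1 + 5) → ℝ) : ip (rot R A) (rot R B) = ip A B := by
  have h' : Rᵀ * R = 1 := mul_eq_one_comm.1 h
  have h1 : ∑ a, ∑ b, rot R A a b * rot R B a b = ∑ a, ∑ b, A a b * B a b := by
    have e1 := rtp_tr (Matrix.of (rot R A)) (Matrix.of (rot R B))
    have e2 := rtp_tr (Matrix.of A) (Matrix.of B)
    rw [rtp_rot, rtp_rot, Matrix.transpose_mul, Matrix.transpose_mul, Matrix.transpose_transpose] at e1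
    have e3 : R * Matrix.of A * Rᵀ * (R * ((Matrix.of B)ᵀ * Rᵀ)) =
        R * (Matrix.of A * (Matrix.of B)ᵀ) * Rᵀ := by
      calc R * Matrix.of A * Rᵀ * (R * ((Matrix.of B)ᵀ * Rᵀ))
          = R * Matrix.of A * (Rᵀ * R) * ((Matrix.of B)ᵀ * Rᵀ) := by simp only [Matrix.mul_assoc]
        _ = _ := by rw [h', Matrix.mul_one]; simp only [Matrix.mul_assoc]
    rw [e3, Matrix.trace_mul_comm, ← Matrix.mul_assoc, h', Matrix.one_mul, ← e2, ← rtp_rot,
      ← rtp_rot] at e1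
    exact e1
  unfold ip
  rw [h1]
-- END rtp

-- BEGIN rts
private theorem rts_mat (R : Matrix (Fin (1 + 5)) (Fin (1 + 5)) ℝ)
    (A : Fin (1 + 5) → Fin (1 + 5) → ℝ) (a b : Fin (1 + 5)) :
    rot R A a b = (R * Matrix.of A * Rᵀ) a b := by
  simp only [rot, Matrix.mul_apply, Matrix.transpose_apply, Matrix.of_apply, Finset.sum_mul]
  rw [Finset.sum_comm]
  refine Finset.sum_congr rfl fun i _ => Finset.sum_congr rfl fun j _ => ?_
  ring

private theorem rts_inv (R S : Matrix (Fin (1 + 5)) (Fin (1 + 5)) ℝ) (h : R * S = 1)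
    (h' : Sᵀ * Rᵀ = 1) (A : Fin (1 + 5) → Fin (1 + 5) → ℝ) : rot R (rot S A) = A := by
  have h1 : Matrix.of (rot S A) = S * Matrix.of A * Sᵀ := by
    ext a b
    exact rts_mat S A a b
  funext a b
  rw [rts_mat, h1]
  have h2 : R * (S * Matrix.of A * Sᵀ) * Rᵀ = Matrix.of A := by
    calc R * (S * Matrix.of A * Sᵀ) * Rᵀ = (R * S) * Matrix.of A * (Sᵀ * Rᵀ) := by
          simp only [Matrix.mul_assoc]
      _ = Matrix.of A := by rw [h, h', Matrix.one_mul, Matrix.mul_one]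
  rw [h2]
  rfl

private theorem rts_dot (R : Matrix (Fin (1 + 5)) (Fin (1 + 5)) ℝ) (h : R * Rᵀ = 1)
    (c d : Fin (1 + 5) → ℝ) :
    ∑ i, (∑ a, c a * R a i) * (∑ b, d b * R b i) = ∑ a, c a * d a := by
  have h1 : (c ᵥ* R) ⬝ᵥ (d ᵥ* R) = c ⬝ᵥ d := by
    rw [← Matrix.mulVec_transpose R d, Matrix.dotProduct_mulVec, Matrix.vecMul_vecMul, h,
      Matrix.vecMul_one]
  exact h1

/-- Second part: the value of `rot R A` at `c`, `d` is the value of `A` at `Rᵀ c`, `Rᵀ d`, again an orthonormal pair. Third and fourth part: `R * (Rᵀ * A * R) * Rᵀ = A`. -/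
theorem rot_props (R : Matrix (Fin (1 + 5)) (Fin (1 + 5)) ℝ) (h : R * Rᵀ = 1)
    (A : Fin (1 + 5) → Fin (1 + 5) → ℝ) : (Asym A → Asym (rot R A)) ∧ (Lt6 A → Lt6 (rot R A)) ∧
      rot R (rot Rᵀ A) = A ∧ rot Rᵀ (rot R A) = A := by
  have h' : Rᵀ * R = 1 := mul_eq_one_comm.1 h
  refine ⟨?_, ?_, ?_, ?_⟩
  · intro hA a b
    unfold rot
    rw [Finset.sum_comm, ← Finset.sum_neg_distrib]
    refine Finset.sum_congr rfl fun i _ => ?_
    rw [← Finset.sum_neg_distrib]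
    refine Finset.sum_congr rfl fun j _ => ?_
    rw [hA i j]
    ring
  · intro hL c d hc hd hcd
    have e1 := rts_dot R h c c
    have e2 := rts_dot R h d d
    have e3 := rts_dot R h c d
    have h2 := hL (fun i => ∑ a, c a * R a i) (fun i => ∑ b, d b * R b i)
      (by
        rw [← hc]
        simp only [sq]
        exact e1)
      (by
        rw [← hd]
        simp only [sq]
        exact e2)
      (by
        rw [← hcd]
        exact e3)
    refine lt_of_eq_of_lt ?_ h2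
    have e4 : ∀ i j : Fin (1 + 5), (∑ a, c a * R a i) * (∑ b, d b * R b j) * A i j =
        ∑ a, ∑ b, c a * d b * (R a i * R b j * A i j) := by
      intro i j
      rw [Finset.sum_mul_sum, Finset.sum_mul]
      refine Finset.sum_congr rfl fun a _ => ?_
      rw [Finset.sum_mul]
      refine Finset.sum_congr rfl fun b _ => ?_
      ring
    calc ∑ a, ∑ b, c a * d b * rot R A a b
        = ∑ a, ∑ b, ∑ i, ∑ j, c a * d b * (R a i * R b j * A i j) := by
          refine Finset.sum_congr rfl fun a _ => Finset.sum_congr rfl fun b _ => ?_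
          unfold rot
          rw [Finset.mul_sum]
          refine Finset.sum_congr rfl fun i _ => ?_
          rw [Finset.mul_sum]
      _ = ∑ a, ∑ i, ∑ b, ∑ j, c a * d b * (R a i * R b j * A i j) :=
          Finset.sum_congr rfl fun a _ => Finset.sum_comm
      _ = ∑ i, ∑ a, ∑ b, ∑ j, c a * d b * (R a i * R b j * A i j) := Finset.sum_comm
      _ = ∑ i, ∑ a, ∑ j, ∑ b, c a * d b * (R a i * R b j * A i j) :=
          Finset.sum_congr rfl fun i _ => Finset.sum_congr rfl fun a _ => Finset.sum_comm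
      _ = ∑ i, ∑ j, ∑ a, ∑ b, c a * d b * (R a i * R b j * A i j) :=
          Finset.sum_congr rfl fun i _ => Finset.sum_comm
      _ = _ := by
          refine Finset.sum_congr rfl fun i _ => Finset.sum_congr rfl fun j _ => ?_
          rw [e4 i j]
  · exact rts_inv R Rᵀ h (by rw [Matrix.transpose_transpose]; exact h) A
  · exact rts_inv Rᵀ R h' (by rw [Matrix.transpose_transpose]; exact h') A
-- END rts

-- BEGIN rtl
/-- For `Y` use the hypothesis for `rot Rᵀ Y` (row rts for `Rᵀ`: `Rᵀ * Rᵀᵀ = 1`) and rows rt6, rtp with `rot R (rot Rᵀ Y) = Y`. -/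
theorem sol_rot (R : Matrix (Fin (1 + 5)) (Fin (1 + 5)) ℝ) (h : R * Rᵀ = 1) (hd : R.det = 1)
    (A X : Fin (1 + 5) → Fin (1 + 5) → ℝ) (hs : Sol A X) : Sol (rot R A) (rot R X) := by
  intro Y hY
  have h' : Rᵀ * Rᵀᵀ = 1 := by
    rw [Matrix.transpose_transpose]
    exact mul_eq_one_comm.mp h
  have h1 : Asym (rot Rᵀ Y) := (rot_props Rᵀ h' Y).1 hY
  have h2 : rot R (rot Rᵀ Y) = Y := (rot_props R h Y).2.2.1
  have h3 := hs (rot Rᵀ Y) h1
  rw [← ip_rot R h X (rot Rᵀ Y), ← T6_rot R hd A X (rot Rᵀ Y), h2] at h3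
  exact h3
-- END rtl

-- BEGIN nf1
/-- The set of orthonormal pairs is compact and not empty (`e_0`, `e_1`), the function is continuous: `IsCompact.exists_isMaxOn`. -/
theorem exists_max_pair {n : ℕ} (X : Fin (n + 2) → Fin (n + 2) → ℝ) :
    ∃ u v : Fin (n + 2) → ℝ, ∑ i, u i ^ 2 = 1 ∧ ∑ i, v i ^ 2 = 1 ∧ ∑ i, u i * v i = 0 ∧
      ∀ c d : Fin (n + 2) → ℝ, ∑ i, c i ^ 2 = 1 → ∑ i, d i ^ 2 = 1 → ∑ i, c i * d i = 0 →
        ∑ i, ∑ j, c i * d j * X i j ≤ ∑ i, ∑ j, u i * v j * X i j := by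
  obtain ⟨K, hK⟩ : ∃ K : Set ((Fin (n + 2) → ℝ) × (Fin (n + 2) → ℝ)),
      K = {p | ∑ i, p.1 i ^ 2 = 1 ∧ ∑ i, p.2 i ^ 2 = 1 ∧ ∑ i, p.1 i * p.2 i = 0} := ⟨_, rfl⟩
  have hmem : ∀ p, p ∈ K ↔ ∑ i, p.1 i ^ 2 = 1 ∧ ∑ i, p.2 i ^ 2 = 1 ∧ ∑ i, p.1 i * p.2 i = 0 := by
    intro p
    rw [hK]
    rfl
  have hcl : IsClosed K := by
    rw [hK]
    refine IsClosed.inter ?_ (IsClosed.inter ?_ ?_)
    · exact isClosed_eq (f := fun p : (Fin (n + 2) → ℝ) × (Fin (n + 2) → ℝ) => ∑ i, p.1 i ^ 2)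
        (by fun_prop) continuous_const
    · exact isClosed_eq (f := fun p : (Fin (n + 2) → ℝ) × (Fin (n + 2) → ℝ) => ∑ i, p.2 i ^ 2)
        (by fun_prop) continuous_const
    · exact isClosed_eq (f := fun p : (Fin (n + 2) → ℝ) × (Fin (n + 2) → ℝ) => ∑ i, p.1 i * p.2 i)
        (by fun_prop) continuous_const
  have hone : ∀ u : Fin (n + 2) → ℝ, ∑ i, u i ^ 2 = 1 → ‖u‖ ≤ 1 := by
    intro u hu
    rw [pi_norm_le_iff_of_nonneg zero_le_one]
    intro i
    have h1 : u i ^ 2 ≤ 1 := by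
      rw [← hu]
      exact Finset.single_le_sum (f := fun i => u i ^ 2) (fun i _ => sq_nonneg (u i))
        (Finset.mem_univ i)
    rw [Real.norm_eq_abs]
    exact abs_le_one_iff_mul_self_le_one.2 (by rw [← sq]; exact h1)
  have hbd : Bornology.IsBounded K := by
    refine (Metric.isBounded_closedBall (x := (0 : (Fin (n + 2) → ℝ) × (Fin (n + 2) → ℝ)))
      (r := 1)).subset fun p hp => ?_
    obtain ⟨h1, h2, -⟩ := (hmem p).1 hp
    rw [mem_closedBall_zero_iff, Prod.norm_def]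
    exact max_le (hone _ h1) (hone _ h2)
  have hne : K.Nonempty := by
    refine ⟨(Pi.single 0 1, Pi.single 1 1), (hmem _).2 ⟨?_, ?_, ?_⟩⟩
    · rw [Finset.sum_eq_single 0]
      · simp
      · intro b _ hb
        simp [Pi.single_eq_of_ne hb]
      · intro h
        exact absurd (Finset.mem_univ _) h
    · rw [Finset.sum_eq_single 1]
      · simp
      · intro b _ hb
        simp [Pi.single_eq_of_ne hb]
      · intro h
        exact absurd (Finset.mem_univ _) h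
    · refine Finset.sum_eq_zero fun i _ => ?_
      by_cases hi : i = 0
      · subst hi
        have h01 : (0 : Fin (n + 2)) ≠ 1 := by
          intro h
          have := congrArg Fin.val h
          simp at this
        simp
      · simp [Pi.single_eq_of_ne hi]
  obtain ⟨p, hp, hmax⟩ := (Metric.isCompact_of_isClosed_isBounded hcl hbd).exists_isMaxOn hne
    (f := fun p : (Fin (n + 2) → ℝ) × (Fin (n + 2) → ℝ) => ∑ i, ∑ j, p.1 i * p.2 j * X i j)
    (by fun_prop)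
  obtain ⟨h1, h2, h3⟩ := (hmem p).1 hp
  exact ⟨p.1, p.2, h1, h2, h3, fun c d hc hd hcd => hmax ((hmem (c, d)).2 ⟨hc, hd, hcd⟩)⟩
-- END nf1

-- BEGIN nf2
private theorem nf2_small (b K : ℝ) (h : ∀ ε : ℝ, ε * b ≤ K * ε ^ 2) : b = 0 := by
  by_contra hb
  have hK : 0 < |K| + 1 := by positivity
  have h1 := h (b / (2 * (|K| + 1)))
  have h2 : b / (2 * (|K| + 1)) * b = b ^ 2 / (2 * (|K| + 1)) := by ring
  have h3 : K * (b / (2 * (|K| + 1))) ^ 2 ≤ b ^ 2 / (4 * (|K| + 1)) := by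
    have h4 : K * (b / (2 * (|K| + 1))) ^ 2 ≤ (|K| + 1) * (b / (2 * (|K| + 1))) ^ 2 :=
      mul_le_mul_of_nonneg_right (by linarith [le_abs_self K]) (sq_nonneg _)
    refine h4.trans (le_of_eq ?_)
    field_simp
    ring
  have h5 : 0 < b ^ 2 := by positivity
  have h6 : b ^ 2 / (4 * (|K| + 1)) < b ^ 2 / (2 * (|K| + 1)) := by
    apply div_lt_div_of_pos_left h5 (by positivity)
    linarith
  rw [h2] at h1
  linarith

private theorem nf2_aux {n : ℕ} (X : Fin (n + 2) → Fin (n + 2) → ℝ) (u v : Fin (n + 2) → ℝ)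
    (hu : ∑ i, u i ^ 2 = 1) (hv : ∑ i, v i ^ 2 = 1) (huv : ∑ i, u i * v i = 0)
    (hm : ∀ c d : Fin (n + 2) → ℝ, ∑ i, c i ^ 2 = 1 → ∑ i, d i ^ 2 = 1 → ∑ i, c i * d i = 0 →
        ∑ i, ∑ j, c i * d j * X i j ≤ ∑ i, ∑ j, u i * v j * X i j)
    (w : Fin (n + 2) → ℝ) (h1 : ∑ i, u i * w i = 0) (h2 : ∑ i, v i * w i = 0) :
    ∑ i, ∑ j, u i * w j * X i j = 0 := by
  set m := ∑ i, ∑ j, u i * v j * X i j with hmd
  set b := ∑ i, ∑ j, u i * w j * X i j with hbd
  set s := ∑ i, w i ^ 2 with hsd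
  have hs : 0 ≤ s := Finset.sum_nonneg fun i _ => sq_nonneg _
  have hm0 : 0 ≤ m := by
    have h3 := hm u (fun i => -v i) hu (by simpa using hv) (by simpa using huv)
    have h4 : ∑ i, ∑ j, u i * (-v j) * X i j = -m := by
      rw [hmd, ← Finset.sum_neg_distrib]
      refine Finset.sum_congr rfl fun i _ => ?_
      rw [← Finset.sum_neg_distrib]
      exact Finset.sum_congr rfl fun j _ => by ring
    rw [h4] at h3
    linarith
  apply nf2_small b (m * s / 2)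
  intro ε
  have hx : 0 ≤ ε ^ 2 * s := by positivity
  set r := Real.sqrt (1 + ε ^ 2 * s) with hr
  have hr0 : 0 < r := Real.sqrt_pos.2 (by linarith)
  have hr2 : r ^ 2 = 1 + ε ^ 2 * s := Real.sq_sqrt (by linarith)
  have hr1 : r ≤ 1 + ε ^ 2 * s / 2 := by nlinarith [sq_nonneg (r - 1)]
  have k1 : ∑ i, (r⁻¹ * (v i + ε * w i)) ^ 2 = 1 := by
    have h3 : ∀ i, (r⁻¹ * (v i + ε * w i)) ^ 2 = r⁻¹ ^ 2 * v i ^ 2 + (2 * r⁻¹ ^ 2 * ε) * (v i * w i) +
        (r⁻¹ ^ 2 * ε ^ 2) * w i ^ 2 := fun i => by ring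
    rw [Finset.sum_congr rfl fun i _ => h3 i, Finset.sum_add_distrib, Finset.sum_add_distrib,
      ← Finset.mul_sum, ← Finset.mul_sum, ← Finset.mul_sum, hv, h2, ← hsd]
    have h4 : r⁻¹ ^ 2 * 1 + 2 * r⁻¹ ^ 2 * ε * 0 + r⁻¹ ^ 2 * ε ^ 2 * s = r⁻¹ ^ 2 * (1 + ε ^ 2 * s) := by
      ring
    rw [h4, ← hr2, ← mul_pow, inv_mul_cancel₀ hr0.ne', one_pow]
  have k2 : ∑ i, u i * (r⁻¹ * (v i + ε * w i)) = 0 := by
    have h3 : ∀ i, u i * (r⁻¹ * (v i + ε * w i)) = r⁻¹ * (u i * v i) + (r⁻¹ * ε) * (u i * w i) :=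
      fun i => by ring
    rw [Finset.sum_congr rfl fun i _ => h3 i, Finset.sum_add_distrib, ← Finset.mul_sum,
      ← Finset.mul_sum, huv, h1]
    ring
  have k3 : ∑ i, ∑ j, u i * (r⁻¹ * (v j + ε * w j)) * X i j = r⁻¹ * (m + ε * b) := by
    have h3 : ∀ i j, u i * (r⁻¹ * (v j + ε * w j)) * X i j =
        r⁻¹ * (u i * v j * X i j) + (r⁻¹ * ε) * (u i * w j * X i j) := fun i j => by ring
    have h4 : ∀ i, ∑ j, u i * (r⁻¹ * (v j + ε * w j)) * X i j =
        r⁻¹ * (∑ j, u i * v j * X i j) + (r⁻¹ * ε) * (∑ j, u i * w j * X i j) := by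
      intro i
      rw [Finset.sum_congr rfl fun j _ => h3 i j, Finset.sum_add_distrib, ← Finset.mul_sum,
        ← Finset.mul_sum]
    rw [Finset.sum_congr rfl fun i _ => h4 i, Finset.sum_add_distrib, ← Finset.mul_sum,
      ← Finset.mul_sum, ← hmd, ← hbd]
    ring
  have k4 := hm u (fun i => r⁻¹ * (v i + ε * w i)) hu k1 k2
  rw [k3, inv_mul_le_iff₀ hr0] at k4
  have k5 : r * m ≤ (1 + ε ^ 2 * s / 2) * m := mul_le_mul_of_nonneg_right hr1 hm0
  nlinarith

/-- For `w` with `|w| = 1` (scale; `w = 0` is trivial) the pair `u`, `α v + β w` with `α ^ 2 + β ^ 2 = 1` is orthonormal: `α m + β X(u, w) ≤ m` for all such `α`, `β`, `m = X(u, v)`; `α = (1 - ε ^ 2) / (1 + ε ^ 2)`, `β = 2 ε / (1 + ε ^ 2)` gives `ε X(u, w) ≤ ε ^ 2 m` for all `ε`, so `X(u, w) = 0`. The same for `α u + β w`, `v`. -/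
theorem first_order {n : ℕ} (X : Fin (n + 2) → Fin (n + 2) → ℝ) (u v : Fin (n + 2) → ℝ)
    (hu : ∑ i, u i ^ 2 = 1) (hv : ∑ i, v i ^ 2 = 1) (huv : ∑ i, u i * v i = 0)
    (hm : ∀ c d : Fin (n + 2) → ℝ, ∑ i, c i ^ 2 = 1 → ∑ i, d i ^ 2 = 1 → ∑ i, c i * d i = 0 →
        ∑ i, ∑ j, c i * d j * X i j ≤ ∑ i, ∑ j, u i * v j * X i j)
    (w : Fin (n + 2) → ℝ) (h1 : ∑ i, u i * w i = 0) (h2 : ∑ i, v i * w i = 0) :
    ∑ i, ∑ j, u i * w j * X i j = 0 ∧ ∑ i, ∑ j, w i * v j * X i j = 0 := by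
  refine ⟨nf2_aux X u v hu hv huv hm w h1 h2, ?_⟩
  have hsw : ∀ c d : Fin (n + 2) → ℝ, ∑ i, ∑ j, c i * d j * X j i = ∑ i, ∑ j, d i * c j * X i j := by
    intro c d
    rw [Finset.sum_comm]
    exact Finset.sum_congr rfl fun i _ => Finset.sum_congr rfl fun j _ => by ring
  have h3 := nf2_aux (fun i j => X j i) v u hv hu
    (by rw [← huv]; exact Finset.sum_congr rfl fun i _ => mul_comm _ _)
    (fun c d hc hd hcd => by
      rw [hsw, hsw]
      exact hm d c hd hc (by rw [← hcd]; exact Finset.sum_congr rfl fun i _ => mul_comm _ _))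
    w h2 h1
  rw [hsw] at h3
  exact h3
-- END nf2

-- BEGIN nf3
/-- The orthonormal family `u, v` extends to an orthonormal basis of `EuclideanSpace ℝ (Fin (n + 4))` (`Orthonormal.exists_orthonormalBasis_extension_of_card_eq`); its vectors are the rows of `R`, `R * Rᵀ = 1`, so `R.det = 1` or `-1`; in the second case replace the last row by its negative. -/
theorem exists_rot_pair {n : ℕ} (u v : Fin (n + 4) → ℝ) (hu : ∑ i, u i ^ 2 = 1)
    (hv : ∑ i, v i ^ 2 = 1) (huv : ∑ i, u i * v i = 0) :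
    ∃ R : Matrix (Fin (n + 4)) (Fin (n + 4)) ℝ, R * Rᵀ = 1 ∧ R.det = 1 ∧
      (∀ i, R 0 i = u i) ∧ ∀ i, R 1 i = v i := by
  have h01 : (0 : Fin (n + 4)) ≠ 1 := by
    rw [Ne, Fin.ext_iff]
    simp
  have hin : ∀ a b : Fin (n + 4) → ℝ,
      inner ℝ (WithLp.toLp 2 a : EuclideanSpace ℝ (Fin (n + 4))) (WithLp.toLp 2 b) =
        ∑ i, a i * b i := by
    intro a b
    rw [PiLp.inner_apply]
    refine Finset.sum_congr rfl fun i _ => ?_
    simp [mul_comm]
  let w : Fin (n + 4) → EuclideanSpace ℝ (Fin (n + 4)) := fun i =>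
    if i = 0 then WithLp.toLp 2 u else WithLp.toLp 2 v
  have hw0 : w 0 = WithLp.toLp 2 u := by simp [w]
  have hw1 : w 1 = WithLp.toLp 2 v := by simp [w, h01.symm]
  have hon : Orthonormal ℝ (Set.domRestrict ({0, 1} : Set (Fin (n + 4))) w) := by
    rw [orthonormal_iff_ite]
    rintro ⟨i, hi⟩ ⟨j, hj⟩
    show inner ℝ (w i) (w j) = _
    simp only [Subtype.mk.injEq]
    simp only [Set.mem_insert_iff, Set.mem_singleton_iff] at hi hj
    rcases hi with rfl | rfl <;> rcases hj with rfl | rfl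
    · rw [hw0, hin, if_pos rfl, ← hu]
      exact Finset.sum_congr rfl fun i _ => (sq _).symm
    · rw [hw0, hw1, hin, if_neg h01, huv]
    · rw [hw0, hw1, hin, if_neg h01.symm, ← huv]
      exact Finset.sum_congr rfl fun i _ => mul_comm _ _
    · rw [hw1, hin, if_pos rfl, ← hv]
      exact Finset.sum_congr rfl fun i _ => (sq _).symm
  obtain ⟨b, hb⟩ := hon.exists_orthonormalBasis_extension_of_card_eq
    (by rw [finrank_euclideanSpace])
  let R : Matrix (Fin (n + 4)) (Fin (n + 4)) ℝ := fun i j => b i j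
  have hR : R * Rᵀ = 1 := by
    ext i j
    rw [Matrix.mul_apply, Matrix.one_apply]
    have h := orthonormal_iff_ite.1 b.orthonormal i j
    rw [← h, PiLp.inner_apply]
    refine Finset.sum_congr rfl fun k _ => ?_
    exact mul_comm _ _
  have hR0 : ∀ i, R 0 i = u i := by
    intro i
    have h := hb 0 (by simp)
    show b 0 i = u i
    rw [h, hw0]
  have hR1 : ∀ i, R 1 i = v i := by
    intro i
    have h := hb 1 (by simp)
    show b 1 i = v i
    rw [h, hw1]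
  have hd : R.det = 1 ∨ R.det = -1 := by
    have h := congrArg Matrix.det hR
    rw [Matrix.det_mul, Matrix.det_transpose, Matrix.det_one] at h
    exact mul_self_eq_one_iff.1 h
  rcases hd with hd | hd
  · exact ⟨R, hR, hd, hR0, hR1⟩
  · let D : Matrix (Fin (n + 4)) (Fin (n + 4)) ℝ :=
      Matrix.diagonal fun i => if i = Fin.last (n + 3) then (-1 : ℝ) else 1
    have hDD : D * Dᵀ = 1 := by
      simp only [D]
      rw [Matrix.diagonal_transpose, Matrix.diagonal_mul_diagonal, ← Matrix.diagonal_one]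
      congr 1
      funext i
      by_cases h : i = Fin.last (n + 3)
      · simp [h]
      · simp [h]
    have hDdet : D.det = -1 := by
      simp only [D]
      rw [Matrix.det_diagonal, Finset.prod_ite_eq' Finset.univ (Fin.last (n + 3))]
      simp
    have hDi : ∀ i : Fin (n + 4), i ≠ Fin.last (n + 3) → ∀ j, (D * R) i j = R i j := by
      intro i hi j
      simp only [D]
      rw [Matrix.diagonal_mul, if_neg hi, one_mul]
    refine ⟨D * R, ?_, ?_, ?_, ?_⟩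
    · rw [Matrix.transpose_mul, Matrix.mul_assoc, ← Matrix.mul_assoc R, hR, Matrix.one_mul, hDD]
    · rw [Matrix.det_mul, hDdet, hd]
      norm_num
    · intro i
      rw [hDi 0 (by rw [Ne, Fin.ext_iff]; simp) i, hR0]
    · intro i
      rw [hDi 1 (by rw [Ne, Fin.ext_iff]; simp) i, hR1]
-- END nf3

-- BEGIN nf4
/-- Rows nf1, nf2, nf3 (the rows `R j`, `j ≥ 2`, are orthogonal to `u = R 0` and `v = R 1`; for the second claim use that `X` is antisymmetric). -/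
theorem exists_block {n : ℕ} (X : Fin (n + 4) → Fin (n + 4) → ℝ) (hX : ∀ i j, X j i = -X i j) :
    ∃ R : Matrix (Fin (n + 4)) (Fin (n + 4)) ℝ, R * Rᵀ = 1 ∧ R.det = 1 ∧
      ∀ j : Fin (n + 4), 2 ≤ j.1 → (∑ i, ∑ k, R 0 i * R j k * X i k = 0) ∧
        (∑ i, ∑ k, R 1 i * R j k * X i k = 0) := by
  obtain ⟨u, v, hu, hv, huv, hm⟩ := exists_max_pair (n := n + 2) X
  obtain ⟨R, hR, hdet, h0, h1⟩ := exists_rot_pair (n := n) u v hu hv huv
  refine ⟨R, hR, hdet, fun j hj => ?_⟩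
  have horth : ∀ a b : Fin (n + 4), a ≠ b → ∑ i, R a i * R b i = 0 := by
    intro a b hab
    have h2 := congrFun (congrFun hR a) b
    rw [Matrix.mul_apply, Matrix.one_apply_ne hab] at h2
    simpa [Matrix.transpose_apply] using h2
  have hj0 : (0 : Fin (n + 4)) ≠ j := by
    intro h
    rw [← h] at hj
    simp at hj
  have hj1 : (1 : Fin (n + 4)) ≠ j := by
    intro h
    rw [← h] at hj
    simp at hj
  have hu' : R 0 = u := funext h0
  have hv' : R 1 = v := funext h1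
  have o0 := horth 0 j hj0
  have o1 := horth 1 j hj1
  rw [hu'] at o0
  rw [hv'] at o1
  obtain ⟨f1, f2⟩ := first_order (n := n + 2) X u v hu hv huv hm (R j) o0 o1
  rw [hu', hv']
  refine ⟨f1, ?_⟩
  have e : ∑ i, ∑ k, v i * R j k * X i k = -∑ i, ∑ k, R j i * v k * X i k := by
    rw [Finset.sum_comm, ← Finset.sum_neg_distrib]
    refine Finset.sum_congr rfl fun i _ => ?_
    rw [← Finset.sum_neg_distrib]
    refine Finset.sum_congr rfl fun k _ => ?_
    rw [hX i k]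
    ring
  rw [e, f2, neg_zero]
-- END nf4

-- BEGIN nf5
private theorem nf5_mat (R : Matrix (Fin (1 + 5)) (Fin (1 + 5)) ℝ)
    (A : Fin (1 + 5) → Fin (1 + 5) → ℝ) (a b : Fin (1 + 5)) :
    rot R A a b = (R * Matrix.of A * Rᵀ) a b := by
  simp only [rot, Matrix.mul_apply, Matrix.transpose_apply, Matrix.of_apply, Finset.sum_mul]
  rw [Finset.sum_comm]
  refine Finset.sum_congr rfl fun i _ => Finset.sum_congr rfl fun j _ => ?_
  ring

private theorem nf5_mul (M R : Matrix (Fin (1 + 5)) (Fin (1 + 5)) ℝ)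
    (A : Fin (1 + 5) → Fin (1 + 5) → ℝ) : rot (M * R) A = rot M (rot R A) := by
  have h : Matrix.of (rot R A) = R * Matrix.of A * Rᵀ := by
    ext a b
    exact nf5_mat R A a b
  funext a b
  rw [nf5_mat, nf5_mat, h, Matrix.transpose_mul]
  simp only [Matrix.mul_assoc]

private def nf5_e : Fin 2 ⊕ Fin 4 ≃ Fin (1 + 5) :=
  (finSumFinEquiv : Fin 2 ⊕ Fin 4 ≃ Fin (2 + 4)).trans (finCongr (by norm_num))

private theorem nf5_el (a : Fin 2) : (nf5_e (Sum.inl a)).1 = a.1 := rfl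

private theorem nf5_er (a : Fin 4) : (nf5_e (Sum.inr a)).1 = 2 + a.1 := rfl

private noncomputable def nf5_M (R : Matrix (Fin 4) (Fin 4) ℝ) :
    Matrix (Fin (1 + 5)) (Fin (1 + 5)) ℝ :=
  (Matrix.fromBlocks (1 : Matrix (Fin 2) (Fin 2) ℝ) 0 0 R).submatrix nf5_e.symm nf5_e.symm

private theorem nf5_Mo (R : Matrix (Fin 4) (Fin 4) ℝ) (h : R * Rᵀ = 1) :
    nf5_M R * (nf5_M R)ᵀ = 1 := by
  unfold nf5_M
  rw [Matrix.transpose_submatrix, Matrix.submatrix_mul_equiv, Matrix.fromBlocks_transpose,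
    Matrix.fromBlocks_multiply, h]
  simp

private theorem nf5_Md (R : Matrix (Fin 4) (Fin 4) ℝ) (h : R.det = 1) : (nf5_M R).det = 1 := by
  unfold nf5_M
  rw [Matrix.det_submatrix_equiv_self, Matrix.det_fromBlocks_zero₁₂, h, Matrix.det_one, one_mul]

private theorem nf5_rot (R : Matrix (Fin 4) (Fin 4) ℝ) (Y : Fin (1 + 5) → Fin (1 + 5) → ℝ)
    (x y : Fin 2 ⊕ Fin 4) : rot (nf5_M R) Y (nf5_e x) (nf5_e y) =
      ∑ u, ∑ v, Matrix.fromBlocks (1 : Matrix (Fin 2) (Fin 2) ℝ) 0 0 R x u *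
        Matrix.fromBlocks (1 : Matrix (Fin 2) (Fin 2) ℝ) 0 0 R y v * Y (nf5_e u) (nf5_e v) := by
  unfold rot
  rw [← Equiv.sum_comp nf5_e]
  refine Finset.sum_congr rfl fun u _ => ?_
  rw [← Equiv.sum_comp nf5_e]
  refine Finset.sum_congr rfl fun v _ => ?_
  simp only [nf5_M, Matrix.submatrix_apply, Equiv.symm_apply_apply]

/-- Row nf4 with `n = 2` (`Fin 6`) gives `R1`, then row nf4 with `n = 0` for the lower `4 × 4` block of `rot R1 X` gives `R2`; `R = M * R1` with `M` the block matrix of `1` and `R2` (`Matrix.fromBlocks` reindexed, or entries by cases), `rot (M * R1) X = rot M (rot R1 X)`. -/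
theorem nf_six (X : Fin (1 + 5) → Fin (1 + 5) → ℝ) (hX : Asym X) :
    ∃ R : Matrix (Fin (1 + 5)) (Fin (1 + 5)) ℝ, R * Rᵀ = 1 ∧ R.det = 1 ∧ Diag (rot R X) := by
  have h6 : ∃ R : Matrix (Fin (1 + 5)) (Fin (1 + 5)) ℝ, R * Rᵀ = 1 ∧ R.det = 1 ∧
      ∀ j : Fin (1 + 5), 2 ≤ j.1 → (∑ i, ∑ k, R 0 i * R j k * X i k = 0) ∧
        (∑ i, ∑ k, R 1 i * R j k * X i k = 0) := exists_block (n := 2) X hX
  obtain ⟨R1, ho1, hd1, h1⟩ := h6
  have hY : Asym (rot R1 X) := (rot_props R1 ho1 X).1 hX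
  have hY0 : ∀ (a : Fin 2) (b : Fin 4),
      rot R1 X (nf5_e (Sum.inl a)) (nf5_e (Sum.inr b)) = 0 := by
    intro a b
    have hb : 2 ≤ (nf5_e (Sum.inr b)).1 := by
      rw [nf5_er]
      omega
    have h2 := h1 (nf5_e (Sum.inr b)) hb
    fin_cases a
    · exact h2.1
    · exact h2.2
  have h4 : ∃ R : Matrix (Fin 4) (Fin 4) ℝ, R * Rᵀ = 1 ∧ R.det = 1 ∧
      ∀ j : Fin 4, 2 ≤ j.1 →
        (∑ i, ∑ k, R 0 i * R j k * rot R1 X (nf5_e (Sum.inr i)) (nf5_e (Sum.inr k)) = 0) ∧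
        (∑ i, ∑ k, R 1 i * R j k * rot R1 X (nf5_e (Sum.inr i)) (nf5_e (Sum.inr k)) = 0) :=
    exists_block (n := 0) (fun i k => rot R1 X (nf5_e (Sum.inr i)) (nf5_e (Sum.inr k)))
      (fun i k => hY _ _)
  obtain ⟨R2, ho2, hd2, h2⟩ := h4
  have hA : Asym (rot (nf5_M R2) (rot R1 X)) := (rot_props _ (nf5_Mo R2 ho2) _).1 hY
  have key : ∀ a b : Fin (1 + 5), a.1 / 2 < b.1 / 2 → rot (nf5_M R2) (rot R1 X) a b = 0 := by
    intro a b hab
    obtain ⟨x, rfl⟩ := nf5_e.surjective a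
    obtain ⟨y, rfl⟩ := nf5_e.surjective b
    rcases x with x | x
    · rcases y with y | y
      · exfalso
        rw [nf5_el, nf5_el] at hab
        omega
      · rw [nf5_rot]
        simp only [Fintype.sum_sum_type, Matrix.fromBlocks_apply₁₁, Matrix.fromBlocks_apply₁₂,
          Matrix.fromBlocks_apply₂₁, Matrix.fromBlocks_apply₂₂, hY0, Matrix.zero_apply, zero_mul,
          mul_zero, Finset.sum_const_zero, add_zero]
    · rcases y with y | y
      · exfalso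
        rw [nf5_el, nf5_er] at hab
        omega
      · rw [nf5_er, nf5_er] at hab
        have hy : 2 ≤ y.1 := by omega
        have hx : x = 0 ∨ x = 1 := by
          have hx1 : x.1 < 2 := by omega
          rcases Nat.lt_succ_iff_lt_or_eq.1 hx1 with h | h
          · left
            ext
            simp
            omega
          · right
            ext
            simpa using h
        rw [nf5_rot]
        simp only [Fintype.sum_sum_type, Matrix.fromBlocks_apply₁₁, Matrix.fromBlocks_apply₁₂,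
          Matrix.fromBlocks_apply₂₁, Matrix.fromBlocks_apply₂₂, Matrix.zero_apply, zero_mul,
          mul_zero, Finset.sum_const_zero, zero_add]
        rcases hx with rfl | rfl
        · exact (h2 y hy).1
        · exact (h2 y hy).2
  refine ⟨nf5_M R2 * R1, ?_, ?_, ?_⟩
  · rw [Matrix.transpose_mul, Matrix.mul_assoc, ← Matrix.mul_assoc R1, ho1, Matrix.one_mul,
      nf5_Mo R2 ho2]
  · rw [Matrix.det_mul, nf5_Md R2 hd2, hd1, one_mul]
  · intro a b hab
    rw [nf5_mul]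
    rcases Nat.lt_or_gt_of_ne hab with h | h
    · exact key a b h
    · rw [hA b a, key b a h, neg_zero]
-- END nf5

-- BEGIN dgp
theorem dgp_sg_mul (σ s : Equiv.Perm (Fin (1 + 5))) : sg (σ * s) = sg σ * sg s := by
  unfold sg
  rw [Equiv.Perm.sign_mul, Units.val_mul, Int.cast_mul]

theorem dgp_sg_sq (σ : Equiv.Perm (Fin (1 + 5))) : sg σ * sg σ = 1 := by
  unfold sg
  rw [← Int.cast_mul, ← Units.val_mul, Int.units_mul_self, Units.val_one, Int.cast_one]

/-- Reindex the sum over `s` in `T6` by `s ↦ σ * s` (`σ (s r)`), sign `sg σ * sg s`. -/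
theorem T6_perm (σ : Equiv.Perm (Fin (1 + 5))) (A B Z : Fin (1 + 5) → Fin (1 + 5) → ℝ) :
    T6 (fun a b => A (σ a) (σ b)) (fun a b => B (σ a) (σ b)) (fun a b => Z (σ a) (σ b)) =
      sg σ * T6 A B Z := by
  have h1 : ∑ s : Equiv.Perm (Fin (1 + 5)), sg s * (A (s 0) (s 1) * (B (s 2) (s 3) * Z (s 4) (s 5))) =
      ∑ s : Equiv.Perm (Fin (1 + 5)), sg (σ * s) *
        (A (σ (s 0)) (σ (s 1)) * (B (σ (s 2)) (σ (s 3)) * Z (σ (s 4)) (σ (s 5)))) :=
    (Equiv.sum_comp (Equiv.mulLeft σ) fun s : Equiv.Perm (Fin (1 + 5)) =>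
      sg s * (A (s 0) (s 1) * (B (s 2) (s 3) * Z (s 4) (s 5)))).symm
  unfold T6
  rw [h1, mul_left_comm, Finset.mul_sum _ _ (sg σ)]
  congr 1
  refine Finset.sum_congr rfl fun s _ => ?_
  rw [dgp_sg_mul, ← mul_assoc (sg σ) (sg σ * sg s), ← mul_assoc (sg σ) (sg σ), dgp_sg_sq, one_mul]
-- END dgp

-- BEGIN dg0
private theorem dg0_sg (a b c d : Fin (1 + 5)) (hab : a ≠ b) (hcd : c ≠ d) :
    sg (Equiv.swap a b * Equiv.swap c d) = 1 := by
  unfold sg
  rw [Equiv.Perm.sign_mul, Equiv.Perm.sign_swap hab, Equiv.Perm.sign_swap hcd]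
  norm_num

/-- `E01` -/
private noncomputable def dg0_E (a b : Fin (1 + 5)) : ℝ :=
  (if a = 0 then 1 else 0) * (if b = 1 then 1 else 0) -
    (if b = 0 then 1 else 0) * (if a = 1 then 1 else 0)

private theorem dg0_vN (A Z : Fin (1 + 5) → Fin (1 + 5) → ℝ) (hA : Asym A) (hZ : Asym Z) :
    T6 dg0_E A Z = six A Z := by
  have h : (fun a b => vN (q := 1) (pr a b)) = dg0_E := by
    funext a b
    exact (Matrix.det_fin_two (R := ℝ) _).trans rfl
  rw [← h, ← tri_T6, tri_vN A Z hA hZ]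

private theorem dg0_smul (c : ℝ) (A X Y : Fin (1 + 5) → Fin (1 + 5) → ℝ) :
    T6 (fun a b => c * A a b) X Y = c * T6 A X Y := by
  unfold T6
  simp only [Finset.mul_sum]
  refine Finset.sum_congr rfl fun s _ => ?_
  ring

private theorem dg0_eq (a b : Fin (1 + 5)) (h : a = 0 ∧ b = 1) : dg0_E a b = 1 := by
  obtain ⟨rfl, rfl⟩ := h
  unfold dg0_E
  rw [if_pos rfl, if_pos rfl, if_neg (by decide)]
  norm_num

private theorem dg0_eq' (a b : Fin (1 + 5)) (h : a = 1 ∧ b = 0) : dg0_E a b = -1 := by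
  obtain ⟨rfl, rfl⟩ := h
  unfold dg0_E
  rw [if_neg (by decide), if_pos rfl, if_pos rfl]
  norm_num

private theorem dg0_z (a b : Fin (1 + 5)) (h : ¬(a = 0 ∧ b = 1)) (h' : ¬(a = 1 ∧ b = 0)) :
    dg0_E a b = 0 := by
  have e1 : (if a = 0 then (1 : ℝ) else 0) * (if b = 1 then 1 else 0) = 0 := by
    by_cases ha : a = 0
    · rw [if_neg fun hb => h ⟨ha, hb⟩, mul_zero]
    · rw [if_neg ha, zero_mul]
  have e2 : (if b = 0 then (1 : ℝ) else 0) * (if a = 1 then 1 else 0) = 0 := by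
    by_cases ha : a = 1
    · rw [if_neg fun hb => h' ⟨ha, hb⟩, zero_mul]
    · rw [if_neg ha, mul_zero]
  unfold dg0_E
  rw [e1, e2, sub_zero]

/-- `(0 2)(1 3)` -/
private def dg0_s : Equiv.Perm (Fin (1 + 5)) := Equiv.swap 0 2 * Equiv.swap 1 3

/-- `(0 4)(1 5)` -/
private def dg0_t : Equiv.Perm (Fin (1 + 5)) := Equiv.swap 0 4 * Equiv.swap 1 5

private theorem dg0_dec (σ τ : Equiv.Perm (Fin (1 + 5))) (hσ : σ = dg0_s) (hτ : τ = dg0_t)
    (B : Fin (1 + 5) → Fin (1 + 5) → ℝ) (hB : Asym B) (hD : Diag B) (a b : Fin (1 + 5)) :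
    B a b = B 0 1 * dg0_E a b + B 2 3 * dg0_E (σ a) (σ b) + B 4 5 * dg0_E (τ a) (τ b) := by
  subst hσ hτ
  have hk : ∀ a b : Fin (1 + 5), a.1 / 2 = b.1 / 2 → a = b ∨ (a = 0 ∧ b = 1) ∨ (a = 1 ∧ b = 0) ∨
      (a = 2 ∧ b = 3) ∨ (a = 3 ∧ b = 2) ∨ (a = 4 ∧ b = 5) ∨ (a = 5 ∧ b = 4) := by decide
  have hn : ∀ a b : Fin (1 + 5), a.1 / 2 ≠ b.1 / 2 ∨ a = b → ¬(a = 0 ∧ b = 1) ∧ ¬(a = 1 ∧ b = 0) ∧
      ¬(dg0_s a = 0 ∧ dg0_s b = 1) ∧ ¬(dg0_s a = 1 ∧ dg0_s b = 0) ∧
      ¬(dg0_t a = 0 ∧ dg0_t b = 1) ∧ ¬(dg0_t a = 1 ∧ dg0_t b = 0) := by decide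
  by_cases hab : a.1 / 2 ≠ b.1 / 2 ∨ a = b
  · obtain ⟨n1, n2, n3, n4, n5, n6⟩ := hn a b hab
    rw [dg0_z _ _ n1 n2, dg0_z _ _ n3 n4, dg0_z _ _ n5 n6]
    have : B a b = 0 := by
      rcases hab with hab | hab
      · exact hD a b hab
      · subst hab
        have := hB a a
        linarith
    rw [this]
    ring
  · push Not at hab
    rcases hk a b hab.1 with h | ⟨rfl, rfl⟩ | ⟨rfl, rfl⟩ | ⟨rfl, rfl⟩ | ⟨rfl, rfl⟩ | ⟨rfl, rfl⟩ | ⟨rfl, rfl⟩
    · exact absurd h hab.2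
    · rw [dg0_eq _ _ (by decide), dg0_z _ _ (by decide) (by decide), dg0_z _ _ (by decide) (by decide)]
      ring
    · rw [dg0_eq' _ _ (by decide), dg0_z _ _ (by decide) (by decide), dg0_z _ _ (by decide) (by decide), hB 0 1]
      ring
    · rw [dg0_z 2 3 (by decide) (by decide), dg0_eq _ _ (by decide), dg0_z _ _ (by decide) (by decide)]
      ring
    · rw [dg0_z 3 2 (by decide) (by decide), dg0_eq' _ _ (by decide), dg0_z _ _ (by decide) (by decide), hB 2 3]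
      ring
    · rw [dg0_z 4 5 (by decide) (by decide), dg0_z _ _ (by decide) (by decide), dg0_eq _ _ (by decide)]
      ring
    · rw [dg0_z 5 4 (by decide) (by decide), dg0_z _ _ (by decide) (by decide), dg0_eq' _ _ (by decide), hB 4 5]
      ring

/-- `B = B 0 1 • E01 + B 2 3 • E23 + B 4 5 • E45` with `E01` the array `vN` of `Oae.Lin` (`E01 a b = vN (pr a b)`: `tri_T6`, `tri_vN`: `T6 E01 A Z = six A Z = q4 A Z 2 3 4 5`); the other two by row dgp with `σ = (0 2)(1 3)` and `(0 4)(1 5)` (even). `T6` is symmetric and additive (`T6_symm`). -/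
theorem T6_diag (A B Z : Fin (1 + 5) → Fin (1 + 5) → ℝ) (hA : Asym A) (hB : Asym B)
    (hZ : Asym Z) (hD : Diag B) : T6 A B Z =
      B 0 1 * q4 A Z 2 3 4 5 + B 2 3 * q4 A Z 0 1 4 5 + B 4 5 * q4 A Z 0 1 2 3 := by
  obtain ⟨σ, hσ⟩ : ∃ σ : Equiv.Perm (Fin (1 + 5)), σ = dg0_s := ⟨_, rfl⟩
  obtain ⟨τ, hτ⟩ : ∃ τ : Equiv.Perm (Fin (1 + 5)), τ = dg0_t := ⟨_, rfl⟩
  have hdec := dg0_dec σ τ hσ hτ B hB hD
  have sσ : sg σ = 1 := by
    rw [hσ]
    exact dg0_sg _ _ _ _ (by decide) (by decide)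
  have sτ : sg τ = 1 := by
    rw [hτ]
    exact dg0_sg _ _ _ _ (by decide) (by decide)
  have iσ : ∀ a, σ (σ a) = a := by
    rw [hσ]
    decide
  have iτ : ∀ a, τ (τ a) = a := by
    rw [hτ]
    decide
  have e1 : B = fun a b => (fun a b => (fun a b => B 0 1 * dg0_E a b) a b +
      (fun a b => B 2 3 * (fun a b => dg0_E (σ a) (σ b)) a b) a b) a b +
        (fun a b => B 4 5 * (fun a b => dg0_E (τ a) (τ b)) a b) a b := by
    funext a b
    exact hdec a b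
  have p1 : T6 (fun a b => dg0_E (σ a) (σ b)) A Z =
      six (fun a b => A (σ a) (σ b)) (fun a b => Z (σ a) (σ b)) := by
    have h := T6_perm σ dg0_E (fun a b => A (σ a) (σ b)) (fun a b => Z (σ a) (σ b))
    simp only [iσ] at h
    rw [h, sσ, one_mul]
    exact dg0_vN _ _ (fun a b => hA _ _) (fun a b => hZ _ _)
  have p2 : T6 (fun a b => dg0_E (τ a) (τ b)) A Z =
      six (fun a b => A (τ a) (τ b)) (fun a b => Z (τ a) (τ b)) := by
    have h := T6_perm τ dg0_E (fun a b => A (τ a) (τ b)) (fun a b => Z (τ a) (τ b))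
    simp only [iτ] at h
    rw [h, sτ, one_mul]
    exact dg0_vN _ _ (fun a b => hA _ _) (fun a b => hZ _ _)
  have q1 : T6 B A Z = B 0 1 * T6 dg0_E A Z + B 2 3 * T6 (fun a b => dg0_E (σ a) (σ b)) A Z +
      B 4 5 * T6 (fun a b => dg0_E (τ a) (τ b)) A Z := by
    refine (congrArg (fun C => T6 C A Z) e1).trans ?_
    refine ((T6_symm _ A Z _).2.2).trans ?_
    refine congrArg₂ (· + ·) ?_ (dg0_smul _ _ _ _)
    refine ((T6_symm _ A Z _).2.2).trans ?_
    exact congrArg₂ (· + ·) (dg0_smul _ _ _ _) (dg0_smul _ _ _ _)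
  have t0 : (tl 0 : Fin (1 + 5)) = 2 := rfl
  have t1 : (tl 1 : Fin (1 + 5)) = 3 := rfl
  have t2 : (tl 2 : Fin (1 + 5)) = 4 := rfl
  have t3 : (tl 3 : Fin (1 + 5)) = 5 := rfl
  have s2 : σ 2 = 0 := by rw [hσ]; decide
  have s3 : σ 3 = 1 := by rw [hσ]; decide
  have s4 : σ 4 = 4 := by rw [hσ]; decide
  have s5 : σ 5 = 5 := by rw [hσ]; decide
  have r2 : τ 2 = 2 := by rw [hτ]; decide
  have r3 : τ 3 = 3 := by rw [hτ]; decide
  have r4 : τ 4 = 0 := by rw [hτ]; decide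
  have r5 : τ 5 = 1 := by rw [hτ]; decide
  rw [(T6_symm A B Z A).1, q1, p1, p2, dg0_vN A Z hA hZ]
  unfold six q4
  simp only [t0, t1, t2, t3, s2, s3, s4, s5, r2, r3, r4, r5]
  rw [hA 0 2, hA 0 3, hA 1 2, hA 1 3, hZ 0 2, hZ 0 3, hZ 1 2, hZ 1 3]
  ring
-- END dg0

-- BEGIN dg1
/-- Expand the sums over `Fin 6`. -/
theorem ip_diag (A Z : Fin (1 + 5) → Fin (1 + 5) → ℝ) (hA : Asym A) (hZ : Asym Z)
    (hD : Diag A) : ip A Z = A 0 1 * Z 0 1 + A 2 3 * Z 2 3 + A 4 5 * Z 4 5 := by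
  have hs : ∀ f : Fin (1 + 5) → ℝ, ∑ a, f a = f 0 + f 1 + f 2 + f 3 + f 4 + f 5 :=
    fun f => Fin.sum_univ_six f
  have hz : ∀ a, A a a = 0 := fun a => by
    have := hA a a
    linarith
  unfold ip
  simp only [hs, hz]
  rw [hD 0 2 (by decide), hD 0 3 (by decide), hD 0 4 (by decide), hD 0 5 (by decide),
    hD 1 2 (by decide), hD 1 3 (by decide), hD 1 4 (by decide), hD 1 5 (by decide),
    hD 2 0 (by decide), hD 2 1 (by decide), hD 2 4 (by decide), hD 2 5 (by decide),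
    hD 3 0 (by decide), hD 3 1 (by decide), hD 3 4 (by decide), hD 3 5 (by decide),
    hD 4 0 (by decide), hD 4 1 (by decide), hD 4 2 (by decide), hD 4 3 (by decide),
    hD 5 0 (by decide), hD 5 1 (by decide), hD 5 2 (by decide), hD 5 3 (by decide),
    hA 0 1, hA 2 3, hA 4 5, hZ 0 1, hZ 2 3, hZ 4 5]
  ring
-- END dg1

-- BEGIN sl1
/-- the array `E p r` -/
private def sl1_E (p r a b : Fin (1 + 5)) : ℝ :=
  (if a = p ∧ b = r then 1 else 0) - (if a = r ∧ b = p then 1 else 0)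

private theorem sl1_asym (p r : Fin (1 + 5)) : Asym (sl1_E p r) := by
  intro a b
  unfold sl1_E
  rw [neg_sub]
  congr 1
  · simp only [and_comm]
  · simp only [and_comm]

private theorem sl1_lt (A : Fin (1 + 5) → Fin (1 + 5) → ℝ) (h : Lt6 A) (p r : Fin (1 + 5))
    (hpr : p ≠ r) : A p r < 1 := by
  have h1 := h (fun i => if i = p then 1 else 0) (fun i => if i = r then 1 else 0)
    (by simp) (by simp) (by simp [hpr.symm])
  simpa using h1

private theorem sl1_sq (A : Fin (1 + 5) → Fin (1 + 5) → ℝ) (hA : Asym A) (h : Lt6 A)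
    (p r : Fin (1 + 5)) (hpr : p ≠ r) : A p r ^ 2 < 1 := by
  have h1 := sl1_lt A h p r hpr
  have h2 := sl1_lt A h r p hpr.symm
  rw [hA p r] at h2
  nlinarith

private theorem sl1_two {a x y : ℝ} (ha : a ^ 2 < 1) (h1 : x + a * y = 0) (h2 : y + a * x = 0) :
    x = 0 ∧ y = 0 := by
  have h3 : x * (1 - a ^ 2) = 0 := by linear_combination h1 - a * h2
  have h4 : x = 0 := by
    rcases mul_eq_zero.1 h3 with h5 | h5
    · exact h5
    · linarith
  refine ⟨h4, ?_⟩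
  rw [h4] at h2
  linarith

private theorem sl1_eq (A X : Fin (1 + 5) → Fin (1 + 5) → ℝ) (hA : Asym A)
    (hX : Asym X) (hD : Diag X) (hs : Sol A X) (p r : Fin (1 + 5)) :
    X 0 1 * sl1_E p r 0 1 + X 2 3 * sl1_E p r 2 3 + X 4 5 * sl1_E p r 4 5 +
      (X 0 1 * q4 A (sl1_E p r) 2 3 4 5 + X 2 3 * q4 A (sl1_E p r) 0 1 4 5 +
        X 4 5 * q4 A (sl1_E p r) 0 1 2 3) = 0 := by
  have h1 := hs (sl1_E p r) (sl1_asym p r)
  rwa [ip_diag X _ hX (sl1_asym p r) hD, T6_diag A X _ hA hX (sl1_asym p r) hD] at h1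

private theorem sl1_zero (X : Fin (1 + 5) → Fin (1 + 5) → ℝ) (hX : Asym X) (hD : Diag X)
    (h1 : X 0 1 = 0) (h2 : X 2 3 = 0) (h3 : X 4 5 = 0) : X = 0 := by
  have hd : ∀ a, X a a = 0 := fun a => by
    have := hX a a
    linarith
  have h1' : X 1 0 = 0 := by rw [hX 0 1, h1, neg_zero]
  have h2' : X 3 2 = 0 := by rw [hX 2 3, h2, neg_zero]
  have h3' : X 5 4 = 0 := by rw [hX 4 5, h3, neg_zero]
  funext a b
  show X a b = 0
  by_cases hab : a.1 / 2 = b.1 / 2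
  · fin_cases a <;> fin_cases b <;>
      first
        | exact hd _
        | exact h1
        | exact h2
        | exact h3
        | exact h1'
        | exact h2'
        | exact h3'
        | exact absurd hab (by decide)
  · exact hD a b hab

/-- Test `hs` with `Y = E a b` (`1` at `(a, b)`, `-1` at `(b, a)`; row dg0 with `B = X`, row dg1). The pairs `(0, 1)`, `(2, 3)`, `(4, 5)` give the three equations, the pair `(0, 2)` gives `A 1 3 * X 4 5 = 0`, and so on for all twelve off-diagonal pairs. If `X 4 5 = 0` the equations give `X 0 1 = A 4 5 ^ 2 * X 0 1`, and `|A 4 5| < 1` by `h` (basis vectors, both orders), so `X 0 1 = X 2 3 = 0` and `X = 0`; the same for the other two. -/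
theorem sol_diag_one (A X : Fin (1 + 5) → Fin (1 + 5) → ℝ) (hA : Asym A) (h : Lt6 A)
    (hX : Asym X) (hD : Diag X) (hs : Sol A X) (h0 : X ≠ 0) :
    X 0 1 ≠ 0 ∧ X 2 3 ≠ 0 ∧ X 4 5 ≠ 0 ∧ Diag A ∧
      X 0 1 + (A 2 3 * X 4 5 + A 4 5 * X 2 3) = 0 ∧
      X 2 3 + (A 0 1 * X 4 5 + A 4 5 * X 0 1) = 0 ∧
      X 4 5 + (A 0 1 * X 2 3 + A 2 3 * X 0 1) = 0 := by
  have key := sl1_eq A X hA hX hD hs
  have e01 := key 0 1
  have e23 := key 2 3
  have e45 := key 4 5
  have e02 := key 0 2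
  have e03 := key 0 3
  have e12 := key 1 2
  have e13 := key 1 3
  have e04 := key 0 4
  have e05 := key 0 5
  have e14 := key 1 4
  have e15 := key 1 5
  have e24 := key 2 4
  have e25 := key 2 5
  have e34 := key 3 4
  have e35 := key 3 5
  clear key
  simp (decide := true) only [sl1_E, q4, if_true, if_false,
    mul_zero, mul_one, sub_zero, zero_sub, add_zero, zero_add] at e01 e23 e45 e02 e03 e12 e13 e04 e05 e14 e15 e24 e25 e34 e35
  have a01 : X 0 1 + (A 2 3 * X 4 5 + A 4 5 * X 2 3) = 0 := by linarith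
  have a23 : X 2 3 + (A 0 1 * X 4 5 + A 4 5 * X 0 1) = 0 := by linarith
  have a45 : X 4 5 + (A 0 1 * X 2 3 + A 2 3 * X 0 1) = 0 := by linarith
  have n45 : X 4 5 ≠ 0 := by
    intro hz
    rw [hz] at a01 a23
    obtain ⟨h1, h2⟩ := sl1_two (sl1_sq A hA h 4 5 (by decide)) (x := X 0 1) (y := X 2 3)
      (by linarith) (by linarith)
    exact h0 (sl1_zero X hX hD h1 h2 hz)
  have n23 : X 2 3 ≠ 0 := by
    intro hz
    rw [hz] at a01 a45
    obtain ⟨h1, h2⟩ := sl1_two (sl1_sq A hA h 2 3 (by decide)) (x := X 0 1) (y := X 4 5)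
      (by linarith) (by linarith)
    exact h0 (sl1_zero X hX hD h1 hz h2)
  have n01 : X 0 1 ≠ 0 := by
    intro hz
    rw [hz] at a23 a45
    obtain ⟨h1, h2⟩ := sl1_two (sl1_sq A hA h 0 1 (by decide)) (x := X 2 3) (y := X 4 5)
      (by linarith) (by linarith)
    exact h0 (sl1_zero X hX hD hz h1 h2)
  have c13 : A 1 3 = 0 := (mul_eq_zero.1 (show X 4 5 * A 1 3 = 0 by linarith)).resolve_left n45
  have c12 : A 1 2 = 0 := (mul_eq_zero.1 (show X 4 5 * A 1 2 = 0 by linarith)).resolve_left n45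
  have c03 : A 0 3 = 0 := (mul_eq_zero.1 (show X 4 5 * A 0 3 = 0 by linarith)).resolve_left n45
  have c02 : A 0 2 = 0 := (mul_eq_zero.1 (show X 4 5 * A 0 2 = 0 by linarith)).resolve_left n45
  have c15 : A 1 5 = 0 := (mul_eq_zero.1 (show X 2 3 * A 1 5 = 0 by linarith)).resolve_left n23
  have c14 : A 1 4 = 0 := (mul_eq_zero.1 (show X 2 3 * A 1 4 = 0 by linarith)).resolve_left n23
  have c05 : A 0 5 = 0 := (mul_eq_zero.1 (show X 2 3 * A 0 5 = 0 by linarith)).resolve_left n23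
  have c04 : A 0 4 = 0 := (mul_eq_zero.1 (show X 2 3 * A 0 4 = 0 by linarith)).resolve_left n23
  have c35 : A 3 5 = 0 := (mul_eq_zero.1 (show X 0 1 * A 3 5 = 0 by linarith)).resolve_left n01
  have c34 : A 3 4 = 0 := (mul_eq_zero.1 (show X 0 1 * A 3 4 = 0 by linarith)).resolve_left n01
  have c25 : A 2 5 = 0 := (mul_eq_zero.1 (show X 0 1 * A 2 5 = 0 by linarith)).resolve_left n01
  have c24 : A 2 4 = 0 := (mul_eq_zero.1 (show X 0 1 * A 2 4 = 0 by linarith)).resolve_left n01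
  have d13 : A 3 1 = 0 := by rw [hA 1 3, c13, neg_zero]
  have d12 : A 2 1 = 0 := by rw [hA 1 2, c12, neg_zero]
  have d03 : A 3 0 = 0 := by rw [hA 0 3, c03, neg_zero]
  have d02 : A 2 0 = 0 := by rw [hA 0 2, c02, neg_zero]
  have d15 : A 5 1 = 0 := by rw [hA 1 5, c15, neg_zero]
  have d14 : A 4 1 = 0 := by rw [hA 1 4, c14, neg_zero]
  have d05 : A 5 0 = 0 := by rw [hA 0 5, c05, neg_zero]
  have d04 : A 4 0 = 0 := by rw [hA 0 4, c04, neg_zero]
  have d35 : A 5 3 = 0 := by rw [hA 3 5, c35, neg_zero]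
  have d34 : A 4 3 = 0 := by rw [hA 3 4, c34, neg_zero]
  have d25 : A 5 2 = 0 := by rw [hA 2 5, c25, neg_zero]
  have d24 : A 4 2 = 0 := by rw [hA 2 4, c24, neg_zero]
  refine ⟨n01, n23, n45, ?_, a01, a23, a45⟩
  intro a b hab
  fin_cases a <;> fin_cases b <;>
    first
      | exact absurd rfl hab
      | assumption
-- END sl1

-- BEGIN sl2
private def sl2_E (p q : Fin (1 + 5)) (i j : Fin (1 + 5)) : ℝ :=
  (if i = p ∧ j = q then 1 else 0) - (if i = q ∧ j = p then 1 else 0)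

private theorem sl2_ip (Y : Fin (1 + 5) → Fin (1 + 5) → ℝ) (hY : Asym Y) (p q : Fin (1 + 5)) :
    ip Y (sl2_E p q) = Y p q := by
  have h1 : ∑ a, ∑ b, Y a b * sl2_E p q a b = Y p q - Y q p := by
    unfold sl2_E
    simp only [mul_sub, Finset.sum_sub_distrib, mul_ite, mul_one, mul_zero, ite_and]
    simp
  unfold ip
  rw [h1, hY p q]
  ring

private theorem sl2_test (A Y : Fin (1 + 5) → Fin (1 + 5) → ℝ) (hA : Asym A)
    (hD : Diag A) (hY : Asym Y) (hs : Sol A Y) (p q : Fin (1 + 5)) :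
    Y p q + (A 0 1 * q4 Y (sl2_E p q) 2 3 4 5 + A 2 3 * q4 Y (sl2_E p q) 0 1 4 5 +
      A 4 5 * q4 Y (sl2_E p q) 0 1 2 3) = 0 := by
  have hE : Asym (sl2_E p q) := by
    intro a b
    unfold sl2_E
    simp only [and_comm (a := b = p), and_comm (a := b = q)]
    ring
  have h := hs _ hE
  rw [sl2_ip Y hY, (T6_symm A Y (sl2_E p q) A).1, T6_diag Y A _ hY hA hE hD] at h
  exact h

private theorem sl2_lt (A : Fin (1 + 5) → Fin (1 + 5) → ℝ) (h : Lt6 A) (p q : Fin (1 + 5))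
    (hpq : p ≠ q) : A p q < 1 := by
  have h1 := h (fun i => if i = p then 1 else 0) (fun i => if i = q then 1 else 0)
    (by simp) (by simp) (by simp [hpq.symm])
  simpa using h1

private theorem sl2_sq (A : Fin (1 + 5) → Fin (1 + 5) → ℝ) (hA : Asym A) (h : Lt6 A)
    (p q : Fin (1 + 5)) (hpq : p ≠ q) : A p q ^ 2 < 1 := by
  have h1 := sl2_lt A h p q hpq
  have h2 := sl2_lt A h q p hpq.symm
  rw [hA p q] at h2
  nlinarith

private theorem sl2_zero {l u v : ℝ} (hl : l ^ 2 < 1) (h1 : u = l * v) (h2 : v = l * u) :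
    u = 0 ∧ v = 0 := by
  have h3 : (1 - l ^ 2) * u = 0 := by
    rw [h2] at h1
    linear_combination h1
  have h4 : u = 0 := by
    rcases mul_eq_zero.1 h3 with h | h
    · linarith
    · exact h
  exact ⟨h4, by rw [h2, h4, mul_zero]⟩

/-- Test with `E a b` as in row sl1; `T6 A Y E = T6 Y A E` (`T6_symm`), row dg0 with `B = A`. The pairs `(0, 2)`, `(1, 3)` give `Y 0 2 = A 4 5 * Y 1 3`, `Y 1 3 = A 4 5 * Y 0 2`, so both are `0` (`A 4 5 ^ 2 < 1`); the same for the other off-diagonal pairs. -/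
theorem sol_diag_two (A Y : Fin (1 + 5) → Fin (1 + 5) → ℝ) (hA : Asym A) (h : Lt6 A)
    (hD : Diag A) (hY : Asym Y) (hs : Sol A Y) :
    Diag Y ∧ Y 0 1 + (A 2 3 * Y 4 5 + A 4 5 * Y 2 3) = 0 ∧
      Y 2 3 + (A 0 1 * Y 4 5 + A 4 5 * Y 0 1) = 0 ∧
      Y 4 5 + (A 0 1 * Y 2 3 + A 2 3 * Y 0 1) = 0 := by
  have a1 := sl2_sq A hA h 0 1 (by decide)
  have a2 := sl2_sq A hA h 2 3 (by decide)
  have a3 := sl2_sq A hA h 4 5 (by decide)
  have t01 := sl2_test A Y hA hD hY hs 0 1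
  have t23 := sl2_test A Y hA hD hY hs 2 3
  have t45 := sl2_test A Y hA hD hY hs 4 5
  have t02 := sl2_test A Y hA hD hY hs 0 2
  have t13 := sl2_test A Y hA hD hY hs 1 3
  have t03 := sl2_test A Y hA hD hY hs 0 3
  have t12 := sl2_test A Y hA hD hY hs 1 2
  have t04 := sl2_test A Y hA hD hY hs 0 4
  have t15 := sl2_test A Y hA hD hY hs 1 5
  have t05 := sl2_test A Y hA hD hY hs 0 5
  have t14 := sl2_test A Y hA hD hY hs 1 4
  have t24 := sl2_test A Y hA hD hY hs 2 4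
  have t35 := sl2_test A Y hA hD hY hs 3 5
  have t25 := sl2_test A Y hA hD hY hs 2 5
  have t34 := sl2_test A Y hA hD hY hs 3 4
  simp (decide := true) only [q4, sl2_E, if_true, if_false, mul_zero, mul_one, sub_zero,
    zero_sub, add_zero, zero_add, sub_self, mul_neg]
    at t01 t23 t45 t02 t13 t03 t12 t04 t15 t05 t14 t24 t35 t25 t34
  obtain ⟨z02, z13⟩ := sl2_zero a3 (u := Y 0 2) (v := Y 1 3) (by linarith) (by linarith)
  obtain ⟨z03, z12⟩ := sl2_zero (l := -A 4 5) (by rwa [neg_sq]) (u := Y 0 3) (v := Y 1 2)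
    (by linarith) (by linarith)
  obtain ⟨z04, z15⟩ := sl2_zero a2 (u := Y 0 4) (v := Y 1 5) (by linarith) (by linarith)
  obtain ⟨z05, z14⟩ := sl2_zero (l := -A 2 3) (by rwa [neg_sq]) (u := Y 0 5) (v := Y 1 4)
    (by linarith) (by linarith)
  obtain ⟨z24, z35⟩ := sl2_zero a1 (u := Y 2 4) (v := Y 3 5) (by linarith) (by linarith)
  obtain ⟨z25, z34⟩ := sl2_zero (l := -A 0 1) (by rwa [neg_sq]) (u := Y 2 5) (v := Y 3 4)
    (by linarith) (by linarith)
  have w20 : Y 2 0 = 0 := by rw [hY 0 2, z02, neg_zero]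
  have w31 : Y 3 1 = 0 := by rw [hY 1 3, z13, neg_zero]
  have w30 : Y 3 0 = 0 := by rw [hY 0 3, z03, neg_zero]
  have w21 : Y 2 1 = 0 := by rw [hY 1 2, z12, neg_zero]
  have w40 : Y 4 0 = 0 := by rw [hY 0 4, z04, neg_zero]
  have w51 : Y 5 1 = 0 := by rw [hY 1 5, z15, neg_zero]
  have w50 : Y 5 0 = 0 := by rw [hY 0 5, z05, neg_zero]
  have w41 : Y 4 1 = 0 := by rw [hY 1 4, z14, neg_zero]
  have w42 : Y 4 2 = 0 := by rw [hY 2 4, z24, neg_zero]
  have w53 : Y 5 3 = 0 := by rw [hY 3 5, z35, neg_zero]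
  have w52 : Y 5 2 = 0 := by rw [hY 2 5, z25, neg_zero]
  have w43 : Y 4 3 = 0 := by rw [hY 3 4, z34, neg_zero]
  refine ⟨?_, by linarith, by linarith, by linarith⟩
  intro a b hab
  fin_cases a <;> fin_cases b <;> first | exact absurd rfl hab | assumption
-- END sl2

-- BEGIN sc6
/-- With `d = 1 - l1 ^ 2 > 0`: `d * x2 = (l1 * l2 - l3) * x1`, `d * x3 = (l1 * l3 - l2) * x1`, the same for `y`, and `f = 1 - l1 ^ 2 - l2 ^ 2 - l3 ^ 2 + 2 * l1 * l2 * l3 = 0` (first equation times `d`, `x1 ≠ 0`). So `y1 * x = x1 * y`; `(l1 * l2 - l3) ^ 2 = d * (1 - l2 ^ 2)` and `(l1 * l3 - l2) ^ 2 = d * (1 - l3 ^ 2)`, `(l1 * l2 - l3) * (l1 * l3 - l2) = d * (l2 * l3 - l1)` modulo `f`. Hence `d * |x| ^ 2 = x1 ^ 2 * (3 - |l| ^ 2)`, `d * x2 * x3 = x1 ^ 2 * (l2 * l3 - l1)`, `d * x1 * x2 = x1 ^ 2 * (l1 * l2 - l3)`, `d * x1 * x3 = x1 ^ 2 * (l1 * l3 - l2)`. -/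
theorem scalar_six (l1 l2 l3 x1 x2 x3 y1 y2 y3 : ℝ) (h1 : l1 ^ 2 < 1) (h2 : l2 ^ 2 < 1)
    (h3 : l3 ^ 2 < 1) (hx : x1 ≠ 0)
    (e1 : x1 + (l2 * x3 + l3 * x2) = 0) (e2 : x2 + (l1 * x3 + l3 * x1) = 0)
    (e3 : x3 + (l1 * x2 + l2 * x1) = 0)
    (g1 : y1 + (l2 * y3 + l3 * y2) = 0) (g2 : y2 + (l1 * y3 + l3 * y1) = 0)
    (g3 : y3 + (l1 * y2 + l2 * y1) = 0) :
    (3 - (l1 ^ 2 + l2 ^ 2 + l3 ^ 2)) * (x2 * y3 + x3 * y2) =
        -((x1 * y1 + x2 * y2 + x3 * y3) * (2 * l1 - 2 * (l2 * l3))) ∧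
      (3 - (l1 ^ 2 + l2 ^ 2 + l3 ^ 2)) * (x1 * y3 + x3 * y1) =
        -((x1 * y1 + x2 * y2 + x3 * y3) * (2 * l2 - 2 * (l1 * l3))) ∧
      (3 - (l1 ^ 2 + l2 ^ 2 + l3 ^ 2)) * (x1 * y2 + x2 * y1) =
        -((x1 * y1 + x2 * y2 + x3 * y3) * (2 * l3 - 2 * (l1 * l2))) := by
  obtain ⟨d, hd⟩ : ∃ d, d = 1 - l1 ^ 2 := ⟨_, rfl⟩
  have hd0 : d ≠ 0 := by
    rw [hd]
    linarith
  have hd2 : d ^ 2 ≠ 0 := pow_ne_zero 2 hd0
  have a2 : d * x2 = (l1 * l2 - l3) * x1 := by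
    rw [hd]
    linear_combination e2 - l1 * e3
  have a3 : d * x3 = (l1 * l3 - l2) * x1 := by
    rw [hd]
    linear_combination e3 - l1 * e2
  have b2 : d * y2 = (l1 * l2 - l3) * y1 := by
    rw [hd]
    linear_combination g2 - l1 * g3
  have b3 : d * y3 = (l1 * l3 - l2) * y1 := by
    rw [hd]
    linear_combination g3 - l1 * g2
  have hf : 1 - l1 ^ 2 - l2 ^ 2 - l3 ^ 2 + 2 * l1 * l2 * l3 = 0 := by
    have h4 : x1 * (1 - l1 ^ 2 - l2 ^ 2 - l3 ^ 2 + 2 * l1 * l2 * l3) = 0 := by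
      rw [hd] at a2 a3
      linear_combination (1 - l1 ^ 2) * e1 - l2 * a3 - l3 * a2
    exact (mul_eq_zero.1 h4).resolve_left hx
  refine ⟨?_, ?_, ?_⟩
  · rw [← sub_eq_zero]
    refine (mul_eq_zero.1 ?_).resolve_left hd2
    have h5 : d ^ 2 * ((3 - (l1 ^ 2 + l2 ^ 2 + l3 ^ 2)) * (x2 * y3 + x3 * y2) -
        -((x1 * y1 + x2 * y2 + x3 * y3) * (2 * l1 - 2 * (l2 * l3)))) =
        (3 - (l1 ^ 2 + l2 ^ 2 + l3 ^ 2)) * ((d * x2) * (d * y3) + (d * x3) * (d * y2)) +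
          (d ^ 2 * (x1 * y1) + (d * x2) * (d * y2) + (d * x3) * (d * y3)) *
            (2 * l1 - 2 * (l2 * l3)) := by ring
    rw [h5, a2, a3, b2, b3, hd]
    linear_combination (x1 * y1 * (2 * l1 * (3 - (l1 ^ 2 + l2 ^ 2 + l3 ^ 2)) -
      4 * (l1 - l2 * l3))) * hf
  · rw [← sub_eq_zero]
    refine (mul_eq_zero.1 ?_).resolve_left hd2
    have h5 : d ^ 2 * ((3 - (l1 ^ 2 + l2 ^ 2 + l3 ^ 2)) * (x1 * y3 + x3 * y1) -
        -((x1 * y1 + x2 * y2 + x3 * y3) * (2 * l2 - 2 * (l1 * l3)))) =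
        (3 - (l1 ^ 2 + l2 ^ 2 + l3 ^ 2)) * (d * x1 * (d * y3) + (d * x3) * (d * y1)) +
          (d ^ 2 * (x1 * y1) + (d * x2) * (d * y2) + (d * x3) * (d * y3)) *
            (2 * l2 - 2 * (l1 * l3)) := by ring
    rw [h5, a2, a3, b2, b3, hd]
    linear_combination (x1 * y1 * (-4 * (l2 - l1 * l3))) * hf
  · rw [← sub_eq_zero]
    refine (mul_eq_zero.1 ?_).resolve_left hd2
    have h5 : d ^ 2 * ((3 - (l1 ^ 2 + l2 ^ 2 + l3 ^ 2)) * (x1 * y2 + x2 * y1) -
        -((x1 * y1 + x2 * y2 + x3 * y3) * (2 * l3 - 2 * (l1 * l2)))) =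
        (3 - (l1 ^ 2 + l2 ^ 2 + l3 ^ 2)) * (d * x1 * (d * y2) + (d * x2) * (d * y1)) +
          (d ^ 2 * (x1 * y1) + (d * x2) * (d * y2) + (d * x3) * (d * y3)) *
            (2 * l3 - 2 * (l1 * l2)) := by ring
    rw [h5, a2, a3, b2, b3, hd]
    linear_combination (x1 * y1 * (-4 * (l3 - l1 * l2))) * hf
-- END sc6

-- BEGIN rk6
private theorem rk6_lt (A : Fin (1 + 5) → Fin (1 + 5) → ℝ) (h : Lt6 A) (a b : Fin (1 + 5))
    (hab : a ≠ b) : A a b < 1 := by
  have h1 := h (fun i => if i = a then 1 else 0) (fun i => if i = b then 1 else 0)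
    (by simp) (by simp) (by simp [hab.symm])
  have h2 : ∑ i, ∑ j, (if i = a then (1 : ℝ) else 0) * (if j = b then (1 : ℝ) else 0) * A i j =
      A a b := by
    simp
  rwa [h2] at h1

private theorem rk6_sq (A : Fin (1 + 5) → Fin (1 + 5) → ℝ) (hA : Asym A) (h : Lt6 A)
    (a b : Fin (1 + 5)) (hab : a ≠ b) : A a b ^ 2 < 1 := by
  have h1 := rk6_lt A h a b hab
  have h2 := rk6_lt A h b a hab.symm
  rw [hA a b] at h2
  nlinarith

private theorem rk6_T6 (X Y Z : Fin (1 + 5) → Fin (1 + 5) → ℝ) (hX : Asym X) (hY : Asym Y)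
    (hZ : Asym Z) (hDX : Diag X) (hDY : Diag Y) : T6 X Y Z =
      Z 0 1 * (X 2 3 * Y 4 5 + X 4 5 * Y 2 3) + Z 2 3 * (X 0 1 * Y 4 5 + X 4 5 * Y 0 1) +
        Z 4 5 * (X 0 1 * Y 2 3 + X 2 3 * Y 0 1) := by
  rw [T6_diag X Y Z hX hY hZ hDY]
  unfold q4
  have d1 : X 2 4 = 0 := hDX 2 4 (by decide)
  have d2 : X 2 5 = 0 := hDX 2 5 (by decide)
  have d3 : X 3 4 = 0 := hDX 3 4 (by decide)
  have d4 : X 3 5 = 0 := hDX 3 5 (by decide)
  have d5 : X 0 4 = 0 := hDX 0 4 (by decide)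
  have d6 : X 0 5 = 0 := hDX 0 5 (by decide)
  have d7 : X 1 4 = 0 := hDX 1 4 (by decide)
  have d8 : X 1 5 = 0 := hDX 1 5 (by decide)
  have d9 : X 0 2 = 0 := hDX 0 2 (by decide)
  have d10 : X 0 3 = 0 := hDX 0 3 (by decide)
  have d11 : X 1 2 = 0 := hDX 1 2 (by decide)
  have d12 : X 1 3 = 0 := hDX 1 3 (by decide)
  rw [d1, d2, d3, d4, d5, d6, d7, d8, d9, d10, d11, d12]
  ring

private theorem rk6_diag (A X Y : Fin (1 + 5) → Fin (1 + 5) → ℝ) (hA : Asym A) (h : Lt6 A)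
    (hX : Asym X) (hY : Asym Y) (hs : Sol A X) (ht : Sol A Y)
    (Z : Fin (1 + 5) → Fin (1 + 5) → ℝ) (hZ : Asym Z) (hD : Diag X) :
    (3 - ip A A) * T6 X Y Z = -(ip X Y * (2 * ip A Z - T6 A A Z)) := by
  by_cases h0 : X = 0
  · have h1 : T6 X Y Z = 0 := by
      rw [h0]
      unfold T6
      simp
    have h2 : ip X Y = 0 := by
      rw [h0]
      unfold ip
      simp
    rw [h1, h2]
    ring
  · obtain ⟨hx, -, -, hDA, e1, e2, e3⟩ := sol_diag_one A X hA h hX hD hs h0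
    obtain ⟨hDY, g1, g2, g3⟩ := sol_diag_two A Y hA h hDA hY ht
    have l1 := rk6_sq A hA h 0 1 (by decide)
    have l2 := rk6_sq A hA h 2 3 (by decide)
    have l3 := rk6_sq A hA h 4 5 (by decide)
    obtain ⟨c1, c2, c3⟩ := scalar_six _ _ _ _ _ _ _ _ _ l1 l2 l3 hx e1 e2 e3 g1 g2 g3
    rw [rk6_T6 X Y Z hX hY hZ hD hDY, rk6_T6 A A Z hA hA hZ hDA hDA, ip_diag A A hA hA hDA,
      ip_diag A Z hA hZ hDA, ip_diag X Y hX hY hD]
    linear_combination Z 0 1 * c1 + Z 2 3 * c2 + Z 4 5 * c3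

/-- If `X = 0` both sides are `0`. Else row nf5 for `X`; by rows rt6, rtp, rts, rtl everything may be replaced by its `rot R` (for `Z` too), so `X` is `Diag`. Rows sl1 (for `X`), sl2 (for `Y`), dg0, dg1 and sc6 with `l = (A 0 1, A 2 3, A 4 5)`, `x`, `y` alike (`l1 ^ 2 < 1` by `h` for basis vectors, both orders); `q4` of diagonal arrays. -/
theorem rank_lt (A X Y : Fin (1 + 5) → Fin (1 + 5) → ℝ) (hA : Asym A) (h : Lt6 A)
    (hX : Asym X) (hY : Asym Y) (hs : Sol A X) (ht : Sol A Y)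
    (Z : Fin (1 + 5) → Fin (1 + 5) → ℝ) (hZ : Asym Z) :
    (3 - ip A A) * T6 X Y Z = -(ip X Y * (2 * ip A Z - T6 A A Z)) := by
  obtain ⟨R, h1, h2, h3⟩ := nf_six X hX
  have key := rk6_diag (rot R A) (rot R X) (rot R Y) ((rot_props R h1 A).1 hA)
    ((rot_props R h1 A).2.1 h) ((rot_props R h1 X).1 hX) ((rot_props R h1 Y).1 hY)
    (sol_rot R h1 h2 A X hs) (sol_rot R h1 h2 A Y ht) (rot R Z) ((rot_props R h1 Z).1 hZ) h3
  rwa [ip_rot R h1, ip_rot R h1, ip_rot R h1, T6_rot R h2, T6_rot R h2] at key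
-- END rk6

-- BEGIN nrm
private theorem nrm_exp (W : Form 1 (1 + 1)) (w : E 1) (u : Fin (1 + 5) → E 1)
    (v : Fin (1 + 5) → ℝ) : W (fun r => if r = 0 then w else ∑ b, v b • u b) =
      ∑ b, v b * W (fun r => if r = 0 then w else u b) := by
  set L := W.toContinuousMultilinearMap.toContinuousLinearMap (fun _ => w) 1 with hL
  have key : ∀ z : E 1, W (fun r => if r = 0 then w else z) = L z := by
    intro z
    change W (fun r => if r = 0 then w else z) = W (Function.update (fun _ => w) 1 z)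
    congr 1
    funext r
    by_cases h : r = 0
    · subst h
      simp
    · have h1 : r = 1 := by
        rcases r with ⟨r, hr⟩
        rw [Fin.ext_iff] at h ⊢
        simp at h ⊢
        omega
      subst h1
      simp
  rw [key, map_sum]
  refine Finset.sum_congr rfl fun b _ => ?_
  rw [map_smul, smul_eq_mul, key]

private theorem nrm_val (e : Fin (1 + 5) → E 1 → E 1) (Ω : E 1 → Form 1 (1 + 1)) (x : E 1)
    (a : Fin (1 + 5)) (v : Fin (1 + 5) → ℝ) :
    Ω x (fun r => ∑ b, (if r = 0 then (Pi.single a 1 : Fin (1 + 5) → ℝ) else v) b • e b x) =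
      ∑ b, v b * cmp e Ω x (pr a b) := by
  have h1 : (fun r : Fin (1 + 1) =>
      ∑ b, (if r = 0 then (Pi.single a 1 : Fin (1 + 5) → ℝ) else v) b • e b x) =
      fun r => if r = 0 then e a x else ∑ b, v b • e b x := by
    funext r
    by_cases h : r = 0
    · rw [if_pos h, if_pos h, Finset.sum_eq_single a]
      · rw [Pi.single_eq_same, one_smul]
      · intro b _ hb
        rw [Pi.single_eq_of_ne hb, zero_smul]
      · intro h2
        exact absurd (Finset.mem_univ a) h2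
    · rw [if_neg h, if_neg h]
  rw [h1, nrm_exp]
  refine Finset.sum_congr rfl fun b _ => ?_
  congr 1
  unfold Pool.Agent.Oae.cmp
  congr 1
  funext r
  unfold pr
  by_cases h : r = 0 <;> simp [h]

private theorem nrm_single (a : Fin (1 + 5)) :
    ∑ b, (Pi.single a 1 : Fin (1 + 5) → ℝ) b ^ 2 = 1 := by
  rw [Finset.sum_eq_single a]
  · rw [Pi.single_eq_same, one_pow]
  · intro b _ hb
    rw [Pi.single_eq_of_ne hb]
    norm_num
  · intro h2
    exact absurd (Finset.mem_univ a) h2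

private theorem nrm_row (e : Fin (1 + 5) → E 1 → E 1) (Ω : E 1 → Form 1 (1 + 1)) (x : E 1)
    (hc : ComassLe e Ω x) (a : Fin (1 + 5)) : ∑ b, cmp e Ω x (pr a b) ^ 2 ≤ 1 := by
  set s := ∑ b, cmp e Ω x (pr a b) ^ 2 with hs
  have hs0 : 0 ≤ s := Finset.sum_nonneg fun b _ => sq_nonneg _
  by_contra hcon
  push Not at hcon
  have hsp : 0 < s := by linarith
  have hq := Real.sqrt_pos.2 hsp
  have hq2 : √s ^ 2 = s := Real.sq_sqrt hsp.le
  have h1 := hc (fun r => if r = 0 then Pi.single a 1 else fun b => (1 / √s) * cmp e Ω x (pr a b))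
    (by
      intro r
      by_cases h : r = 0
      · simp only [if_pos h]
        exact (nrm_single a).le
      · simp only [if_neg h]
        have : ∑ b, (1 / √s * cmp e Ω x (pr a b)) ^ 2 = (1 / √s) ^ 2 * s := by
          rw [hs, Finset.mul_sum]
          refine Finset.sum_congr rfl fun b _ => ?_
          ring
        rw [this, div_pow, hq2, one_pow, one_div, inv_mul_cancel₀ hsp.ne'])
  rw [nrm_val] at h1
  have h2 : ∑ b, 1 / √s * cmp e Ω x (pr a b) * cmp e Ω x (pr a b) = √s := by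
    have : ∑ b, 1 / √s * cmp e Ω x (pr a b) * cmp e Ω x (pr a b) = 1 / √s * s := by
      rw [hs, Finset.mul_sum]
      refine Finset.sum_congr rfl fun b _ => ?_
      ring
    rw [this]
    field_simp
    rw [hq2]
  rw [h2] at h1
  nlinarith

private theorem nrm_diag (e : Fin (1 + 5) → E 1 → E 1) (Ω : E 1 → Form 1 (1 + 1)) (x : E 1)
    (a : Fin (1 + 5)) : cmp e Ω x (pr a a) = 0 := by
  unfold Pool.Agent.Oae.cmp
  refine (Ω x).map_eq_zero_of_eq _ (i := 0) (j := 1) ?_ (by decide)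
  simp [pr]

/-- `ip A A = (1 / 2) ∑ a, ∑ b, A a b ^ 2`; for every `a` the row sum `r a = ∑ b, A a b ^ 2` is at most `1`: `hc` for `e a` and `(1 / √r) ∑ b, A a b • e b` (value `√r`). If `r 2 = 1`, the orthonormal pair `e 2`, `∑ b, A 2 b • e b` has value `1`, so `ho` gives `0 = 1` for the coefficient of `e 2 = e (tl 0)`. So the sum is less than `6`. -/
theorem norm_lt (e : Fin (1 + 5) → E 1 → E 1) (Ω : E 1 → Form 1 (1 + 1)) (x : E 1)
    (hc : ComassLe e Ω x) (ho : OnlyPlane e Ω x) :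
    ip (fun a b => cmp e Ω x (pr a b)) (fun a b => cmp e Ω x (pr a b)) < 3 := by
  have hrow := nrm_row e Ω x hc
  have h2 : ∑ b, cmp e Ω x (pr (tl 0) b) ^ 2 < 1 := by
    refine lt_of_le_of_ne (hrow _) fun heq => ?_
    set v : Fin (1 + 5) → ℝ := fun b => cmp e Ω x (pr (tl 0) b) with hv
    have hoo := ho (fun r => if r = 0 then Pi.single (tl 0) 1 else v) (by
      have g1 : ∑ a, (Pi.single (tl 0) 1 : Fin (1 + 5) → ℝ) a *
          (Pi.single (tl 0) 1 : Fin (1 + 5) → ℝ) a = 1 := by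
        refine Eq.trans ?_ (nrm_single (tl 0))
        exact Finset.sum_congr rfl fun a _ => by ring
      have g2 : ∑ a, (Pi.single (tl 0) 1 : Fin (1 + 5) → ℝ) a * v a = 0 := by
        rw [Finset.sum_eq_single (tl 0)]
        · rw [Pi.single_eq_same, one_mul, hv]
          exact nrm_diag e Ω x _
        · intro b _ hb
          rw [Pi.single_eq_of_ne hb, zero_mul]
        · intro h2
          exact absurd (Finset.mem_univ _) h2
      have g3 : ∑ a, v a * (Pi.single (tl 0) 1 : Fin (1 + 5) → ℝ) a = 0 := by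
        rw [← g2]
        exact Finset.sum_congr rfl fun a _ => mul_comm _ _
      have g4 : ∑ a, v a * v a = 1 := by
        rw [← heq]
        exact Finset.sum_congr rfl fun a _ => by rw [hv]; ring
      intro r r'
      by_cases h : r = 0
      · by_cases h' : r' = 0
        · subst h
          subst h'
          simpa using g1
        · have hne : r ≠ r' := fun hh => h' (hh ▸ h)
          simp only [if_pos h, if_neg h', if_neg hne]
          exact g2
      · by_cases h' : r' = 0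
        · have hne : r ≠ r' := fun hh => h (hh ▸ h')
          simp only [if_neg h, if_pos h', if_neg hne]
          exact g3
        · have hrr : r = r' := by
            rcases r with ⟨r, hr⟩
            rcases r' with ⟨r', hr'⟩
            rw [Fin.ext_iff] at h h' ⊢
            simp at h h' ⊢
            omega
          simp only [if_neg h, if_neg h', if_pos hrr]
          exact g4) (by
      rw [nrm_val]
      rw [← heq]
      exact Finset.sum_congr rfl fun a _ => by rw [hv]; ring) 0 0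
    rw [if_pos rfl, Pi.single_eq_same] at hoo
    exact one_ne_zero hoo
  unfold ip
  have h3 : ∑ a, ∑ b, cmp e Ω x (pr a b) * cmp e Ω x (pr a b) < ∑ _a : Fin (1 + 5), (1 : ℝ) := by
    refine Finset.sum_lt_sum (fun a _ => ?_) ⟨tl 0, Finset.mem_univ _, ?_⟩
    · refine le_trans (le_of_eq ?_) (hrow a)
      exact Finset.sum_congr rfl fun b _ => by ring
    · refine lt_of_le_of_lt (le_of_eq ?_) h2
      exact Finset.sum_congr rfl fun b _ => by ring
  have h4 : ∑ _a : Fin (1 + 5), (1 : ℝ) = 6 := by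
    simp
  rw [h4] at h3
  linarith
-- END nrm

-- BEGIN clt
private theorem clt_fin : ∀ r : Fin (1 + 1), r = 0 ∨ r = 1 := by decide

private theorem clt_expand (W : Form 1 (1 + 1)) (w : Fin (1 + 5) → E 1) (c d : Fin (1 + 5) → ℝ) :
    W (fun r => ∑ a, (if r = 0 then c a else d a) • w a) =
      ∑ i, ∑ j, c i * d j * W (fun r => w (pr i j r)) := by
  rw [ContinuousAlternatingMap.map_sum]
  have e1 : ∀ ρ : Fin (1 + 1) → Fin (1 + 5),
      W (fun r => (if r = 0 then c (ρ r) else d (ρ r)) • w (ρ r)) =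
        c (ρ 0) * d (ρ 1) * W (fun r => w (pr (ρ 0) (ρ 1) r)) := by
    intro ρ
    rw [ContinuousAlternatingMap.map_smul_univ]
    have e2 : ∏ i : Fin (1 + 1), (if i = 0 then c (ρ i) else d (ρ i)) = c (ρ 0) * d (ρ 1) := by
      have : (∏ i : Fin 2, (if i = 0 then c (ρ i) else d (ρ i))) = c (ρ 0) * d (ρ 1) := by
        rw [Fin.prod_univ_two]
        simp
      exact this
    rw [e2, smul_eq_mul]
    congr 2
    funext r
    unfold pr
    rcases clt_fin r with h | h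
    · rw [h]
      simp
    · rw [h]
      simp
  rw [Finset.sum_congr rfl fun ρ _ => e1 ρ]
  have e3 := Equiv.sum_comp (finTwoArrowEquiv (Fin (1 + 5)))
    (fun p : Fin (1 + 5) × Fin (1 + 5) => c p.1 * d p.2 * W (fun r => w (pr p.1 p.2 r)))
  rw [← Fintype.sum_prod_type' (f := fun i j => c i * d j * W (fun r => w (pr i j r))), ← e3]
  rfl

/-- `≤ 1` by `hc`. If the value is `1` for an orthonormal pair `c, d`, then by `ho` both lie in the span of `e 0`, `e 1`: the value is `(c 0 * d 1 - c 1 * d 0) * Ω(N)` with `(c 0 * d 1 - c 1 * d 0) ^ 2 = 1`, so `Ω(N) = 1` or `Ω(N) = -1`, both excluded. -/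
theorem comass_lt (e : Fin (1 + 5) → E 1 → E 1) (Ω : E 1 → Form 1 (1 + 1)) (x : E 1)
    (hc : ComassLe e Ω x) (ho : OnlyPlane e Ω x) (h1 : -1 < Ω x (fun r => e (hd r) x))
    (h2 : ¬ Calib e Ω x) : Lt6 (fun a b => cmp e Ω x (pr a b)) := by
  intro c d hcc hdd hcd
  have h01 : (0 : Fin (1 + 1)) ≠ 1 := by decide
  obtain ⟨C, hC⟩ : ∃ C : Fin (1 + 1) → Fin (1 + 5) → ℝ, C = fun r a => if r = 0 then c a else d a :=
    ⟨_, rfl⟩
  have hC0 : C 0 = c := by funext a; simp [hC]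
  have hC1 : C 1 = d := by funext a; simp [hC]
  have hval : Ω x (fun r => ∑ a, C r a • e a x) =
      ∑ i, ∑ j, c i * d j * cmp e Ω x (pr i j) := by
    rw [hC]
    exact clt_expand (Ω x) (fun a => e a x) c d
  have hle := hc C (by
    intro r
    rcases clt_fin r with h | h
    · rw [h, hC0, hcc]
    · rw [h, hC1, hdd])
  rw [hval] at hle
  refine lt_of_le_of_ne hle ?_
  intro heq
  have hall := ho C (by
    intro r r'
    rcases clt_fin r with h | h <;> rcases clt_fin r' with h' | h'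
    · rw [h, h', hC0, if_pos rfl, ← hcc]
      exact Finset.sum_congr rfl fun i _ => by ring
    · rw [h, h', hC0, hC1, if_neg h01, hcd]
    · rw [h, h', hC0, hC1, if_neg h01.symm, ← hcd]
      exact Finset.sum_congr rfl fun i _ => by ring
    · rw [h, h', hC1, if_pos rfl, ← hdd]
      exact Finset.sum_congr rfl fun i _ => by ring) (by rw [hval]; exact heq)
  have hcz : ∀ j : Fin 4, c (tl j) = 0 := by
    intro j
    have := hall 0 j
    rwa [hC0] at this
  have hdz : ∀ j : Fin 4, d (tl j) = 0 := by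
    intro j
    have := hall 1 j
    rwa [hC1] at this
  have six : ∀ f : Fin (1 + 5) → ℝ, (∀ j : Fin 4, f (tl j) = 0) → ∑ a, f a = f 0 + f 1 := by
    intro f hf
    have e6 : ∑ a : Fin (1 + 5), f a = ∑ a : Fin 6, f a := rfl
    rw [e6, Fin.sum_univ_six]
    have t0 : f (2 : Fin 6) = 0 := hf 0
    have t1 : f (3 : Fin 6) = 0 := hf 1
    have t2 : f (4 : Fin 6) = 0 := hf 2
    have t3 : f (5 : Fin 6) = 0 := hf 3
    rw [t0, t1, t2, t3]
    simp
  have s1 := hcc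
  rw [six _ (fun j => by rw [hcz j]; norm_num)] at s1
  have s2 := hdd
  rw [six _ (fun j => by rw [hdz j]; norm_num)] at s2
  have s3 := hcd
  rw [six _ (fun j => by rw [hcz j, zero_mul])] at s3
  have h00 : ∀ a : Fin (1 + 5), cmp e Ω x (pr a a) = 0 := by
    intro a
    unfold Pool.Agent.Oae.cmp
    refine (Ω x).map_eq_zero_of_eq _ (i := 0) (j := 1) ?_ h01
    rfl
  have h10 : cmp e Ω x (pr 1 0) = -cmp e Ω x (pr 0 1) := by
    unfold Pool.Agent.Oae.cmp
    have h3 : (Ω x) ((fun r => e (pr 0 1 r) x) ∘ ⇑(Equiv.swap (0 : Fin (1 + 1)) 1)) =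
        -(Ω x) (fun r => e (pr 0 1 r) x) :=
      (Ω x).toAlternatingMap.map_swap (fun r => e (pr 0 1 r) x) h01
    rw [← h3]
    congr 1
    funext r
    rcases clt_fin r with h | h
    · rw [h, Function.comp_apply, Equiv.swap_apply_left]
      rfl
    · rw [h, Function.comp_apply, Equiv.swap_apply_right]
      rfl
  have hN : cmp e Ω x (pr 0 1) = Ω x (fun r => e (hd r) x) := by
    unfold Pool.Agent.Oae.cmp
    congr 1
    funext r
    rcases clt_fin r with h | h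
    · rw [h]
      rfl
    · rw [h]
      rfl
  rw [six _ (fun j => by
      refine Finset.sum_eq_zero fun k _ => ?_
      rw [hcz j, zero_mul, zero_mul]),
    six _ (fun j => by rw [hdz j, mul_zero, zero_mul]),
    six _ (fun j => by rw [hdz j, mul_zero, zero_mul])] at heq
  beta_reduce at heq
  rw [h00, h00, h10, hN] at heq
  unfold Calib at h2
  generalize Ω x (fun r => e (hd r) x) = t at heq h1 h2
  have h3 : (c 0 * d 1 - c 1 * d 0) ^ 2 = 1 := by
    have : (c 0 * d 1 - c 1 * d 0) ^ 2 =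
        (c 0 ^ 2 + c 1 ^ 2) * (d 0 ^ 2 + d 1 ^ 2) - (c 0 * d 0 + c 1 * d 1) ^ 2 := by ring
    rw [this, s1, s2, s3]
    norm_num
  have h4 : (c 0 * d 1 - c 1 * d 0) * t = 1 := by
    rw [← heq]
    ring
  have h5 : (c 0 * d 1 - c 1 * d 0 - 1) * (c 0 * d 1 - c 1 * d 0 + 1) = 0 := by
    linear_combination h3
  rcases mul_eq_zero.1 h5 with h6 | h6
  · have h7 : c 0 * d 1 - c 1 * d 0 = 1 := by linarith
    rw [h7, one_mul] at h4
    exact h2 h4
  · have h7 : c 0 * d 1 - c 1 * d 0 = -1 := by linarith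
    rw [h7] at h4
    linarith
-- END clt

end Pool.Agent.Oaf
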