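import Pool.Agent.Oaf.Uni

/-!
The union of all cases
-/

set_option autoImplicit false

namespace Pool.Agent.Oaf

open MeasureTheory Set Matrix Filter Topology Pool.Agent.Oad Pool.Agent.Oae
open scoped ContDiff

/-- `Nd` is one of the cases of `Good` -/
theorem good_of_nd {q : ℕ} (e : Fin (q + 5) → E q → E q) (Ω : E q → Form q (q + 1)) (x : E q)
    (h : Nd e Ω x) : Good e Ω x := by
  rcases h with h | ⟨h1, h2⟩
  · exact Or.inl h
  · exact Or.inr ⟨h1, Or.inl h2⟩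

/-- all cases together -/
theorem main_all {n q : ℕ} (U K : Set (E q)) (hU : IsOpen U) (hK : IsOpen (U \ K))
    (h0 : μH[(q : ℝ) + 4] K = 0) (e : Fin (q + 5) → E q → E q) (he : IsFrame U e)
    (Ω : E q → Form q (q + 1)) (hΩ : ContDiffOn ℝ ∞ Ω U)
    (hD : q = 0 ∨ IsDecomposable U Ω ∨
      (q = 1 ∧ ∀ x ∈ U, ComassLe e Ω x ∧ AtMostOne e Ω x) ∨
      (∀ x ∈ U, Nd e Ω x) ∨ Covered U e Ω)
    (F : ℕ → E q → Fin (q + 5) → Fin (q + 5) → Mat n) (hF : ∀ k, IsCurvature U (F k))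
    (hFe : ∀ k, ∀ x ∈ U, IsASD e Ω (F k) x)
    (G : E q → Fin (q + 5) → Fin (q + 5) → Mat n) (hG : IsCurvature (U \ K) G)
    (hGe : ∀ x ∈ U \ K, IsASD e Ω G x) (hGi : LocallyIntegrableOn (nsq G) U)
    (C : (E q → Form q (q + 1)) → ℝ)
    (hC : ∀ φ : E q → Form q (q + 1), IsTest U φ →
      Tendsto (fun k => ∫ x, cw (F k) φ x) atTop
        (𝓝 ((∫ x, cw G φ x) + 8 * Real.pi ^ 2 * C φ)))
    (ψ : E q → Form q q) (hψ : IsTest U ψ) :
    C (extDeriv ψ) = 0 ∧ ∫ x, cw G (extDeriv ψ) x = 0 := by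
  rcases hD with h | h | ⟨hq, h⟩ | h | ⟨r, Θ, h1, h2⟩
  · exact main_thm U K hU hK h0 e he Ω hΩ (decomposable_of_zero h U Ω)
      F hF hFe G hG hGe hGi C hC ψ hψ
  · exact main_thm U K hU hK h0 e he Ω hΩ h F hF hFe G hG hGe hGi C hC ψ hψ
  · subst hq
    exact main_uniq U K hU hK h0 e he Ω hΩ h F hF hFe G hG hGe hGi C hC ψ hψ
  · exact main_cal U K hU hK h0 e he Ω (dominated_of_good U e he Ω
      fun x hx => good_of_nd e Ω x (h x hx)) F hF hFe G hG hGe hGi C hC ψ hψ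
  · exact main_rank U K hU hK h0 e he Ω Θ h1 h2 F hF hFe G hG hGe hGi C hC ψ hψ

end Pool.Agent.Oaf
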