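import Pool.Agent.Oaf.Alg
import Pool.Agent.Oaf.Nf
import Pool.Agent.Oaf.Defs

/-!
Dimension six: at most one calibrated plane at every point, no plane field given
-/

set_option autoImplicit false

namespace Pool.Agent.Oaf

open MeasureTheory Set Matrix Filter Topology Pool.Agent.Oad Pool.Agent.Oae
open scoped ContDiff

/-- the 2-form `e^a ∧ e^b` -/
def E2 (a b i j : Fin (1 + 5)) : ℝ :=
  (if i = a ∧ j = b then 1 else 0) - (if i = b ∧ j = a then 1 else 0)

/-- `⋆(A ∧ B)` -/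
noncomputable def st (A B : Fin (1 + 5) → Fin (1 + 5) → ℝ) (a b : Fin (1 + 5)) : ℝ :=
  T6 A B (E2 a b)

/-- `⋆(A ∧ A) / 2` -/
noncomputable def ph (A : Fin (1 + 5) → Fin (1 + 5) → ℝ) (a b : Fin (1 + 5)) : ℝ := st A A a b / 2

/-- the Pfaffian -/
noncomputable def pf (A : Fin (1 + 5) → Fin (1 + 5) → ℝ) : ℝ := ip A (ph A) / 3

/-- first denominator -/
noncomputable def d1 (A : Fin (1 + 5) → Fin (1 + 5) → ℝ) : ℝ := 2 - ip A A + pf A ^ 2

/-- second denominator -/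
noncomputable def d2 (A : Fin (1 + 5) → Fin (1 + 5) → ℝ) : ℝ := 3 - ip A A

/-- first form -/
noncomputable def th1 (A : Fin (1 + 5) → Fin (1 + 5) → ℝ) (a b : Fin (1 + 5)) : ℝ :=
  (A a b - st A (ph A) a b + pf A * ph A a b) / d1 A

/-- second form -/
noncomputable def th2 (A : Fin (1 + 5) → Fin (1 + 5) → ℝ) (a b : Fin (1 + 5)) : ℝ :=
  (2 * A a b - st A A a b) / d2 A

/-- `c`, `d` is an orthonormal pair -/
def ON (c d : Fin (1 + 5) → ℝ) : Prop :=
  ∑ i, c i ^ 2 = 1 ∧ ∑ i, d i ^ 2 = 1 ∧ ∑ i, c i * d i = 0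

/-- the value of the 2-form `A` at `c`, `d` -/
noncomputable def vl (A : Fin (1 + 5) → Fin (1 + 5) → ℝ) (c d : Fin (1 + 5) → ℝ) : ℝ :=
  ∑ i, ∑ j, c i * d j * A i j

/-- `A` has comass at most `1` and calibrates at most one plane -/
def Uq (A : Fin (1 + 5) → Fin (1 + 5) → ℝ) : Prop :=
  (∀ c d, ON c d → vl A c d ≤ 1) ∧ ∀ c d c' d', ON c d → ON c' d' → vl A c d = 1 →
    vl A c' d' = 1 → ∃ s t s' t' : ℝ, (∀ a, c' a = s * c a + t * d a) ∧
      ∀ a, d' a = s' * c a + t' * d a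

-- BEGIN st1
private theorem st1_neg (a b i j : Fin (1 + 5)) : E2 b a i j = -E2 a b i j := by
  unfold E2
  ring

private theorem st1_pick (Z : Fin (1 + 5) → Fin (1 + 5) → ℝ) (i j : Fin (1 + 5)) :
    ∑ a, ∑ b, (if i = a ∧ j = b then (1 : ℝ) else 0) * Z a b = Z i j := by
  rw [Finset.sum_eq_single i, Finset.sum_eq_single j]
  · rw [if_pos ⟨rfl, rfl⟩, one_mul]
  · intro b _ hb
    rw [if_neg (fun h => hb h.2.symm), zero_mul]
  · intro h
    exact absurd (Finset.mem_univ j) h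
  · intro a _ ha
    refine Finset.sum_eq_zero fun b _ => ?_
    rw [if_neg (fun h => ha h.1.symm), zero_mul]
  · intro h
    exact absurd (Finset.mem_univ i) h

private theorem st1_sum (Z : Fin (1 + 5) → Fin (1 + 5) → ℝ) (hZ : Asym Z) (i j : Fin (1 + 5)) :
    ∑ a, ∑ b, E2 a b i j * Z a b = 2 * Z i j := by
  have h1 := st1_pick Z i j
  have h2 : ∑ a, ∑ b, (if i = b ∧ j = a then (1 : ℝ) else 0) * Z a b = Z j i := by
    rw [← st1_pick Z j i]
    refine Finset.sum_congr rfl fun a _ => Finset.sum_congr rfl fun b _ => ?_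
    rw [if_congr (and_comm (a := i = b) (b := j = a)) rfl rfl]
  have h3 : ∑ a, ∑ b, E2 a b i j * Z a b =
      ∑ a, ∑ b, (if i = a ∧ j = b then (1 : ℝ) else 0) * Z a b -
        ∑ a, ∑ b, (if i = b ∧ j = a then (1 : ℝ) else 0) * Z a b := by
    rw [← Finset.sum_sub_distrib]
    refine Finset.sum_congr rfl fun a _ => ?_
    rw [← Finset.sum_sub_distrib]
    refine Finset.sum_congr rfl fun b _ => ?_
    unfold E2
    ring
  rw [h3, h1, h2, hZ i j]
  ring

/-- `E2 a b` is antisymmetric in both pairs of indices; `Z = (1 / 2) ∑ a, ∑ b, Z a b • E2 a b` for antisymmetric `Z`, `T6` is linear in the last argument. -/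
theorem st_props (A B : Fin (1 + 5) → Fin (1 + 5) → ℝ) :
    Asym (st A B) ∧ ∀ Z, Asym Z → ip (st A B) Z = T6 A B Z := by
  constructor
  · intro a b
    unfold st T6
    rw [← mul_neg, ← Finset.sum_neg_distrib]
    refine congrArg _ (Finset.sum_congr rfl fun s _ => ?_)
    rw [st1_neg]
    ring
  · intro Z hZ
    have h : ∀ a b : Fin (1 + 5), st A B a b * Z a b =
        ∑ s : Equiv.Perm (Fin (1 + 5)), (1 / 8) * (sg s * (A (s 0) (s 1) * (B (s 2) (s 3) *
          (E2 a b (s 4) (s 5) * Z a b)))) := by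
      intro a b
      unfold st T6
      rw [Finset.mul_sum, Finset.sum_mul]
      refine Finset.sum_congr rfl fun s _ => ?_
      ring
    have h2 : ∑ a, ∑ b, st A B a b * Z a b =
        ∑ s : Equiv.Perm (Fin (1 + 5)), ∑ a, ∑ b, (1 / 8) * (sg s * (A (s 0) (s 1) *
          (B (s 2) (s 3) * (E2 a b (s 4) (s 5) * Z a b)))) := by
      have e1 : ∑ a, ∑ b, st A B a b * Z a b =
          ∑ a, ∑ b, ∑ s : Equiv.Perm (Fin (1 + 5)), (1 / 8) * (sg s * (A (s 0) (s 1) *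
            (B (s 2) (s 3) * (E2 a b (s 4) (s 5) * Z a b)))) :=
        Finset.sum_congr rfl fun a _ => Finset.sum_congr rfl fun b _ => h a b
      have e2 : ∑ a, ∑ b, ∑ s : Equiv.Perm (Fin (1 + 5)), (1 / 8) * (sg s * (A (s 0) (s 1) *
            (B (s 2) (s 3) * (E2 a b (s 4) (s 5) * Z a b)))) =
          ∑ a, ∑ s : Equiv.Perm (Fin (1 + 5)), ∑ b, (1 / 8) * (sg s * (A (s 0) (s 1) *
            (B (s 2) (s 3) * (E2 a b (s 4) (s 5) * Z a b)))) :=
        Finset.sum_congr rfl fun a _ => Finset.sum_comm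
      rw [e1, e2]
      exact Finset.sum_comm
    unfold ip
    rw [h2]
    unfold T6
    rw [Finset.mul_sum, Finset.mul_sum]
    refine Finset.sum_congr rfl fun s _ => ?_
    simp only [← Finset.mul_sum]
    rw [st1_sum Z hZ]
    ring
-- END st1

-- BEGIN st2
private theorem st2_ext (L M : Fin (1 + 5) → Fin (1 + 5) → ℝ) (hL : Asym L) (hM : Asym M)
    (h : ∀ Z, Asym Z → ip L Z = ip M Z) : L = M := by
  have hZ : Asym (fun a b => L a b - M a b) := by
    intro a b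
    show L b a - M b a = -(L a b - M a b)
    rw [hL a b, hM a b]
    ring
  have h1 := h _ hZ
  unfold ip at h1
  have h2 : ∑ a, ∑ b, (L a b - M a b) ^ 2 = 0 := by
    have h3 : ∑ a, ∑ b, (L a b - M a b) ^ 2 =
        (∑ a, ∑ b, L a b * (L a b - M a b)) - ∑ a, ∑ b, M a b * (L a b - M a b) := by
      rw [← Finset.sum_sub_distrib]
      refine Finset.sum_congr rfl fun a _ => ?_
      rw [← Finset.sum_sub_distrib]
      refine Finset.sum_congr rfl fun b _ => ?_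
      ring
    rw [h3]
    linarith
  have h4 : ∀ a, ∑ b, (L a b - M a b) ^ 2 = 0 := by
    intro a
    exact (Finset.sum_eq_zero_iff_of_nonneg fun a _ =>
      Finset.sum_nonneg fun b _ => sq_nonneg _).1 h2 a (Finset.mem_univ a)
  funext a b
  have h5 := (Finset.sum_eq_zero_iff_of_nonneg fun b _ => sq_nonneg (L a b - M a b)).1 (h4 a) b
    (Finset.mem_univ b)
  have h6 : L a b - M a b = 0 := by
    rwa [sq_eq_zero_iff] at h5
  linarith

/-- Both sides are antisymmetric and have the same `ip` with every antisymmetric `Z`: `ip (rot R (st A B)) Z = ip (st A B) (rot Rᵀ Z) = T6 A B (rot Rᵀ Z) = T6 (rot R A) (rot R B) Z` (rows st1, rtp, rt6, rts with `rot R (rot Rᵀ Z) = Z`). -/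
theorem st_rot (R : Matrix (Fin (1 + 5)) (Fin (1 + 5)) ℝ) (h : R * Rᵀ = 1) (hd : R.det = 1)
    (A B : Fin (1 + 5) → Fin (1 + 5) → ℝ) : rot R (st A B) = st (rot R A) (rot R B) := by
  have hT : Rᵀ * Rᵀᵀ = 1 := by
    rw [Matrix.transpose_transpose]
    exact mul_eq_one_comm.1 h
  refine st2_ext _ _ ((rot_props R h _).1 (st_props A B).1) (st_props _ _).1 fun Z hZ => ?_
  have h1 : rot R (rot Rᵀ Z) = Z := (rot_props R h Z).2.2.1
  have h2 : Asym (rot Rᵀ Z) := (rot_props Rᵀ hT Z).1 hZ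
  have h3 : ip (rot R (st A B)) Z = ip (st A B) (rot Rᵀ Z) := by
    have h4 := ip_rot R h (st A B) (rot Rᵀ Z)
    rwa [h1] at h4
  have h5 : T6 (rot R A) (rot R B) Z = T6 A B (rot Rᵀ Z) := by
    have h6 := T6_rot R hd A B (rot Rᵀ Z)
    rwa [h1] at h6
  rw [h3, (st_props A B).2 _ h2, (st_props _ _).2 Z hZ, h5]
-- END st2

-- BEGIN st3
private theorem st3_lin (R : Matrix (Fin (1 + 5)) (Fin (1 + 5)) ℝ)
    (X Y Z : Fin (1 + 5) → Fin (1 + 5) → ℝ) (s t r e : ℝ) (a b : Fin (1 + 5)) :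
    rot R (fun a b => (s * X a b + t * Y a b + r * Z a b) / e) a b =
      (s * rot R X a b + t * rot R Y a b + r * rot R Z a b) / e := by
  unfold rot
  rw [Finset.mul_sum, Finset.mul_sum, Finset.mul_sum, ← Finset.sum_add_distrib,
    ← Finset.sum_add_distrib, Finset.sum_div]
  refine Finset.sum_congr rfl fun i _ => ?_
  rw [Finset.mul_sum, Finset.mul_sum, Finset.mul_sum, ← Finset.sum_add_distrib,
    ← Finset.sum_add_distrib, Finset.sum_div]
  refine Finset.sum_congr rfl fun j _ => ?_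
  ring

/-- Rows st2, rtp and linearity of `rot R`. -/
theorem th_rot (R : Matrix (Fin (1 + 5)) (Fin (1 + 5)) ℝ) (h : R * Rᵀ = 1) (hd : R.det = 1)
    (A : Fin (1 + 5) → Fin (1 + 5) → ℝ) : d1 (rot R A) = d1 A ∧ d2 (rot R A) = d2 A ∧
      rot R (th1 A) = th1 (rot R A) ∧ rot R (th2 A) = th2 (rot R A) := by
  have hp : rot R (ph A) = ph (rot R A) := by
    funext a b
    have h1 : ph A = fun a b => (1 * st A A a b + 0 * st A A a b + 0 * st A A a b) / 2 := by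
      funext a b
      unfold ph
      ring
    rw [h1, st3_lin, st_rot R h hd]
    unfold ph
    ring
  have hf : pf (rot R A) = pf A := by
    unfold pf
    rw [← hp, ip_rot R h]
  have hi : ip (rot R A) (rot R A) = ip A A := ip_rot R h A A
  have h1 : d1 (rot R A) = d1 A := by
    unfold d1
    rw [hi, hf]
  have h2 : d2 (rot R A) = d2 A := by
    unfold d2
    rw [hi]
  refine ⟨h1, h2, ?_, ?_⟩
  · funext a b
    have h3 : th1 A = fun a b =>
        (1 * A a b + (-1) * st A (ph A) a b + pf A * ph A a b) / d1 A := by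
      funext a b
      unfold th1
      ring
    rw [h3, st3_lin, st_rot R h hd, hp]
    unfold th1
    rw [h1, hf]
    ring
  · funext a b
    have h3 : th2 A = fun a b => (2 * A a b + (-1) * st A A a b + 0 * A a b) / d2 A := by
      funext a b
      unfold th2
      ring
    rw [h3, st3_lin, st_rot R h hd]
    unfold th2
    rw [h2]
    ring
-- END st3

-- BEGIN st4
private theorem st4_asym (a b : Fin (1 + 5)) : Asym (q := 1) (E2 a b) := by
  intro i j
  unfold E2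
  have e1 : (if j = a ∧ i = b then (1 : ℝ) else 0) = if i = b ∧ j = a then 1 else 0 :=
    if_congr and_comm rfl rfl
  have e2 : (if j = b ∧ i = a then (1 : ℝ) else 0) = if i = a ∧ j = b then 1 else 0 :=
    if_congr and_comm rfl rfl
  rw [e1, e2]
  ring

private theorem st4_key (A B : Fin (1 + 5) → Fin (1 + 5) → ℝ) (hA : Asym A) (hB : Asym B)
    (hDA : Diag A) (hDB : Diag B) (a b : Fin (1 + 5)) : st A B a b =
      B 0 1 * (A 2 3 * E2 a b 4 5 + A 4 5 * E2 a b 2 3) +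
      B 2 3 * (A 0 1 * E2 a b 4 5 + A 4 5 * E2 a b 0 1) +
      B 4 5 * (A 0 1 * E2 a b 2 3 + A 2 3 * E2 a b 0 1) := by
  unfold st
  rw [T6_diag A B (E2 a b) hA hB (st4_asym a b) hDB]
  have z02 : A 0 2 = 0 := hDA 0 2 (by decide)
  have z03 : A 0 3 = 0 := hDA 0 3 (by decide)
  have z04 : A 0 4 = 0 := hDA 0 4 (by decide)
  have z05 : A 0 5 = 0 := hDA 0 5 (by decide)
  have z12 : A 1 2 = 0 := hDA 1 2 (by decide)
  have z13 : A 1 3 = 0 := hDA 1 3 (by decide)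
  have z14 : A 1 4 = 0 := hDA 1 4 (by decide)
  have z15 : A 1 5 = 0 := hDA 1 5 (by decide)
  have z24 : A 2 4 = 0 := hDA 2 4 (by decide)
  have z25 : A 2 5 = 0 := hDA 2 5 (by decide)
  have z34 : A 3 4 = 0 := hDA 3 4 (by decide)
  have z35 : A 3 5 = 0 := hDA 3 5 (by decide)
  unfold q4
  rw [z02, z03, z04, z05, z12, z13, z14, z15, z24, z25, z34, z35]
  ring

private theorem st4_zero (a b i j : Fin (1 + 5)) (h1 : ¬ (i = a ∧ j = b)) (h2 : ¬ (i = b ∧ j = a)) :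
    E2 a b i j = 0 := by
  unfold E2
  rw [if_neg h1, if_neg h2, sub_zero]

private theorem st4_one (a b : Fin (1 + 5)) (h : a ≠ b) : E2 a b a b = 1 := by
  unfold E2
  rw [if_pos ⟨rfl, rfl⟩, if_neg (fun h2 => h h2.1), sub_zero]

/-- Row dg0 with `Z = E2 a b` (with `B` diagonal, `q4 A (E2 a b)` for `A` diagonal). -/
theorem st_diag (A B : Fin (1 + 5) → Fin (1 + 5) → ℝ) (hA : Asym A) (hB : Asym B)
    (hDA : Diag A) (hDB : Diag B) : Diag (st A B) ∧
      st A B 0 1 = A 2 3 * B 4 5 + A 4 5 * B 2 3 ∧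
      st A B 2 3 = A 0 1 * B 4 5 + A 4 5 * B 0 1 ∧
      st A B 4 5 = A 0 1 * B 2 3 + A 2 3 * B 0 1 := by
  refine ⟨?_, ?_, ?_, ?_⟩
  · intro a b hab
    have k : ∀ i j : Fin (1 + 5), i.1 / 2 = j.1 / 2 → E2 a b i j = 0 := by
      intro i j hij
      refine st4_zero a b i j ?_ ?_
      · rintro ⟨rfl, rfl⟩
        exact hab hij
      · rintro ⟨rfl, rfl⟩
        exact hab hij.symm
    rw [st4_key A B hA hB hDA hDB a b, k 0 1 rfl, k 2 3 rfl, k 4 5 rfl]
    ring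
  · rw [st4_key A B hA hB hDA hDB 0 1, st4_one 0 1 (by decide),
      st4_zero 0 1 2 3 (by decide) (by decide), st4_zero 0 1 4 5 (by decide) (by decide)]
    ring
  · rw [st4_key A B hA hB hDA hDB 2 3, st4_one 2 3 (by decide),
      st4_zero 2 3 0 1 (by decide) (by decide), st4_zero 2 3 4 5 (by decide) (by decide)]
    ring
  · rw [st4_key A B hA hB hDA hDB 4 5, st4_one 4 5 (by decide),
      st4_zero 4 5 0 1 (by decide) (by decide), st4_zero 4 5 2 3 (by decide) (by decide)]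
    ring
-- END st4

-- BEGIN st5
/-- Rows st4, dg1: `ph A = (l2 l3, l1 l3, l1 l2)`, `ip A (ph A) = 3 l1 l2 l3`. -/
theorem pf_diag (A : Fin (1 + 5) → Fin (1 + 5) → ℝ) (hA : Asym A) (hD : Diag A) :
    pf A = A 0 1 * A 2 3 * A 4 5 ∧ d2 A = 3 - (A 0 1 ^ 2 + A 2 3 ^ 2 + A 4 5 ^ 2) ∧
      d1 A = 2 - (A 0 1 ^ 2 + A 2 3 ^ 2 + A 4 5 ^ 2) + (A 0 1 * A 2 3 * A 4 5) ^ 2 := by
  have hs : Asym (st A A) := (st_props A A).1
  have hp : Asym (ph A) := by
    intro a b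
    have h1 := hs a b
    simp only [ph]
    rw [h1]
    ring
  obtain ⟨_, h01, h23, h45⟩ := st_diag A A hA hA hD hD
  have hpf : pf A = A 0 1 * A 2 3 * A 4 5 := by
    have h2 := ip_diag A (ph A) hA hp hD
    have e1 : ph A 0 1 = st A A 0 1 / 2 := rfl
    have e2 : ph A 2 3 = st A A 2 3 / 2 := rfl
    have e3 : ph A 4 5 = st A A 4 5 / 2 := rfl
    rw [e1, e2, e3, h01, h23, h45] at h2
    simp only [pf]
    rw [h2]
    ring
  have hip : ip A A = A 0 1 ^ 2 + A 2 3 ^ 2 + A 4 5 ^ 2 := by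
    rw [ip_diag A A hA hA hD]
    ring
  refine ⟨hpf, ?_, ?_⟩
  · simp only [d2]
    rw [hip]
  · simp only [d1]
    rw [hip, hpf]
-- END st5

-- BEGIN un0
private theorem un0_back (R : Matrix (Fin (1 + 5)) (Fin (1 + 5)) ℝ) (h : R * Rᵀ = 1)
    (d : Fin (1 + 5) → ℝ) : R *ᵥ (d ᵥ* R) = d := by
  rw [← Matrix.mulVec_transpose, Matrix.mulVec_mulVec, h, Matrix.one_mulVec]

private theorem un0_dot (R : Matrix (Fin (1 + 5)) (Fin (1 + 5)) ℝ) (h : R * Rᵀ = 1)
    (c d : Fin (1 + 5) → ℝ) : (c ᵥ* R) ⬝ᵥ (d ᵥ* R) = c ⬝ᵥ d := by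
  rw [← Matrix.dotProduct_mulVec, un0_back R h]

private theorem un0_vl (A : Fin (1 + 5) → Fin (1 + 5) → ℝ) (c d : Fin (1 + 5) → ℝ) :
    vl A c d = c ⬝ᵥ (Matrix.of A *ᵥ d) := by
  unfold vl
  simp only [dotProduct, Matrix.mulVec, Finset.mul_sum, Matrix.of_apply]
  refine Finset.sum_congr rfl fun i _ => Finset.sum_congr rfl fun j _ => ?_
  ring

private theorem un0_of (R : Matrix (Fin (1 + 5)) (Fin (1 + 5)) ℝ)
    (A : Fin (1 + 5) → Fin (1 + 5) → ℝ) :
    Matrix.of (rot R A) = R * (Matrix.of A * Rᵀ) := by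
  ext a b
  simp only [Matrix.of_apply, rot, Matrix.mul_apply, Finset.mul_sum, Matrix.transpose_apply]
  refine Finset.sum_congr rfl fun i _ => Finset.sum_congr rfl fun j _ => ?_
  ring

private theorem un0_rot (R : Matrix (Fin (1 + 5)) (Fin (1 + 5)) ℝ)
    (A : Fin (1 + 5) → Fin (1 + 5) → ℝ) (c d : Fin (1 + 5) → ℝ) :
    vl (rot R A) c d = vl A (c ᵥ* R) (d ᵥ* R) := by
  rw [un0_vl, un0_vl, un0_of, ← Matrix.mulVec_mulVec, ← Matrix.mulVec_mulVec,
    Matrix.dotProduct_mulVec, Matrix.mulVec_transpose]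

private theorem un0_on (R : Matrix (Fin (1 + 5)) (Fin (1 + 5)) ℝ) (h : R * Rᵀ = 1)
    (c d : Fin (1 + 5) → ℝ) (hcd : ON c d) : ON (c ᵥ* R) (d ᵥ* R) := by
  obtain ⟨h1, h2, h3⟩ := hcd
  have e1 := un0_dot R h c c
  have e2 := un0_dot R h d d
  have e3 := un0_dot R h c d
  simp only [dotProduct] at e1 e2 e3
  refine ⟨?_, ?_, ?_⟩
  · simp only [pow_two] at h1 ⊢
    exact e1.trans h1
  · simp only [pow_two] at h2 ⊢
    exact e2.trans h2
  · exact e3.trans h3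

private theorem un0_span (R : Matrix (Fin (1 + 5)) (Fin (1 + 5)) ℝ) (h : R * Rᵀ = 1)
    (c d c' : Fin (1 + 5) → ℝ) (s t : ℝ)
    (hs : ∀ a, (c' ᵥ* R) a = s * (c ᵥ* R) a + t * (d ᵥ* R) a) :
    ∀ a, c' a = s * c a + t * d a := by
  have e : c' ᵥ* R = s • (c ᵥ* R) + t • (d ᵥ* R) := by
    funext a
    simp only [Pi.add_apply, Pi.smul_apply, smul_eq_mul]
    exact hs a
  have e2 : R *ᵥ (c' ᵥ* R) = R *ᵥ (s • (c ᵥ* R) + t • (d ᵥ* R)) := by rw [e]
  rw [Matrix.mulVec_add, Matrix.mulVec_smul, Matrix.mulVec_smul, un0_back R h, un0_back R h,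
    un0_back R h] at e2
  intro a
  have e3 := congrFun e2 a
  simpa only [Pi.add_apply, Pi.smul_apply, smul_eq_mul] using e3

/-- `vl (rot R A) c d = vl A c' d'` with `c' i = ∑ a, c a * R a i`, `d'` alike, again an orthonormal pair; the span condition is transported back with `R * Rᵀ = 1`. -/
theorem uq_rot (R : Matrix (Fin (1 + 5)) (Fin (1 + 5)) ℝ) (h : R * Rᵀ = 1)
    (A : Fin (1 + 5) → Fin (1 + 5) → ℝ) (hU : Uq A) : Uq (rot R A) := by
  obtain ⟨h1, h2⟩ := hU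
  refine ⟨?_, ?_⟩
  · intro c d hcd
    rw [un0_rot]
    exact h1 _ _ (un0_on R h c d hcd)
  · intro c d c' d' hcd hcd' hv hv'
    rw [un0_rot] at hv hv'
    obtain ⟨s, t, s', t', e1, e2⟩ := h2 _ _ _ _ (un0_on R h c d hcd) (un0_on R h c' d' hcd')
      hv hv'
    exact ⟨s, t, s', t', un0_span R h c d c' s t e1, un0_span R h c d d' s' t' e2⟩
-- END un0

-- BEGIN un1
private theorem un1_pm {x : ℝ} (h : x ^ 2 = 1) : x = 1 ∨ x = -1 := by
  have h1 : (x - 1) * (x + 1) = 0 := by linear_combination h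
  rcases mul_eq_zero.1 h1 with h2 | h2
  · exact Or.inl (by linarith)
  · exact Or.inr (by linarith)

private theorem un1_on (i j : Fin (1 + 5)) (h : i ≠ j) :
    ON (fun a => if a = i then 1 else 0) (fun a => if a = j then 1 else 0) := by
  refine ⟨?_, ?_, ?_⟩
  · simp
  · simp
  · simp only [mul_ite, mul_one, mul_zero, Finset.sum_ite_eq', Finset.mem_univ, if_true]
    exact if_neg (Ne.symm h)

private theorem un1_vl (B : Fin (1 + 5) → Fin (1 + 5) → ℝ) (i j : Fin (1 + 5)) :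
    vl B (fun a => if a = i then 1 else 0) (fun a => if a = j then 1 else 0) = B i j := by
  simp [vl]

private theorem un1_le (B : Fin (1 + 5) → Fin (1 + 5) → ℝ) (hB : Asym B) (hU : Uq B)
    (i j : Fin (1 + 5)) (h : i ≠ j) : B i j ^ 2 ≤ 1 := by
  have h1 := hU.1 _ _ (un1_on i j h)
  have h2 := hU.1 _ _ (un1_on j i (Ne.symm h))
  rw [un1_vl] at h1 h2
  rw [hB i j] at h2
  nlinarith

private theorem un1_two (B : Fin (1 + 5) → Fin (1 + 5) → ℝ) (hU : Uq B)
    (i j k l : Fin (1 + 5)) (h : i ≠ j) (h' : k ≠ l) (hki : k ≠ i) (hkj : k ≠ j)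
    (h1 : B i j = 1) (h2 : B k l = 1) : False := by
  obtain ⟨s, t, s', t', e1, -⟩ := hU.2 _ _ _ _ (un1_on i j h) (un1_on k l h')
    ((un1_vl B i j).trans h1) ((un1_vl B k l).trans h2)
  have := e1 k
  simp [hki, hkj] at this

private theorem un1_sq (B : Fin (1 + 5) → Fin (1 + 5) → ℝ) (hB : Asym B) (hU : Uq B)
    (i j k l : Fin (1 + 5)) (h : i ≠ j) (h' : k ≠ l) (hki : k ≠ i) (hkj : k ≠ j) (hli : l ≠ i)
    (hlj : l ≠ j) (h1 : B i j ^ 2 = 1) : B k l ^ 2 < 1 := by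
  refine lt_of_le_of_ne (un1_le B hB hU k l h') fun h2 => ?_
  rcases un1_pm h1 with h1 | h1 <;>
    rcases un1_pm h2 with h2 | h2
  · exact un1_two B hU i j k l h h' hki hkj h1 h2
  · exact un1_two B hU i j l k h (Ne.symm h') hli hlj h1 (by rw [hB k l, h2, neg_neg])
  · exact un1_two B hU j i k l (Ne.symm h) h' hkj hki (by rw [hB i j, h1, neg_neg]) h2
  · exact un1_two B hU j i l k (Ne.symm h) (Ne.symm h') hlj hli (by rw [hB i j, h1, neg_neg])
      (by rw [hB k l, h2, neg_neg])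

private theorem un1_val (B : Fin (1 + 5) → Fin (1 + 5) → ℝ) (hB : Asym B) (hD : Diag B)
    (c d : Fin (1 + 5) → ℝ) : ∑ i, ∑ j, c i * d j * B i j =
      B 0 1 * (c 0 * d 1 - c 1 * d 0) + B 2 3 * (c 2 * d 3 - c 3 * d 2) +
        B 4 5 * (c 4 * d 5 - c 5 * d 4) := by
  have e0 : ∀ a, B a a = 0 := fun a => by have := hB a a; linarith
  have z : ∀ a b : Fin (1 + 5), a.1 / 2 ≠ b.1 / 2 → B a b = 0 := hD
  have e1 : B 1 0 = -B 0 1 := hB 0 1
  have e2 : B 3 2 = -B 2 3 := hB 2 3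
  have e3 : B 5 4 = -B 4 5 := hB 4 5
  have s6 : ∀ f : Fin (1 + 5) → ℝ, ∑ i, f i = f 0 + f 1 + f 2 + f 3 + f 4 + f 5 := fun f =>
    Fin.sum_univ_six f
  simp only [s6, e0, e1, e2, e3, z 0 2 (by decide), z 0 3 (by decide), z 0 4 (by decide),
    z 0 5 (by decide), z 1 2 (by decide), z 1 3 (by decide), z 1 4 (by decide),
    z 1 5 (by decide), z 2 0 (by decide), z 2 1 (by decide), z 2 4 (by decide),
    z 2 5 (by decide), z 3 0 (by decide), z 3 1 (by decide), z 3 4 (by decide),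
    z 3 5 (by decide), z 4 0 (by decide), z 4 1 (by decide), z 4 2 (by decide),
    z 4 3 (by decide), z 5 0 (by decide), z 5 1 (by decide), z 5 2 (by decide),
    z 5 3 (by decide)]
  ring

private theorem un1_term (l L a b c d : ℝ) (h1 : |l| ≤ L) :
    l * (a * d - b * c) ≤ L * ((a ^ 2 + b ^ 2 + c ^ 2 + d ^ 2) / 2) := by
  have h2 : |a * d - b * c| ≤ (a ^ 2 + b ^ 2 + c ^ 2 + d ^ 2) / 2 := by
    rw [abs_le]
    constructor <;> nlinarith [sq_nonneg (a + d), sq_nonneg (a - d), sq_nonneg (b + c),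
      sq_nonneg (b - c)]
  calc l * (a * d - b * c) ≤ |l * (a * d - b * c)| := le_abs_self _
    _ = |l| * |a * d - b * c| := abs_mul _ _
    _ ≤ L * ((a ^ 2 + b ^ 2 + c ^ 2 + d ^ 2) / 2) :=
      mul_le_mul h1 h2 (abs_nonneg _) ((abs_nonneg _).trans h1)

private theorem un1_lt (B : Fin (1 + 5) → Fin (1 + 5) → ℝ) (hB : Asym B) (hD : Diag B)
    (h1 : B 0 1 ^ 2 < 1) (h2 : B 2 3 ^ 2 < 1) (h3 : B 4 5 ^ 2 < 1) : Lt6 B := by
  intro c d hc hd _
  have s6 : ∀ f : Fin (1 + 5) → ℝ, ∑ i, f i = f 0 + f 1 + f 2 + f 3 + f 4 + f 5 := fun f =>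
    Fin.sum_univ_six f
  rw [un1_val B hB hD c d]
  rw [s6] at hc hd
  rw [sq_lt_one_iff_abs_lt_one] at h1 h2 h3
  have hL : max (max |B 0 1| |B 2 3|) |B 4 5| < 1 := max_lt (max_lt h1 h2) h3
  have a1 := un1_term (B 0 1) _ (c 0) (c 1) (d 0) (d 1)
    ((le_max_left |B 0 1| |B 2 3|).trans (le_max_left _ |B 4 5|))
  have a2 := un1_term (B 2 3) _ (c 2) (c 3) (d 2) (d 3)
    ((le_max_right |B 0 1| |B 2 3|).trans (le_max_left _ |B 4 5|))
  have a3 := un1_term (B 4 5) _ (c 4) (c 5) (d 4) (d 5)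
    (le_max_right (max |B 0 1| |B 2 3|) |B 4 5|)
  set L := max (max |B 0 1| |B 2 3|) |B 4 5|
  have a4 : L * ((c 0 ^ 2 + c 1 ^ 2 + d 0 ^ 2 + d 1 ^ 2) / 2) +
      L * ((c 2 ^ 2 + c 3 ^ 2 + d 2 ^ 2 + d 3 ^ 2) / 2) +
      L * ((c 4 ^ 2 + c 5 ^ 2 + d 4 ^ 2 + d 5 ^ 2) / 2) =
      L * ((c 0 ^ 2 + c 1 ^ 2 + c 2 ^ 2 + c 3 ^ 2 + c 4 ^ 2 + c 5 ^ 2) +
        (d 0 ^ 2 + d 1 ^ 2 + d 2 ^ 2 + d 3 ^ 2 + d 4 ^ 2 + d 5 ^ 2)) / 2 := by ring
  rw [hc, hd] at a4
  linarith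

private theorem un1_perm (R : Matrix (Fin (1 + 5)) (Fin (1 + 5)) ℝ) (h : R * Rᵀ = 1)
    (hd : R.det = 1) (σ : Equiv.Perm (Fin (1 + 5))) (hσ : Equiv.Perm.sign σ = 1) :
    R.submatrix σ id * (R.submatrix σ id)ᵀ = 1 ∧ (R.submatrix σ id).det = 1 := by
  constructor
  · have e : (R * Rᵀ).submatrix σ σ = R.submatrix σ id * Rᵀ.submatrix id σ :=
      Matrix.submatrix_mul R Rᵀ σ id σ Function.bijective_id
    rw [Matrix.transpose_submatrix, ← e, h, Matrix.submatrix_one_equiv]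
  · rw [Matrix.det_permute, hσ, hd]
    simp

/-- Row nf5 for `A` and row un0: `A' = rot R A` is diagonal, `|A' 0 1|, |A' 2 3|, |A' 4 5| ≤ 1` (basis vectors), and at most one of them is `1` (two calibrated planes spanned by different basis vectors contradict `Uq`). If none is `1`, `vl A' c d = ∑ l_i m_i` with `∑ |m_i| ≤ 1` (`m_1 = c 0 * d 1 - c 1 * d 0` and so on, Cauchy-Schwarz), so `Lt6 A'`, hence `Lt6 A` (row rts for `Rᵀ`). Else multiply `R` by the permutation matrix of `(0 2)(1 3)` or `(0 4)(1 5)` (determinant `1`) to bring the entry `± 1` to `(0, 1)`. -/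
theorem uq_cases (A : Fin (1 + 5) → Fin (1 + 5) → ℝ) (hA : Asym A) (hU : Uq A) :
    ∃ R : Matrix (Fin (1 + 5)) (Fin (1 + 5)) ℝ, R * Rᵀ = 1 ∧ R.det = 1 ∧ Diag (rot R A) ∧
      (Lt6 A ∨ rot R A 0 1 ^ 2 = 1) ∧ rot R A 0 1 ^ 2 ≤ 1 ∧ rot R A 2 3 ^ 2 < 1 ∧
      rot R A 4 5 ^ 2 < 1 := by
  obtain ⟨R, h, hd, hD⟩ := nf_six A hA
  have hB : Asym (rot R A) := (rot_props R h A).1 hA
  have hV : Uq (rot R A) := uq_rot R h A hU
  have l1 := un1_le _ hB hV 0 1 (by decide)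
  have l2 := un1_le _ hB hV 2 3 (by decide)
  have l3 := un1_le _ hB hV 4 5 (by decide)
  rcases eq_or_lt_of_le l1 with g1 | g1
  · exact ⟨R, h, hd, hD, Or.inr g1, l1,
      un1_sq _ hB hV 0 1 2 3 (by decide) (by decide) (by decide) (by decide) (by decide)
        (by decide) g1,
      un1_sq _ hB hV 0 1 4 5 (by decide) (by decide) (by decide) (by decide) (by decide)
        (by decide) g1⟩
  rcases eq_or_lt_of_le l2 with g2 | g2
  · obtain ⟨p1, p2⟩ := un1_perm R h hd (Equiv.swap 0 2 * Equiv.swap 1 3) (by decide)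
    refine ⟨_, p1, p2, fun a b hab => ?_, Or.inr g2, l2, g1,
      un1_sq _ hB hV 2 3 4 5 (by decide) (by decide) (by decide) (by decide) (by decide)
        (by decide) g2⟩
    refine hD _ _ ?_
    revert a b
    decide
  rcases eq_or_lt_of_le l3 with g3 | g3
  · obtain ⟨p1, p2⟩ := un1_perm R h hd (Equiv.swap 0 4 * Equiv.swap 1 5) (by decide)
    refine ⟨_, p1, p2, fun a b hab => ?_, Or.inr g3, l3, g2, g1⟩
    refine hD _ _ ?_
    revert a b
    decide
  · refine ⟨R, h, hd, hD, Or.inl ?_, l1, g2, g3⟩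
    have hT : Rᵀ * Rᵀᵀ = 1 := by
      rw [Matrix.transpose_transpose]
      exact mul_eq_one_comm.1 h
    have := (rot_props Rᵀ hT (rot R A)).2.1 (un1_lt _ hB hD g1 g2 g3)
    rwa [(rot_props R h A).2.2.2] at this
-- END un1

-- BEGIN un2
/-- Rows un1, st3, st5, rts: with `u_i` the three squares, `d2 = 3 - u1 - u2 - u3 > 0`, `d1 = (1 - u2) (1 - u3) + (1 - u1) (1 - u2 u3) > 0`. -/
theorem den_pos (A : Fin (1 + 5) → Fin (1 + 5) → ℝ) (hA : Asym A) (hU : Uq A) :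
    0 < d1 A ∧ 0 < d2 A := by
  obtain ⟨R, h, hd, hD, _, h1, h2, h3⟩ := uq_cases A hA hU
  obtain ⟨e1, e2, _, _⟩ := th_rot R h hd A
  have hAs : Asym (rot R A) := (rot_props R h A).1 hA
  obtain ⟨_, e3, e4⟩ := pf_diag (rot R A) hAs hD
  rw [← e1, ← e2, e3, e4]
  have q1 : 0 ≤ rot R A 0 1 ^ 2 := sq_nonneg _
  have q2 : 0 ≤ rot R A 2 3 ^ 2 := sq_nonneg _
  have q3 : 0 ≤ rot R A 4 5 ^ 2 := sq_nonneg _
  have e5 : (rot R A 0 1 * rot R A 2 3 * rot R A 4 5) ^ 2 =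
      rot R A 0 1 ^ 2 * rot R A 2 3 ^ 2 * rot R A 4 5 ^ 2 := by ring
  rw [e5]
  generalize rot R A 0 1 ^ 2 = u1 at *
  generalize rot R A 2 3 ^ 2 = u2 at *
  generalize rot R A 4 5 ^ 2 = u3 at *
  have p1 : 0 < (1 - u2) * (1 - u3) := mul_pos (by linarith) (by linarith)
  have p2 : u2 * u3 ≤ 1 := by nlinarith
  have p3 : 0 ≤ (1 - u1) * (1 - u2 * u3) := mul_nonneg (by linarith) (by linarith)
  have e6 : 2 - (u1 + u2 + u3) + u1 * u2 * u3 = (1 - u2) * (1 - u3) + (1 - u1) * (1 - u2 * u3) := by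
    ring
  constructor
  · rw [e6]
    linarith
  · linarith
-- END un2

-- BEGIN un3
private theorem un3_asym (a b : Fin (1 + 5)) : Asym (E2 a b) := by
  intro i j
  unfold E2
  by_cases h1 : i = a ∧ j = b <;> by_cases h2 : i = b ∧ j = a <;>
    simp [h1, h2, and_comm]

private theorem un3_ip (X : Fin (1 + 5) → Fin (1 + 5) → ℝ) (hX : Asym X) (a b : Fin (1 + 5)) :
    ip X (E2 a b) = X a b := by
  unfold ip E2
  have h1 : ∑ i, ∑ j, X i j * ((if i = a ∧ j = b then (1 : ℝ) else 0) -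
      (if i = b ∧ j = a then (1 : ℝ) else 0)) = X a b - X b a := by
    simp only [mul_sub, Finset.sum_sub_distrib, ite_and, mul_ite, mul_one, mul_zero]
    simp
  rw [h1, hX a b]
  ring

private theorem un3_eq (A X : Fin (1 + 5) → Fin (1 + 5) → ℝ) (hA : Asym A) (hD : Diag A)
    (hX : Asym X) (hs : Sol A X) (a b : Fin (1 + 5)) :
    X a b + (A 0 1 * q4 X (E2 a b) 2 3 4 5 + A 2 3 * q4 X (E2 a b) 0 1 4 5 +
      A 4 5 * q4 X (E2 a b) 0 1 2 3) = 0 := by
  have h1 := hs (E2 a b) (un3_asym a b)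
  rw [un3_ip X hX, (T6_symm A X (E2 a b) A).1, T6_diag X A (E2 a b) hX hA (un3_asym a b) hD] at h1
  exact h1

private theorem un3_zero {x y c : ℝ} (hc : c ^ 2 < 1) (h1 : x = c * y) (h2 : y = c * x) :
    x = 0 ∧ y = 0 := by
  have h3 : (1 - c ^ 2) * x = 0 := by
    linear_combination h1 + c * h2
  have h4 : x = 0 := by
    rcases mul_eq_zero.1 h3 with h | h
    · linarith
    · exact h
  exact ⟨h4, by rw [h2, h4, mul_zero]⟩

/-- Test `hs` with `Y = E2 a b`; `T6 A X Y = T6 X A Y`, row dg0 with `B = A` (as row sl2 of `Nf.lean`). Pairs with factor `A 2 3` or `A 4 5` vanish (squares `< 1`); `(2, 4)`: `X 2 4 = A 0 1 * X 3 5`; `(2, 5)`: `X 2 5 = -(A 0 1 * X 3 4)`; the pairs `(0, 1)`, `(2, 3)`, `(4, 5)`: `X 0 1 + (A 2 3 * X 4 5 + A 4 5 * X 2 3) = 0`, `X 2 3 + (A 0 1 * X 4 5 + A 4 5 * X 0 1) = 0`, `X 4 5 + (A 0 1 * X 2 3 + A 2 3 * X 0 1) = 0`; with `A 0 1 ^ 2 = 1` the last two give `(A 4 5 - A 0 1 * A 2 3) * X 0 1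 = 0`, and if `A 4 5 = A 0 1 * A 2 3` the first gives `X 0 1 = A 2 3 ^ 2 * X 0 1`; so `X 0 1 = 0`. -/
theorem sol_three (A X : Fin (1 + 5) → Fin (1 + 5) → ℝ) (hA : Asym A) (hD : Diag A)
    (h1 : A 0 1 ^ 2 = 1) (h2 : A 2 3 ^ 2 < 1) (h3 : A 4 5 ^ 2 < 1) (hX : Asym X)
    (hs : Sol A X) : (∀ j, X 0 j = 0) ∧ (∀ j, X 1 j = 0) ∧ X 4 5 = -(A 0 1 * X 2 3) ∧
      X 3 5 = A 0 1 * X 2 4 ∧ X 3 4 = -(A 0 1 * X 2 5) := by
  have g01 := un3_eq A X hA hD hX hs 0 1
  have g23 := un3_eq A X hA hD hX hs 2 3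
  have g45 := un3_eq A X hA hD hX hs 4 5
  have g02 := un3_eq A X hA hD hX hs 0 2
  have g13 := un3_eq A X hA hD hX hs 1 3
  have g03 := un3_eq A X hA hD hX hs 0 3
  have g12 := un3_eq A X hA hD hX hs 1 2
  have g04 := un3_eq A X hA hD hX hs 0 4
  have g15 := un3_eq A X hA hD hX hs 1 5
  have g05 := un3_eq A X hA hD hX hs 0 5
  have g14 := un3_eq A X hA hD hX hs 1 4
  have g35 := un3_eq A X hA hD hX hs 3 5
  have g34 := un3_eq A X hA hD hX hs 3 4
  simp [q4, E2, Fin.ext_iff] at g01 g23 g45 g02 g13 g03 g12 g04 g15 g05 g14 g35 g34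
  have k1 := un3_zero h3 (x := X 0 2) (y := X 1 3) (by linarith) (by linarith)
  have k2 := un3_zero (c := -(A 4 5)) (by rw [neg_sq]; exact h3) (x := X 0 3) (y := X 1 2)
    (by linarith) (by linarith)
  have k3 := un3_zero h2 (x := X 0 4) (y := X 1 5) (by linarith) (by linarith)
  have k4 := un3_zero (c := -(A 2 3)) (by rw [neg_sq]; exact h2) (x := X 0 5) (y := X 1 4)
    (by linarith) (by linarith)
  have k0 : X 0 1 = 0 := by
    have e1 : (A 4 5 - A 0 1 * A 2 3) * X 0 1 = 0 := by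
      linear_combination g23 - A 0 1 * g45 + X 2 3 * h1
    rcases mul_eq_zero.1 e1 with h | h
    · have e2 : (1 - A 2 3 ^ 2) * X 0 1 = 0 := by
        linear_combination g01 - A 2 3 * g45 - X 2 3 * h
      rcases mul_eq_zero.1 e2 with h4 | h4
      · linarith
      · exact h4
    · exact h
  have z0 : X 0 0 = 0 := by
    have := hX 0 0
    linarith
  have z1 : X 1 1 = 0 := by
    have := hX 1 1
    linarith
  have z10 : X 1 0 = 0 := by
    rw [hX 0 1, k0, neg_zero]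
  refine ⟨?_, ?_, ?_, ?_, ?_⟩
  · intro j
    fin_cases j
    · exact z0
    · exact k0
    · exact k1.1
    · exact k2.1
    · exact k3.1
    · exact k4.1
  · intro j
    fin_cases j
    · exact z10
    · exact z1
    · exact k2.2
    · exact k1.2
    · exact k4.2
    · exact k3.2
  · rw [k0] at g45
    linarith
  · linarith
  · linarith
-- END un3

-- BEGIN un4
private theorem un4_ty (X : Fin (1 + 5) → Fin (1 + 5) → ℝ) (hX : Asym X)
    (h0 : ∀ j, X 0 j = 0) (h1 : ∀ j, X 1 j = 0) : Ty 0 X := by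
  have hz : ∀ a : Fin (1 + 5), a.1 < 2 → ∀ b, X a b = 0 := by
    intro a ha b
    have h2 : a = 0 ∨ a = 1 := by
      revert a
      decide
    rcases h2 with rfl | rfl
    · exact h0 b
    · exact h1 b
  intro a b hab
  have ha : ¬ a.1 < 2 := fun h => hab (hz a h b)
  have hb : ¬ b.1 < 2 := fun h => hab (by rw [hX b a, hz b h a, neg_zero])
  rw [if_neg ha, if_neg hb]

/-- Row un3 for `X` and `Y`; `T6 X Y Z = Z 0 1 * six X Y` (row t6a: `T6_two` with `T6_symm`, after splitting off the part of `Z` with indices `0`, `1`; or `T6 X Y Z = T6 Z X Y` and `T6_ty`), `six X Y = -(2 * A 0 1 * (X 2 3 * Y 2 3 + X 2 4 * Y 2 4 + X 2 5 * Y 2 5))` and `ip X Y = 2 * (..)`. -/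
theorem rank_three (A X Y : Fin (1 + 5) → Fin (1 + 5) → ℝ) (hA : Asym A) (hD : Diag A)
    (h1 : A 0 1 ^ 2 = 1) (h2 : A 2 3 ^ 2 < 1) (h3 : A 4 5 ^ 2 < 1) (hX : Asym X)
    (hY : Asym Y) (hs : Sol A X) (ht : Sol A Y) (Z : Fin (1 + 5) → Fin (1 + 5) → ℝ)
    (hZ : Asym Z) : T6 X Y Z = -(ip X Y * (A 0 1 * Z 0 1)) := by
  obtain ⟨x0, x1, x2, x3, x4⟩ := sol_three A X hA hD h1 h2 h3 hX hs
  obtain ⟨y0, y1, y2, y3, y4⟩ := sol_three A Y hA hD h1 h2 h3 hY ht
  have t0 : (tl 0 : Fin (1 + 5)) = 2 := by decide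
  have t1 : (tl 1 : Fin (1 + 5)) = 3 := by decide
  have t2 : (tl 2 : Fin (1 + 5)) = 4 := by decide
  have t3 : (tl 3 : Fin (1 + 5)) = 5 := by decide
  have key : ∀ f : Fin (1 + 5) → ℝ, ∑ a, f a = f 0 + f 1 + f 2 + f 3 + f 4 + f 5 := by
    intro f
    exact Fin.sum_univ_six f
  have e1 : T6 X Y Z = Z 0 1 * six X Y := by
    rw [(T6_symm X Y Z X).2.1, (T6_symm X Z Y X).1]
    exact T6_two Z X Y hZ hX hY (un4_ty X hX x0 x1) (un4_ty Y hY y0 y1)
  have e2 : six X Y = -(2 * A 0 1 * (X 2 3 * Y 2 3 + X 2 4 * Y 2 4 + X 2 5 * Y 2 5)) := by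
    unfold six
    rw [t0, t1, t2, t3, x2, x3, x4, y2, y3, y4]
    ring
  have xd : ∀ a, X a a = 0 := fun a => by
    have := hX a a
    linarith
  have e3 : ip X Y = 2 * (X 2 3 * Y 2 3 + X 2 4 * Y 2 4 + X 2 5 * Y 2 5) := by
    rw [ip, key]
    simp only [key]
    rw [xd 2, xd 3, xd 4, xd 5, hX 0 2, hX 0 3, hX 0 4, hX 0 5, hX 1 2, hX 1 3, hX 1 4, hX 1 5,
      hX 2 3, hX 2 4, hX 2 5, hX 3 4, hX 3 5, hX 4 5, hY 2 3, hY 2 4, hY 2 5, hY 3 4, hY 3 5,
      hY 4 5]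
    simp only [x0, x1]
    rw [x2, x3, x4, y2, y3, y4]
    linear_combination (X 2 3 * Y 2 3 + X 2 4 * Y 2 4 + X 2 5 * Y 2 5) * h1
  rw [e1, e2, e3]
  ring
-- END un4

-- BEGIN un5
/-- Rows st4, st5, dg1: `th1 A` is diagonal, its `(0, 1)` entry is `l1 (1 - l2 ^ 2) (1 - l3 ^ 2) / d1 A` with `d1 A = (1 - l2 ^ 2) (1 - l3 ^ 2)` (`l1 ^ 2 = 1`), the other two are `l2 - l2 (l1 ^ 2 + l3 ^ 2) + l1 l2 l3 * l1 l3 = 0` and the same for `l3`. -/
theorem th1_diag (A : Fin (1 + 5) → Fin (1 + 5) → ℝ) (hA : Asym A) (hD : Diag A)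
    (h1 : A 0 1 ^ 2 = 1) (h2 : A 2 3 ^ 2 < 1) (h3 : A 4 5 ^ 2 < 1)
    (Z : Fin (1 + 5) → Fin (1 + 5) → ℝ) (hZ : Asym Z) : ip (th1 A) Z = A 0 1 * Z 0 1 := by
  obtain ⟨s1, s2, s3, s4⟩ := st_diag A A hA hA hD hD
  have pA : Asym (ph A) := by
    intro a b
    unfold ph
    rw [(st_props A A).1 a b]
    ring
  have pD : Diag (ph A) := by
    intro a b hab
    unfold ph
    rw [s1 a b hab, zero_div]
  have p1 : ph A 0 1 = A 2 3 * A 4 5 := by
    unfold ph
    rw [s2]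
    ring
  have p2 : ph A 2 3 = A 0 1 * A 4 5 := by
    unfold ph
    rw [s3]
    ring
  have p3 : ph A 4 5 = A 0 1 * A 2 3 := by
    unfold ph
    rw [s4]
    ring
  obtain ⟨t1, t2, t3, t4⟩ := st_diag A (ph A) hA pA hD pD
  obtain ⟨f1, -, f3⟩ := pf_diag A hA hD
  have tA : Asym (th1 A) := by
    intro a b
    unfold th1
    rw [hA a b, (st_props A (ph A)).1 a b, pA a b]
    ring
  have tD : Diag (th1 A) := by
    intro a b hab
    unfold th1
    rw [hD a b hab, t1 a b hab, pD a b hab]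
    simp
  have hd : d1 A = (1 - A 2 3 ^ 2) * (1 - A 4 5 ^ 2) := by
    rw [f3, mul_pow, mul_pow, h1]
    ring
  have hd0 : d1 A ≠ 0 := by
    rw [hd]
    exact (mul_pos (by linarith) (by linarith)).ne'
  have e1 : th1 A 0 1 = A 0 1 := by
    unfold th1
    rw [div_eq_iff hd0, t2, p1, p2, p3, f1, hd]
    ring
  have e2 : th1 A 2 3 = 0 := by
    unfold th1
    rw [div_eq_zero_iff]
    left
    rw [t3, p1, p2, p3, f1]
    linear_combination (A 2 3 * A 4 5 ^ 2 - A 2 3) * h1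
  have e3 : th1 A 4 5 = 0 := by
    unfold th1
    rw [div_eq_zero_iff]
    left
    rw [t4, p1, p2, p3, f1]
    linear_combination (A 4 5 * A 2 3 ^ 2 - A 4 5) * h1
  rw [ip_diag (th1 A) Z tA hZ tD, e1, e2, e3]
  ring
-- END un5

-- BEGIN un6
/-- Row un1. If `Lt6 A`: row rk6, `ip (th2 A) Z = (2 * ip A Z - T6 A A Z) / d2 A` (row st1) and `d2 A > 0` (row un2). Else, with `R` of row un1, rows rtl, rts, rt6, rtp, st3 carry `X`, `Y`, `Z` to `rot R`, where rows un4, un5 apply. -/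
theorem rank_uniq (A : Fin (1 + 5) → Fin (1 + 5) → ℝ) (hA : Asym A) (hU : Uq A) :
    (∀ X Y, Asym X → Asym Y → Sol A X → Sol A Y → ∀ Z, Asym Z →
      T6 X Y Z = -(ip X Y * ip (th1 A) Z)) ∨
    (∀ X Y, Asym X → Asym Y → Sol A X → Sol A Y → ∀ Z, Asym Z →
      T6 X Y Z = -(ip X Y * ip (th2 A) Z)) := by
  obtain ⟨R, hR, hdet, hD, hcase, hl1, hl2, hl3⟩ := uq_cases A hA hU
  rcases hcase with hLt | h1
  · right
    intro X Y hX hY hs ht Z hZ
    have h := rank_lt A X Y hA hLt hX hY hs ht Z hZ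
    have hd : 0 < d2 A := (den_pos A hA hU).2
    have e1 : ip (th2 A) Z = (2 * ip A Z - T6 A A Z) / d2 A := by
      rw [← (st_props A A).2 Z hZ]
      unfold ip th2
      rw [eq_div_iff hd.ne', mul_assoc, Finset.sum_mul, mul_left_comm (2 : ℝ) (1 / 2), ← mul_sub]
      congr 1
      rw [Finset.mul_sum, ← Finset.sum_sub_distrib]
      refine Finset.sum_congr rfl fun a _ => ?_
      rw [Finset.sum_mul, Finset.mul_sum, ← Finset.sum_sub_distrib]
      refine Finset.sum_congr rfl fun b _ => ?_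
      field_simp
    rw [e1]
    have h' : d2 A * T6 X Y Z = -(ip X Y * (2 * ip A Z - T6 A A Z)) := h
    have e2 : -(ip X Y * ((2 * ip A Z - T6 A A Z) / d2 A)) =
        -(ip X Y * (2 * ip A Z - T6 A A Z)) / d2 A := by ring
    rw [e2, ← h', mul_comm, mul_div_assoc, div_self hd.ne', mul_one]
  · left
    intro X Y hX hY hs ht Z hZ
    have hA' := (rot_props R hR A).1 hA
    have hX' := (rot_props R hR X).1 hX
    have hY' := (rot_props R hR Y).1 hY
    have hZ' := (rot_props R hR Z).1 hZ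
    have h := rank_three (rot R A) (rot R X) (rot R Y) hA' hD h1 hl2 hl3 hX' hY'
      (sol_rot R hR hdet A X hs) (sol_rot R hR hdet A Y ht) (rot R Z) hZ'
    rw [T6_rot R hdet, ip_rot R hR, ← th1_diag (rot R A) hA' hD h1 hl2 hl3 (rot R Z) hZ',
      ← (th_rot R hR hdet A).2.2.1, ip_rot R hR] at h
    exact h
-- END un6

-- BEGIN un7
private theorem un7_r (r : Fin (1 + 1)) : r = 0 ∨ r = 1 := by
  rcases r with ⟨r, hr⟩
  rw [Fin.ext_iff, Fin.ext_iff]
  simp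
  omega

private theorem un7_expand (W : Form 1 (1 + 1)) (w : Fin (1 + 5) → E 1) (c d : Fin (1 + 5) → ℝ) :
    W (fun r => if r = 0 then ∑ i, c i • w i else ∑ i, d i • w i) =
      ∑ i, ∑ j, c i * d j * W (fun r => if r = 0 then w i else w j) := by
  have e0 : (fun r : Fin (1 + 1) => if r = 0 then ∑ i, c i • w i else ∑ i, d i • w i) =
      fun r : Fin (1 + 1) => ∑ i, (if r = 0 then c i else d i) • w i := by
    funext r
    by_cases h : r = 0 <;> simp [h]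
  rw [e0, ContinuousAlternatingMap.map_sum]
  have e1 : ∀ ρ : Fin (1 + 1) → Fin (1 + 5),
      W (fun r => (if r = 0 then c (ρ r) else d (ρ r)) • w (ρ r)) =
        c (ρ 0) * d (ρ 1) * W (fun r => if r = 0 then w (ρ 0) else w (ρ 1)) := by
    intro ρ
    rw [ContinuousAlternatingMap.map_smul_univ]
    have e2 : ∏ i : Fin (1 + 1), (if i = 0 then c (ρ i) else d (ρ i)) = c (ρ 0) * d (ρ 1) := by
      have : (∏ i : Fin 2, (if i = 0 then c (ρ i) else d (ρ i))) = c (ρ 0) * d (ρ 1) := by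
        rw [Fin.prod_univ_two]
        simp
      exact this
    rw [e2, smul_eq_mul]
    congr 2
    funext r
    rcases un7_r r with h | h
    · simp [h]
    · subst h
      simp
  rw [Finset.sum_congr rfl fun ρ _ => e1 ρ]
  have e3 := Equiv.sum_comp (finTwoArrowEquiv (Fin (1 + 5)))
    (fun p : Fin (1 + 5) × Fin (1 + 5) => c p.1 * d p.2 * W (fun r => if r = 0 then w p.1 else w p.2))
  rw [← Fintype.sum_prod_type' (f := fun i j => c i * d j *
    W (fun r => if r = 0 then w i else w j)), ← e3]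
  rfl

private theorem un7_val (e : Fin (1 + 5) → E 1 → E 1) (Ω : E 1 → Form 1 (1 + 1)) (x : E 1)
    (c d : Fin (1 + 5) → ℝ) :
    Ω x (fun r => ∑ a, (if r = 0 then c else d) a • e a x) =
      vl (fun a b => cmp e Ω x (pr a b)) c d := by
  have hvec : (fun r : Fin (1 + 1) => ∑ a, (if r = 0 then c else d) a • e a x) =
      fun r : Fin (1 + 1) => if r = 0 then ∑ i, c i • e i x else ∑ i, d i • e i x := by
    funext r
    by_cases h : r = 0 <;> simp [h]
  rw [hvec, un7_expand (Ω x) (fun i => e i x) c d]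
  unfold vl
  refine Finset.sum_congr rfl fun i _ => Finset.sum_congr rfl fun j _ => ?_
  unfold Pool.Agent.Oae.cmp
  congr 2
  funext r
  unfold pr
  by_cases h : r = 0 <;> simp [h]

private theorem un7_on {c d : Fin (1 + 5) → ℝ} (h : ON c d) (r r' : Fin (1 + 1)) :
    ∑ a, (if r = 0 then c else d) a * (if r' = 0 then c else d) a = if r = r' then 1 else 0 := by
  obtain ⟨h1, h2, h3⟩ := h
  have h01 : (0 : Fin (1 + 1)) ≠ 1 := by decide
  rcases un7_r r with h | h <;> rcases un7_r r' with h' | h' <;> subst h <;> subst h'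
  · rw [if_pos rfl, if_pos rfl, ← h1]
    exact Finset.sum_congr rfl fun i _ => by ring
  · rw [if_pos rfl, if_neg h01.symm, if_neg h01, h3]
  · rw [if_neg h01.symm, if_pos rfl, if_neg h01.symm, ← h3]
    exact Finset.sum_congr rfl fun i _ => by ring
  · rw [if_neg h01.symm, if_pos rfl, ← h2]
    exact Finset.sum_congr rfl fun i _ => by ring

/-- `Ω x` at `∑ a, c a • e a x`, `∑ a, d a • e a x` is `vl A c d` (multilinearity, `cmp`, `pr`; functions on `Fin 2`: `fun r => if r = 0 then c else d`), see row pbd of `Oae.Six` (`pair_lt`). -/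
theorem uq_of_one (e : Fin (1 + 5) → E 1 → E 1) (Ω : E 1 → Form 1 (1 + 1)) (x : E 1)
    (hc : ComassLe e Ω x) (h1 : AtMostOne e Ω x) : Asym (fun a b => cmp e Ω x (pr a b)) ∧
      Uq (fun a b => cmp e Ω x (pr a b)) := by
  have h01 : (1 : Fin (1 + 1)) ≠ 0 := by decide
  refine ⟨?_, ?_, ?_⟩
  · intro a b
    have h := cmp_alt e Ω x (pr a b) (Equiv.swap 0 1)
    have h2 : (fun r => pr a b ((Equiv.swap (0 : Fin (1 + 1)) 1) r)) = pr b a := by
      funext r
      fin_cases r <;> simp [pr]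
    rw [h2] at h
    have h3 : sg (Equiv.swap (0 : Fin (1 + 1)) 1) = -1 := by
      unfold sg
      rw [Equiv.Perm.sign_swap (by decide)]
      simp
    rw [h3] at h
    show cmp e Ω x (pr b a) = -cmp e Ω x (pr a b)
    rw [h]
    ring
  · intro c d hcd
    rw [← un7_val]
    refine hc (fun r => if r = 0 then c else d) fun r => ?_
    have h := un7_on hcd r r
    rw [if_pos rfl] at h
    rw [← h]
    exact le_of_eq (Finset.sum_congr rfl fun i _ => by ring)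
  · intro c d c' d' hcd hcd' hv hv'
    rw [← un7_val] at hv hv'
    have h := h1 (fun r => if r = 0 then c else d) (fun r => if r = 0 then c' else d')
      (un7_on hcd) (un7_on hcd') hv hv'
    have hs : ∀ f : Fin (1 + 1) → ℝ, ∑ k, f k = f 0 + f 1 := fun f => Fin.sum_univ_two f
    obtain ⟨t, ht⟩ := h 0
    obtain ⟨t', ht'⟩ := h 1
    refine ⟨t 0, t 1, t' 0, t' 1, fun a => ?_, fun a => ?_⟩
    · have := ht a
      rw [hs, if_pos rfl, if_pos rfl, if_neg h01] at this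
      exact this
    · have := ht' a
      rw [hs, if_neg h01, if_pos rfl, if_neg h01] at this
      exact this
-- END un7

-- BEGIN un8
private theorem un8_cmp {q : ℕ} (U : Set (E q)) (e : Fin (q + 5) → E q → E q) (he : IsFrame U e)
    (Ω : E q → Form q (q + 1)) (hΩ : ContDiffOn ℝ ∞ Ω U) (b : Fin (q + 1) → Fin (q + 5)) :
    ContDiffOn ℝ ∞ (fun x => cmp e Ω x b) U := by
  have hcoord : ∀ (b i : Fin (q + 5)), ContDiffOn ℝ ∞ (fun x => e b x i) U := by
    intro b i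
    have h1 : ContDiffOn ℝ ∞ (fun x => (EuclideanSpace.proj i : E q →L[ℝ] ℝ) (e b x)) U :=
      (EuclideanSpace.proj i : E q →L[ℝ] ℝ).contDiff.comp_contDiffOn (he.1 b)
    exact h1
  have hev : ∀ v : Fin (q + 1) → E q, ContDiffOn ℝ ∞ (fun x => Ω x v) U := by
    intro v
    have h1 : ContDiffOn ℝ ∞ (fun x => (ContinuousAlternatingMap.apply ℝ (E q) ℝ v) (Ω x)) U :=
      (ContinuousAlternatingMap.apply ℝ (E q) ℝ v).contDiff.comp_contDiffOn hΩ
    exact h1
  have h2 : (fun x => cmp e Ω x b) =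
      fun x => ∑ a : Fin (q + 1) → Fin (q + 5), (∏ r, e (b r) x (a r)) * Ω x (fun r => bv (a r)) := by
    funext x
    exact form_expand (Ω x) (fun r => e (b r) x)
  rw [h2]
  exact ContDiffOn.sum fun a _ => (contDiffOn_prod fun r _ => hcoord (b r) (a r)).mul (hev _)

private theorem un8_perm : ∀ σ : Equiv.Perm (Fin (1 + 1)), σ = 1 ∨ σ = Equiv.swap 0 1 := by
  decide

private theorem un8_T6 (U : Set (E 1)) (A B C : E 1 → Fin (1 + 5) → Fin (1 + 5) → ℝ)
    (hA : ∀ a b, ContDiffOn ℝ ∞ (fun x => A x a b) U)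
    (hB : ∀ a b, ContDiffOn ℝ ∞ (fun x => B x a b) U)
    (hC : ∀ a b, ContDiffOn ℝ ∞ (fun x => C x a b) U) :
    ContDiffOn ℝ ∞ (fun x => T6 (A x) (B x) (C x)) U := by
  unfold T6
  exact contDiffOn_const.mul (ContDiffOn.sum fun s _ => contDiffOn_const.mul
    ((hA _ _).mul ((hB _ _).mul (hC _ _))))

private theorem un8_ip (U : Set (E 1)) (A B : E 1 → Fin (1 + 5) → Fin (1 + 5) → ℝ)
    (hA : ∀ a b, ContDiffOn ℝ ∞ (fun x => A x a b) U)
    (hB : ∀ a b, ContDiffOn ℝ ∞ (fun x => B x a b) U) :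
    ContDiffOn ℝ ∞ (fun x => ip (A x) (B x)) U := by
  unfold ip
  exact contDiffOn_const.mul (ContDiffOn.sum fun a _ => ContDiffOn.sum fun b _ =>
    (hA a b).mul (hB a b))

private theorem un8_form (U : Set (E 1)) (e : Fin (1 + 5) → E 1 → E 1) (he : IsFrame U e)
    (B : E 1 → Fin (1 + 5) → Fin (1 + 5) → ℝ)
    (hB : ∀ a b, ContDiffOn ℝ ∞ (fun x => B x a b) U) (hs : ∀ x ∈ U, Asym (B x)) :
    ∃ Θ : E 1 → Form 1 (1 + 1), ContDiffOn ℝ ∞ Θ U ∧
      ∀ x ∈ U, ∀ a b, cmp e Θ x (pr a b) = B x a b := by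
  obtain ⟨Θ, hΘ, hc⟩ := exists_form U e he (fun b x => B x (b 0) (b 1)) (fun b => hB (b 0) (b 1))
    (fun x hx b σ => by
      rcases un8_perm σ with hσ | hσ
      · rw [hσ]
        unfold sg
        rw [Equiv.Perm.sign_one]
        simp
      · rw [hσ]
        have h3 : sg (Equiv.swap (0 : Fin (1 + 1)) 1) = -1 := by
          unfold sg
          rw [Equiv.Perm.sign_swap (by decide)]
          norm_num
        have h4 : (Equiv.swap (0 : Fin (1 + 1)) 1) 0 = 1 := Equiv.swap_apply_left _ _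
        have h5 : (Equiv.swap (0 : Fin (1 + 1)) 1) 1 = 0 := Equiv.swap_apply_right _ _
        rw [h3]
        show B x (b ((Equiv.swap (0 : Fin (1 + 1)) 1) 0)) (b ((Equiv.swap (0 : Fin (1 + 1)) 1) 1)) =
          -1 * B x (b 0) (b 1)
        rw [h4, h5, hs x hx (b 0) (b 1)]
        ring)
  exact ⟨Θ, hΘ, fun x hx a b => hc x hx (pr a b)⟩

/-- Row exf for `f b x = th1 (A x) (b 0) (b 1)` and `th2 (A x) (b 0) (b 1)`, `A x a b = cmp e Ω x (pr a b)`: the entries `A x a b` are smooth on `U` (`Ω` and `e` are smooth, see `Wf_smooth` in `Oad.Gau`), `st`, `ph`, `pf`, `d1`, `d2` are polynomials in them, the denominators are positive; `th1 A`, `th2 A` are antisymmetric (row st1), so `f · x` is `Alt` (`Perm (Fin 2)` has two elements); every `b : Fin 2 → Fin 6` is `pr (b 0) (b 1)`. -/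
theorem exists_thetas (U : Set (E 1)) (hU : IsOpen U) (e : Fin (1 + 5) → E 1 → E 1)
    (he : IsFrame U e) (Ω : E 1 → Form 1 (1 + 1)) (hΩ : ContDiffOn ℝ ∞ Ω U)
    (h : ∀ x ∈ U, 0 < d1 (fun a b => cmp e Ω x (pr a b)) ∧
      0 < d2 (fun a b => cmp e Ω x (pr a b))) :
    ∃ Θ : Bool → E 1 → Form 1 (1 + 1), (∀ i, ContDiffOn ℝ ∞ (Θ i) U) ∧
      (∀ x ∈ U, ∀ a b, cmp e (Θ false) x (pr a b) = th1 (fun a b => cmp e Ω x (pr a b)) a b) ∧
      ∀ x ∈ U, ∀ a b, cmp e (Θ true) x (pr a b) = th2 (fun a b => cmp e Ω x (pr a b)) a b := by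
  obtain ⟨A, hAd⟩ : ∃ A : E 1 → Fin (1 + 5) → Fin (1 + 5) → ℝ,
      ∀ x, A x = fun a b => cmp e Ω x (pr a b) := ⟨_, fun _ => rfl⟩
  simp only [← hAd] at h ⊢
  have hsm : ∀ a b, ContDiffOn ℝ ∞ (fun x => A x a b) U := by
    intro a b
    simp only [hAd]
    exact un8_cmp U e he Ω hΩ (pr a b)
  have hasym : ∀ x, Asym (A x) := by
    intro x a b
    rw [hAd]
    show cmp e Ω x (pr b a) = -cmp e Ω x (pr a b)
    have h1 := cmp_alt e Ω x (pr a b) (Equiv.swap 0 1)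
    have h2 : (fun r => pr a b ((Equiv.swap (0 : Fin (1 + 1)) 1) r)) = pr b a := by
      funext r
      fin_cases r <;> rfl
    have h3 : sg (Equiv.swap (0 : Fin (1 + 1)) 1) = -1 := by
      unfold sg
      rw [Equiv.Perm.sign_swap (by decide)]
      norm_num
    rw [h2, h3] at h1
    rw [h1]
    ring
  have hst : ∀ B : E 1 → Fin (1 + 5) → Fin (1 + 5) → ℝ,
      (∀ a b, ContDiffOn ℝ ∞ (fun x => B x a b) U) →
      ∀ a b, ContDiffOn ℝ ∞ (fun x => st (A x) (B x) a b) U := fun B hB a b =>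
    un8_T6 U A B (fun _ => E2 a b) hsm hB (fun _ _ => contDiffOn_const)
  have hph : ∀ a b, ContDiffOn ℝ ∞ (fun x => ph (A x) a b) U := fun a b =>
    (hst A hsm a b).div_const 2
  have hpf : ContDiffOn ℝ ∞ (fun x => pf (A x)) U :=
    (un8_ip U A (fun x => ph (A x)) hsm hph).div_const 3
  have hip : ContDiffOn ℝ ∞ (fun x => ip (A x) (A x)) U := un8_ip U A A hsm hsm
  have hd1 : ContDiffOn ℝ ∞ (fun x => d1 (A x)) U :=
    (contDiffOn_const.sub hip).add (hpf.pow 2)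
  have hd2 : ContDiffOn ℝ ∞ (fun x => d2 (A x)) U := contDiffOn_const.sub hip
  have ht1 : ∀ a b, ContDiffOn ℝ ∞ (fun x => th1 (A x) a b) U := fun a b =>
    ContDiffOn.div (((hsm a b).sub (hst (fun x => ph (A x)) hph a b)).add (hpf.mul (hph a b))) hd1
      (fun x hx => (h x hx).1.ne')
  have ht2 : ∀ a b, ContDiffOn ℝ ∞ (fun x => th2 (A x) a b) U := fun a b =>
    ContDiffOn.div ((contDiffOn_const.mul (hsm a b)).sub (hst A hsm a b)) hd2
      (fun x hx => (h x hx).2.ne')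
  have ha1 : ∀ x ∈ U, Asym (th1 (A x)) := by
    intro x _ a b
    have e1 := hasym x a b
    have e2 := (st_props (A x) (ph (A x))).1 a b
    have e3 := (st_props (A x) (A x)).1 a b
    unfold th1
    have e4 : ph (A x) b a = -ph (A x) a b := by
      unfold ph
      rw [e3]
      ring
    rw [e1, e2, e4]
    ring
  have ha2 : ∀ x ∈ U, Asym (th2 (A x)) := by
    intro x _ a b
    have e1 := hasym x a b
    have e3 := (st_props (A x) (A x)).1 a b
    unfold th2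
    rw [e1, e3]
    ring
  obtain ⟨Θ1, h11, h12⟩ := un8_form U e he (fun x => th1 (A x)) ht1 ha1
  obtain ⟨Θ2, h21, h22⟩ := un8_form U e he (fun x => th2 (A x)) ht2 ha2
  refine ⟨fun i => cond i Θ2 Θ1, ?_, h12, h22⟩
  intro i
  cases i
  · exact h11
  · exact h21
-- END un8

-- BEGIN un9
private theorem un9_swap (A X Y : Fin (1 + 5) → Fin (1 + 5) → ℝ) :
    T6 (fun a b => A b a) X Y = -T6 A X Y := by
  obtain ⟨τ, hτ⟩ : ∃ τ : Equiv.Perm (Fin (1 + 5)), τ = Equiv.swap 0 1 := ⟨_, rfl⟩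
  have hsg : sg τ = -1 := by
    rw [hτ]
    unfold sg
    rw [Equiv.Perm.sign_swap (by decide)]
    norm_num
  have hm : ∀ s : Equiv.Perm (Fin (1 + 5)), sg (s * τ) = sg s * sg τ := by
    intro s
    unfold sg
    rw [map_mul, Units.val_mul, Int.cast_mul]
  have e0 : τ 0 = 1 := by rw [hτ]; decide
  have e1 : τ 1 = 0 := by rw [hτ]; decide
  have e2 : τ 2 = 2 := by rw [hτ]; decide
  have e3 : τ 3 = 3 := by rw [hτ]; decide
  have e4 : τ 4 = 4 := by rw [hτ]; decide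
  have e5 : τ 5 = 5 := by rw [hτ]; decide
  have h2 : ∑ s : Equiv.Perm (Fin (1 + 5)),
      sg (s * τ) * (A ((s * τ : Equiv.Perm (Fin (1 + 5))) 0) ((s * τ : Equiv.Perm (Fin (1 + 5))) 1) *
        (X ((s * τ : Equiv.Perm (Fin (1 + 5))) 2) ((s * τ : Equiv.Perm (Fin (1 + 5))) 3) *
          Y ((s * τ : Equiv.Perm (Fin (1 + 5))) 4) ((s * τ : Equiv.Perm (Fin (1 + 5))) 5)))
      = ∑ s : Equiv.Perm (Fin (1 + 5)),
        sg s * (A (s 0) (s 1) * (X (s 2) (s 3) * Y (s 4) (s 5))) :=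
    Equiv.sum_comp (Equiv.mulRight τ) fun s =>
      sg s * (A (s 0) (s 1) * (X (s 2) (s 3) * Y (s 4) (s 5)))
  have h1 : ∑ s : Equiv.Perm (Fin (1 + 5)),
      sg (s * τ) * (A ((s * τ : Equiv.Perm (Fin (1 + 5))) 0) ((s * τ : Equiv.Perm (Fin (1 + 5))) 1) *
        (X ((s * τ : Equiv.Perm (Fin (1 + 5))) 2) ((s * τ : Equiv.Perm (Fin (1 + 5))) 3) *
          Y ((s * τ : Equiv.Perm (Fin (1 + 5))) 4) ((s * τ : Equiv.Perm (Fin (1 + 5))) 5)))
      = -∑ s : Equiv.Perm (Fin (1 + 5)),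
        sg s * (A (s 1) (s 0) * (X (s 2) (s 3) * Y (s 4) (s 5))) := by
    rw [← Finset.sum_neg_distrib]
    refine Finset.sum_congr rfl fun s _ => ?_
    rw [hm, hsg, Equiv.Perm.mul_apply, Equiv.Perm.mul_apply, Equiv.Perm.mul_apply,
      Equiv.Perm.mul_apply, Equiv.Perm.mul_apply, Equiv.Perm.mul_apply, e0, e1, e2, e3, e4, e5]
    ring
  rw [h1] at h2
  unfold T6
  rw [← h2]
  ring

private theorem un9_half (A X Y : Fin (1 + 5) → Fin (1 + 5) → ℝ) :
    T6 (fun a b => (A a b - A b a) / 2) X Y = T6 A X Y := by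
  have h := un9_swap A X Y
  have h2 : T6 (fun a b => (A a b - A b a) / 2) X Y
      = (T6 A X Y - T6 (fun a b => A b a) X Y) / 2 := by
    unfold T6
    rw [← mul_sub, mul_div_assoc, ← Finset.sum_sub_distrib, Finset.sum_div]
    congr 1
    refine Finset.sum_congr rfl fun s _ => ?_
    ring
  rw [h2, h]
  ring

/-- `Eqn O X` gives `Sol` (`dual_of_eqn`, `tri_T6`). For any `c`, `tri c X Y = T6 C X Y` with `C a b = (c (pr a b) - c (pr b a)) / 2` (`tri_T6`; `s ↦ s * swap 0 1`), `T6 C X Y = T6 X Y C` (`T6_symm`), and `(1 / 2!) ∑ b, c b * Θ b = (1 / 2) ∑ a, ∑ b, c (pr a b) * Θ (pr a b) = ip C (Θ ∘ pr)` (`Θ` is alternating). This is row tr6 of Fin.lean: whoever has it done may copy it. -/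
theorem rank_of_T6' (O Θ : (Fin (1 + 1) → Fin (1 + 5)) → ℝ) (hΘ : Alt Θ)
    (h : ∀ X Y, Asym X → Asym Y → Sol (fun a b => O (pr a b)) X → Sol (fun a b => O (pr a b)) Y →
      ∀ Z, Asym Z → T6 X Y Z = -(ip X Y * ip (fun a b => Θ (pr a b)) Z)) : RankOne O Θ := by
  intro X Y hX hY hEX hEY c
  have hSX : Sol (fun a b => O (pr a b)) X := fun Z hZ => by
    have h0 := dual_of_eqn O X Z hX hZ hEX
    rw [tri_T6] at h0
    exact h0
  have hSY : Sol (fun a b => O (pr a b)) Y := fun Z hZ => by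
    have h0 := dual_of_eqn O Y Z hY hZ hEY
    rw [tri_T6] at h0
    exact h0
  have hC : Asym (q := 1) (fun a b => (c (pr a b) - c (pr b a)) / 2) := fun a b => by
    ring
  have h1 := h X Y hX hY hSX hSY _ hC
  have h2 : tri c X Y = T6 X Y (fun a b => (c (pr a b) - c (pr b a)) / 2) := by
    rw [tri_T6, ← un9_half (fun a b => c (pr a b)) X Y, (T6_symm _ X Y X).1, (T6_symm X _ Y X).2.1]
  have h3 : ∑ b : Fin (1 + 1) → Fin (1 + 5), c b * Θ b
      = ∑ a : Fin (1 + 5), ∑ b : Fin (1 + 5), c (pr a b) * Θ (pr a b) := by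
    rw [← Fintype.sum_prod_type' (fun a b => c (pr a b) * Θ (pr a b))]
    refine Fintype.sum_equiv (finTwoArrowEquiv (Fin (1 + 5))) _ _ fun b => ?_
    have hb : pr (b 0) (b 1) = b := by
      funext r
      fin_cases r <;> rfl
    show c b * Θ b = c (pr (b 0) (b 1)) * Θ (pr (b 0) (b 1))
    rw [hb]
  have h4 : ∀ a b, Θ (pr b a) = -Θ (pr a b) := by
    intro a b
    have h5 := hΘ (pr a b) (Equiv.swap 0 1)
    have h6 : (fun r => pr a b (Equiv.swap 0 1 r)) = pr b a := by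
      funext r
      fin_cases r <;> rfl
    have h7 : sg (Equiv.swap (0 : Fin (1 + 1)) 1) = -1 := by
      unfold sg
      rw [Equiv.Perm.sign_swap (by decide)]
      norm_num
    rw [h6, h7] at h5
    rw [h5]
    ring
  have h8 : ∑ a : Fin (1 + 5), ∑ b : Fin (1 + 5), Θ (pr a b) * c (pr b a)
      = -∑ a : Fin (1 + 5), ∑ b : Fin (1 + 5), c (pr a b) * Θ (pr a b) := by
    rw [Finset.sum_comm, ← Finset.sum_neg_distrib]
    refine Finset.sum_congr rfl fun a _ => ?_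
    rw [← Finset.sum_neg_distrib]
    refine Finset.sum_congr rfl fun b _ => ?_
    rw [h4 a b]
    ring
  have h9 : ip (q := 1) (fun a b => Θ (pr a b)) (fun a b => (c (pr a b) - c (pr b a)) / 2)
      = 1 / (Nat.factorial (1 + 1) : ℝ) * ∑ b, c b * Θ b := by
    rw [h3]
    unfold ip
    have h10 : ∑ a : Fin (1 + 5), ∑ b : Fin (1 + 5),
        Θ (pr a b) * ((c (pr a b) - c (pr b a)) / 2)
        = ∑ a : Fin (1 + 5), ∑ b : Fin (1 + 5), c (pr a b) * Θ (pr a b) := by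
      have h11 : ∑ a : Fin (1 + 5), ∑ b : Fin (1 + 5),
          Θ (pr a b) * ((c (pr a b) - c (pr b a)) / 2)
          = (∑ a : Fin (1 + 5), ∑ b : Fin (1 + 5), c (pr a b) * Θ (pr a b)
            - ∑ a : Fin (1 + 5), ∑ b : Fin (1 + 5), Θ (pr a b) * c (pr b a)) / 2 := by
        rw [← Finset.sum_sub_distrib, Finset.sum_div]
        refine Finset.sum_congr rfl fun a _ => ?_
        rw [← Finset.sum_sub_distrib, Finset.sum_div]
        refine Finset.sum_congr rfl fun b _ => ?_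
        ring
      rw [h11, h8]
      ring
    rw [h10]
    norm_num [Nat.factorial]
  rw [h2, h1, h9]
-- END un9

-- BEGIN una
/-- Rows un7, un2, un8, un6, un9 (`cmp_alt`) and mrk with `ι = Bool`. -/
theorem main_uniq {n : ℕ} (U K : Set (E 1)) (hU : IsOpen U)
    (hK : IsOpen (U \ K)) (h0 : μH[((1 : ℕ) : ℝ) + 4] K = 0) (e : Fin (1 + 5) → E 1 → E 1)
    (he : IsFrame U e) (Ω : E 1 → Form 1 (1 + 1)) (hΩ : ContDiffOn ℝ ∞ Ω U)
    (hN : ∀ x ∈ U, ComassLe e Ω x ∧ AtMostOne e Ω x)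
    (F : ℕ → E 1 → Fin (1 + 5) → Fin (1 + 5) → Mat n) (hF : ∀ k, IsCurvature U (F k))
    (hFe : ∀ k, ∀ x ∈ U, IsASD e Ω (F k) x)
    (G : E 1 → Fin (1 + 5) → Fin (1 + 5) → Mat n) (hG : IsCurvature (U \ K) G)
    (hGe : ∀ x ∈ U \ K, IsASD e Ω G x) (hGi : LocallyIntegrableOn (nsq G) U)
    (C : (E 1 → Form 1 (1 + 1)) → ℝ)
    (hC : ∀ φ : E 1 → Form 1 (1 + 1), IsTest U φ →
      Tendsto (fun k => ∫ x, cw (F k) φ x) atTop
        (𝓝 ((∫ x, cw G φ x) + 8 * Real.pi ^ 2 * C φ)))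
    (ψ : E 1 → Form 1 1) (hψ : IsTest U ψ) :
    C (extDeriv ψ) = 0 ∧ ∫ x, cw G (extDeriv ψ) x = 0 := by
  have hu : ∀ x ∈ U, Asym (fun a b => cmp e Ω x (pr a b)) ∧
      Uq (fun a b => cmp e Ω x (pr a b)) := fun x hx =>
    uq_of_one e Ω x (hN x hx).1 (hN x hx).2
  obtain ⟨Θ, hs, h1, h2⟩ := exists_thetas U hU e he Ω hΩ
    (fun x hx => den_pos _ (hu x hx).1 (hu x hx).2)
  refine main_rank U K hU hK h0 e he Ω Θ hs ?_ F hF hFe G hG hGe hGi C hC ψ hψ
  intro x hx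
  rcases rank_uniq _ (hu x hx).1 (hu x hx).2 with h | h
  · refine ⟨false, rank_of_T6' _ _ (cmp_alt e (Θ false) x) ?_⟩
    have e1 : (fun a b => cmp e (Θ false) x (pr a b)) =
        th1 (fun a b => cmp e Ω x (pr a b)) := funext fun a => funext fun b => h1 x hx a b
    rw [e1]
    exact h
  · refine ⟨true, rank_of_T6' _ _ (cmp_alt e (Θ true) x) ?_⟩
    have e1 : (fun a b => cmp e (Θ true) x (pr a b)) =
        th2 (fun a b => cmp e Ω x (pr a b)) := funext fun a => funext fun b => h2 x hx a b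
    rw [e1]
    exact h
-- END una

end Pool.Agent.Oaf
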